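import Pool.Agent.N118.SU.Phi

/-!
# Cusps, tips and notches
-/

set_option autoImplicit false

open Set Filter Topology

namespace Pool.Agent.N118.SU

/-- the standard cusp -/
def cst (c1 c2 : ℝ) : Set ℂ := {u | 0 ≤ u.re ∧ -(c1 * u.re ^ 2) ≤ u.im ∧ u.im ≤ c2 * u.re ^ 2}

theorem mem_cst_iff (c1 c2 s t : ℝ) : ((s : ℂ) + (t : ℂ) * Complex.I) ∈ cst c1 c2 ↔
    0 ≤ s ∧ -(c1 * s ^ 2) ≤ t ∧ t ≤ c2 * s ^ 2 := by
  simp [cst]

/-- `X` contains the cusp at `v` with the frame `φ` -/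
def HasTip (X : Set ℂ) (v : ℂ) (φ : ℂ ≃ₗᵢ[ℝ] ℂ) (c1 c2 : ℝ) : Prop :=
  ∃ ε > 0, ∀ u ∈ cst c1 c2, ‖u‖ < ε → v + φ u ∈ X

/-- near `v` the set `X` contains the complement of the cusp, but not its axis -/
def HasNotch (X : Set ℂ) (v : ℂ) (φ : ℂ ≃ₗᵢ[ℝ] ℂ) (c1 c2 : ℝ) : Prop :=
  ∃ ε > 0, (∀ u, ‖u‖ < ε → u ∉ cst c1 c2 → v + φ u ∈ X) ∧
    ∀ s : ℝ, 0 < s → s < ε → v + φ s ∉ X

/-- `X` contains a horizontal and a vertical segment starting at `v` -/
def RectAt (X : Set ℂ) (v : ℂ) : Prop :=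
  ∃ δ > 0, ∃ s1 s2 : ℝ, (s1 = 1 ∨ s1 = -1) ∧ (s2 = 1 ∨ s2 = -1) ∧
    ∀ t : ℝ, 0 ≤ t → t ≤ δ → v + (t * s1 : ℝ) ∈ X ∧ v + (t * s2 : ℝ) * Complex.I ∈ X

/-- a direction contained in a cusp is its axis -/
theorem dir_eq_one {c1 c2 : ℝ} (h1 : 0 < c1) (_h2 : 0 < c2) {d : ℂ} (hd : ‖d‖ = 1) {ε : ℝ}
    (hε : 0 < ε) (h : ∀ t : ℝ, 0 < t → t < ε → (t : ℂ) * d ∈ cst c1 c2) : d = 1 := by
  have hre : 0 ≤ d.re := by
    have h3 := (h (ε / 2) (by linarith) (by linarith)).1
    rw [Complex.re_ofReal_mul] at h3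
    by_contra h4
    push Not at h4
    nlinarith
  have him : d.im = 0 := by
    by_contra hne
    have habs : 0 < |d.im| := abs_pos.2 hne
    have hre1 : d.re ^ 2 ≤ 1 := by
      have h3 := Complex.abs_re_le_norm d
      rw [hd] at h3
      have := abs_le.1 h3
      nlinarith
    set C := max c1 c2 with hC
    have hC0 : 0 < C := lt_max_of_lt_left h1
    set t := min (ε / 2) (|d.im| / (2 * C)) with ht
    have ht0 : 0 < t := lt_min (by linarith) (by positivity)
    have ht1 : t < ε := lt_of_le_of_lt (min_le_left _ _) (by linarith)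
    have ht2 : t ≤ |d.im| / (2 * C) := min_le_right _ _
    obtain ⟨_, h4, h5⟩ := h t ht0 ht1
    rw [Complex.re_ofReal_mul, Complex.im_ofReal_mul] at h4 h5
    have h6 : t * |d.im| ≤ C * t ^ 2 := by
      have e1 : c1 * (t * d.re) ^ 2 ≤ C * t ^ 2 := by
        have : (t * d.re) ^ 2 ≤ t ^ 2 := by rw [mul_pow]; nlinarith [sq_nonneg t]
        calc c1 * (t * d.re) ^ 2 ≤ C * (t * d.re) ^ 2 :=
              mul_le_mul_of_nonneg_right (le_max_left _ _) (sq_nonneg _)
          _ ≤ C * t ^ 2 := mul_le_mul_of_nonneg_left this hC0.le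
      have e2 : c2 * (t * d.re) ^ 2 ≤ C * t ^ 2 := by
        have : (t * d.re) ^ 2 ≤ t ^ 2 := by rw [mul_pow]; nlinarith [sq_nonneg t]
        calc c2 * (t * d.re) ^ 2 ≤ C * (t * d.re) ^ 2 :=
              mul_le_mul_of_nonneg_right (le_max_right _ _) (sq_nonneg _)
          _ ≤ C * t ^ 2 := mul_le_mul_of_nonneg_left this hC0.le
      rcases abs_cases d.im with ⟨h7, _⟩ | ⟨h7, _⟩
      · rw [h7]; linarith
      · rw [h7]; linarith
    have h7 : |d.im| ≤ C * t := by
      have : t * |d.im| ≤ t * (C * t) := by linarith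
      exact le_of_mul_le_mul_left this ht0
    have h8 : C * t ≤ |d.im| / 2 := by
      calc C * t ≤ C * (|d.im| / (2 * C)) := mul_le_mul_of_nonneg_left ht2 hC0.le
        _ = |d.im| / 2 := by field_simp
    linarith
  have hsq : d.re ^ 2 = 1 := by
    have h3 : ‖d‖ ^ 2 = d.re ^ 2 + d.im ^ 2 := by
      rw [← Complex.normSq_eq_norm_sq, Complex.normSq_apply]; ring
    rw [hd, him] at h3
    linarith
  have hre1 : d.re = 1 := by nlinarith
  exact Complex.ext (by simpa using hre1) (by simpa using him)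

/-- comparison of two cusps -/
theorem cusp_compare {c1 c2 c1' c2' : ℝ} (h1 : 0 < c1) (h2 : 0 < c2) (h1' : 0 < c1') (h2' : 0 < c2')
    (χ : ℂ ≃ₗᵢ[ℝ] ℂ) {ε : ℝ} (hε : 0 < ε) (h : ∀ u ∈ cst c1' c2', ‖u‖ < ε → χ u ∈ cst c1 c2) :
    χ 1 = 1 ∧ ((χ Complex.I = Complex.I ∧ c1' ≤ c1 ∧ c2' ≤ c2) ∨
      (χ Complex.I = -Complex.I ∧ c1' ≤ c2 ∧ c2' ≤ c1)) := by
  have hχ1 : χ 1 = 1 := by
    apply dir_eq_one h1 h2 (by rw [χ.norm_map]; simp) hε
    intro t ht ht'
    have h3 : χ (t : ℂ) ∈ cst c1 c2 := by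
      apply h
      · refine ⟨by simpa using ht.le, ?_, ?_⟩
        · simp only [Complex.ofReal_re, Complex.ofReal_im]
          have : 0 < c1' * t ^ 2 := by positivity
          linarith
        · simp only [Complex.ofReal_re, Complex.ofReal_im]; positivity
      · rw [Complex.norm_real, Real.norm_of_nonneg ht.le]; exact ht'
    have h4 : χ (t : ℂ) = (t : ℂ) * χ 1 := by
      have h5 : (t : ℂ) = t • (1 : ℂ) := by simp
      rw [h5, map_smul]; simp
    rw [h4] at h3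
    exact h3
  refine ⟨hχ1, ?_⟩
  have hform : ∀ s t : ℝ, χ (s + t * Complex.I) = s + t * χ Complex.I := by
    intro s t
    have h5 : (s + t * Complex.I : ℂ) = s • (1 : ℂ) + t • Complex.I := by simp
    rw [h5, map_add, map_smul, map_smul, hχ1]; simp
  set d := χ Complex.I with hd
  have hdn : ‖d‖ = 1 := by rw [hd, χ.norm_map]; simp
  -- orthogonality
  have hre : d.re = 0 := by
    have h3 : ‖χ (1 + Complex.I)‖ = ‖(1 + Complex.I : ℂ)‖ := χ.norm_map _
    have h4 := hform 1 1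
    simp only [Complex.ofReal_one, one_mul] at h4
    rw [h4] at h3
    have h5 : ‖(1 + d : ℂ)‖ ^ 2 = ‖(1 + Complex.I : ℂ)‖ ^ 2 := by rw [h3]
    have h6 : ‖d‖ ^ 2 = 1 := by rw [hdn]; norm_num
    rw [← Complex.normSq_eq_norm_sq, ← Complex.normSq_eq_norm_sq, Complex.normSq_apply,
      Complex.normSq_apply] at h5
    rw [← Complex.normSq_eq_norm_sq, Complex.normSq_apply] at h6
    simp only [Complex.add_re, Complex.one_re, Complex.add_im, Complex.one_im, Complex.I_re,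
      Complex.I_im] at h5
    nlinarith
  have him : d.im = 1 ∨ d.im = -1 := by
    have h6 : ‖d‖ ^ 2 = 1 := by rw [hdn]; norm_num
    rw [← Complex.normSq_eq_norm_sq, Complex.normSq_apply, hre] at h6
    have : (d.im - 1) * (d.im + 1) = 0 := by nlinarith
    rcases mul_eq_zero.1 this with h7 | h7
    · left; linarith
    · right; linarith
  -- a small abscissa
  set C := max c1' c2' with hC
  have hC0 : 0 < C := lt_max_of_lt_left h1'
  set s := min (ε / 4) (1 / C) with hs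
  have hs0 : 0 < s := lt_min (by linarith) (by positivity)
  have hs1 : s ≤ ε / 4 := min_le_left _ _
  have hs2 : C * s ≤ 1 := by
    have : s ≤ 1 / C := min_le_right _ _
    calc C * s ≤ C * (1 / C) := mul_le_mul_of_nonneg_left this hC0.le
      _ = 1 := by field_simp
  have hnorm : ∀ t : ℝ, |t| ≤ C * s ^ 2 → ‖(s + t * Complex.I : ℂ)‖ < ε := by
    intro t ht
    calc ‖(s + t * Complex.I : ℂ)‖ ≤ ‖(s : ℂ)‖ + ‖(t * Complex.I : ℂ)‖ := norm_add_le _ _
      _ = s + |t| := by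
          rw [Complex.norm_real, Real.norm_of_nonneg hs0.le, norm_mul, Complex.norm_real,
            Complex.norm_I, mul_one, Real.norm_eq_abs]
      _ ≤ s + C * s ^ 2 := by linarith
      _ ≤ s + s := by nlinarith
      _ < ε := by linarith
  have hup : χ (s + (c2' * s ^ 2 : ℝ) * Complex.I) ∈ cst c1 c2 := by
    apply h
    · rw [mem_cst_iff]
      have e1 : 0 < c1' * s ^ 2 := by positivity
      have e2 : 0 < c2' * s ^ 2 := by positivity
      exact ⟨hs0.le, by linarith, le_rfl⟩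
    · apply hnorm
      rw [abs_of_nonneg (by positivity)]
      exact mul_le_mul_of_nonneg_right (le_max_right _ _) (sq_nonneg _)
  have hdn' : χ (s + (-(c1' * s ^ 2) : ℝ) * Complex.I) ∈ cst c1 c2 := by
    apply h
    · rw [mem_cst_iff]
      have e1 : 0 < c1' * s ^ 2 := by positivity
      have e2 : 0 < c2' * s ^ 2 := by positivity
      exact ⟨hs0.le, le_rfl, by linarith⟩
    · apply hnorm
      rw [abs_neg, abs_of_nonneg (by positivity)]
      exact mul_le_mul_of_nonneg_right (le_max_left _ _) (sq_nonneg _)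
  rw [hform] at hup hdn'
  obtain ⟨_, u1, u2⟩ := hup
  obtain ⟨_, w1, w2⟩ := hdn'
  simp only [Complex.add_re, Complex.ofReal_re, Complex.re_ofReal_mul, hre, mul_zero,
    add_zero, Complex.add_im, Complex.ofReal_im, Complex.im_ofReal_mul, zero_add] at u1 u2 w1 w2
  have hsq : 0 < s ^ 2 := by positivity
  rcases him with h7 | h7
  · left
    rw [h7] at u1 u2 w1 w2
    refine ⟨Complex.ext (by rw [hre]; simp) (by rw [h7]; simp), ?_, ?_⟩
    · refine le_of_mul_le_mul_right ?_ hsq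
      linarith
    · refine le_of_mul_le_mul_right ?_ hsq
      linarith
  · right
    rw [h7] at u1 u2 w1 w2
    refine ⟨Complex.ext (by rw [hre]; simp) (by rw [h7]; simp), ?_, ?_⟩
    · refine le_of_mul_le_mul_right ?_ hsq
      linarith
    · refine le_of_mul_le_mul_right ?_ hsq
      linarith

/-- a linear isometry fixing `1` and `I` is the identity -/
theorem isom_eq_id {χ : ℂ ≃ₗᵢ[ℝ] ℂ} (h1 : χ 1 = 1) (h2 : χ Complex.I = Complex.I) (z : ℂ) :
    χ z = z := by
  have h : z = z.re • (1 : ℂ) + z.im • Complex.I := by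
    apply Complex.ext <;> simp
  rw [h, map_add, map_smul, map_smul, h1, h2]

/-! ### the four types -/

/-- the four types of cusps -/
inductive Ty
  | a | b | al | be
  deriving DecidableEq

/-- the first constant -/
def Ty.c1 : Ty → ℝ
  | .a => 1 | .b => 2 | .al => 3 | .be => 4

/-- the second constant -/
def Ty.c2 : Ty → ℝ
  | .a => 8 | .b => 7 | .al => 6 | .be => 5

theorem Ty.c1_pos (τ : Ty) : 0 < τ.c1 := by cases τ <;> norm_num [Ty.c1]
theorem Ty.c2_pos (τ : Ty) : 0 < τ.c2 := by cases τ <;> norm_num [Ty.c2]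

theorem Ty.eq_of_le {τ τ' : Ty} (h1 : τ'.c1 ≤ τ.c1) (h2 : τ'.c2 ≤ τ.c2) : τ' = τ := by
  cases τ <;> cases τ' <;> first | rfl | (exfalso; simp only [Ty.c1, Ty.c2] at h1 h2; linarith)

theorem Ty.not_swap {τ τ' : Ty} (h1 : τ'.c1 ≤ τ.c2) (h2 : τ'.c2 ≤ τ.c1) : False := by
  cases τ <;> cases τ' <;> (simp only [Ty.c1, Ty.c2] at h1 h2; linarith)

/-- the frame of a type in the standard position -/
noncomputable def fr : Ty → (ℂ ≃ₗᵢ[ℝ] ℂ)
  | .a => LinearIsometryEquiv.refl ℝ ℂ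
  | .b => LinearIsometryEquiv.refl ℝ ℂ
  | .al => rotation ⟨-Complex.I, by simp [Submonoid.unitSphere]⟩
  | .be => Complex.conjLIE.trans (rotation ⟨Complex.I, by simp [Submonoid.unitSphere]⟩)

theorem fr_a (u : ℂ) : fr .a u = u := rfl
theorem fr_b (u : ℂ) : fr .b u = u := rfl
theorem fr_al (u : ℂ) : fr .al u = ⟨u.im, -u.re⟩ := by
  have h : fr .al u = -Complex.I * u := rfl
  rw [h]
  apply Complex.ext <;> simp
theorem fr_be (u : ℂ) : fr .be u = ⟨u.im, u.re⟩ := by
  have h : fr .be u = Complex.I * (starRingEnd ℂ) u := rfl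
  rw [h]
  apply Complex.ext <;> simp

end Pool.Agent.N118.SU
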