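import Mathlib

/-!
# Patches, surrounding, tilings (MP_ae4adf_co): definitions

The plane is `ℂ` with its Euclidean metric.
-/

set_option autoImplicit false

namespace Pool.Agent.N118.SU

/-- `P` is a closed topological disk -/
def IsClosedDisk (P : Set ℂ) : Prop := Nonempty (P ≃ₜ Metric.closedBall (0 : ℂ) 1)

/-- a tile from `S` is the image of a member of `S` under an isometry of the plane -/
def IsTile (S : Set (Set ℂ)) (T : Set ℂ) : Prop := ∃ P ∈ S, ∃ g : ℂ ≃ᵢ ℂ, T = g '' P

/-- a patch is a finite collection of tiles with pairwise disjoint interiors whose union is a closed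
topological disk -/
structure IsPatch (S : Set (Set ℂ)) (A : Set (Set ℂ)) : Prop where
  finite : A.Finite
  tile : ∀ T ∈ A, IsTile S T
  disj : ∀ T ∈ A, ∀ T' ∈ A, T ≠ T' → Disjoint (interior T) (interior T')
  disk : IsClosedDisk (⋃₀ A)

/-- the patch `B` surrounds the patch `A` -/
def Surrounds (B A : Set (Set ℂ)) : Prop := A ⊆ B ∧ ⋃₀ A ⊆ interior (⋃₀ B)

/-- the patch `A` can be surrounded `r` times -/
def CanBeSurrounded (S : Set (Set ℂ)) (A : Set (Set ℂ)) (r : ℕ) : Prop :=
  ∃ P : ℕ → Set (Set ℂ), P 0 = A ∧ (∀ i ≤ r, IsPatch S (P i)) ∧ ∀ i < r, Surrounds (P (i + 1)) (P i)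

/-- `S` admits a tiling of the plane: a countable family of tiles with pairwise disjoint interiors
covers the plane -/
def AdmitsTiling (S : Set (Set ℂ)) : Prop :=
  ∃ F : Set (Set ℂ), F.Countable ∧ (∀ T ∈ F, IsTile S T) ∧
    (∀ T ∈ F, ∀ T' ∈ F, T ≠ T' → Disjoint (interior T) (interior T')) ∧ ⋃₀ F = Set.univ

/-- `f` has the property of the question -/
def SurroundFunction (f : ℕ → ℕ → ℕ) : Prop :=
  ∀ n m : ℕ, 0 < n → 0 < m → 0 < f n m ∧ ∀ S : Set (Set ℂ), S.ncard = n →
    (∀ P ∈ S, IsClosedDisk P) → (∃ A, IsPatch S A ∧ A.ncard = m) →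
    (∀ A, IsPatch S A → A.ncard = m → CanBeSurrounded S A (f n m)) → AdmitsTiling S

end Pool.Agent.N118.SU
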