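import Pool.Agent.N118.SU.Defs

/-!
# Star-shaped sets with a continuous gauge are closed disks
-/

set_option autoImplicit false

open Set Filter Topology

namespace Pool.Agent.N118.SU

/-- a continuous, positively homogeneous function which is positive off the origin -/
structure IsGauge (g : ℂ → ℝ) : Prop where
  cont : Continuous g
  hom : ∀ (t : ℝ) (z : ℂ), 0 ≤ t → g (t * z) = t * g z
  pos : ∀ z, z ≠ 0 → 0 < g z

namespace IsGauge

variable {g : ℂ → ℝ} (hg : IsGauge g)

include hg

theorem zero : g 0 = 0 := by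
  have := hg.hom 0 0 le_rfl
  simpa using this

theorem nonneg (z : ℂ) : 0 ≤ g z := by
  rcases eq_or_ne z 0 with rfl | h
  · rw [hg.zero]
  · exact (hg.pos z h).le

/-- lower bound by a multiple of the norm -/
theorem exists_lower : ∃ c > 0, ∀ z, c * ‖z‖ ≤ g z := by
  have hS : IsCompact (Metric.sphere (0 : ℂ) 1) := isCompact_sphere 0 1
  have hne : (Metric.sphere (0 : ℂ) 1).Nonempty := ⟨1, by simp⟩
  obtain ⟨z0, hz0, hmin⟩ := hS.exists_isMinOn hne hg.cont.continuousOn
  have hz0' : z0 ≠ 0 := by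
    rintro rfl
    simp at hz0
  refine ⟨g z0, hg.pos z0 hz0', fun z => ?_⟩
  rcases eq_or_ne z 0 with rfl | h
  · simp [hg.zero]
  · have hn : 0 < ‖z‖ := norm_pos_iff.2 h
    have h1 : ((‖z‖⁻¹ : ℝ) * z : ℂ) ∈ Metric.sphere (0 : ℂ) 1 := by
      rw [mem_sphere_zero_iff_norm, norm_mul, Complex.norm_real, norm_inv, norm_norm,
        inv_mul_cancel₀ hn.ne']
    have h2 : g z0 ≤ g ((‖z‖⁻¹ : ℝ) * z) := hmin h1
    rw [hg.hom _ _ (by positivity)] at h2
    calc g z0 * ‖z‖ ≤ (‖z‖⁻¹ * g z) * ‖z‖ := mul_le_mul_of_nonneg_right h2 hn.le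
      _ = g z := by field_simp

/-- upper bound by a multiple of the norm -/
theorem exists_upper : ∃ C > 0, ∀ z, g z ≤ C * ‖z‖ := by
  have hS : IsCompact (Metric.sphere (0 : ℂ) 1) := isCompact_sphere 0 1
  have hne : (Metric.sphere (0 : ℂ) 1).Nonempty := ⟨1, by simp⟩
  obtain ⟨z0, hz0, hmax⟩ := hS.exists_isMaxOn hne hg.cont.continuousOn
  have hz0' : z0 ≠ 0 := by
    rintro rfl
    simp at hz0
  refine ⟨g z0, hg.pos z0 hz0', fun z => ?_⟩
  rcases eq_or_ne z 0 with rfl | h
  · simp [hg.zero]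
  · have hn : 0 < ‖z‖ := norm_pos_iff.2 h
    have h1 : ((‖z‖⁻¹ : ℝ) * z : ℂ) ∈ Metric.sphere (0 : ℂ) 1 := by
      rw [mem_sphere_zero_iff_norm, norm_mul, Complex.norm_real, norm_inv, norm_norm,
        inv_mul_cancel₀ hn.ne']
    have h2 : g ((‖z‖⁻¹ : ℝ) * z) ≤ g z0 := hmax h1
    rw [hg.hom _ _ (by positivity)] at h2
    calc g z = (‖z‖⁻¹ * g z) * ‖z‖ := by field_simp
      _ ≤ g z0 * ‖z‖ := mul_le_mul_of_nonneg_right h2 hn.le

end IsGauge

/-- the radial map -/
noncomputable def radial (g k : ℂ → ℝ) (z : ℂ) : ℂ := ((g z / k z : ℝ) : ℂ) * z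

theorem radial_apply_eq {g k : ℂ → ℝ} (hg : IsGauge g) (hk : IsGauge k) (z : ℂ) :
    k (radial g k z) = g z := by
  rcases eq_or_ne z 0 with rfl | h
  · simp [radial, hg.zero, hk.zero]
  · unfold radial
    rw [hk.hom _ _ (div_nonneg (hg.nonneg z) (hk.nonneg z)), div_mul_cancel₀ _ (hk.pos z h).ne']

theorem radial_radial {g k : ℂ → ℝ} (hg : IsGauge g) (hk : IsGauge k) (z : ℂ) :
    radial k g (radial g k z) = z := by
  rcases eq_or_ne z 0 with rfl | h
  · simp [radial]
  · have h1 := hg.pos z h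
    have h2 := hk.pos z h
    have h3 : g (radial g k z) = g z / k z * g z := by
      unfold radial
      rw [hg.hom _ _ (div_nonneg h1.le h2.le)]
    show ((k (radial g k z) / g (radial g k z) : ℝ) : ℂ) * radial g k z = z
    rw [radial_apply_eq hg hk, h3]
    unfold radial
    rw [← mul_assoc, ← Complex.ofReal_mul]
    have h4 : g z / (g z / k z * g z) * (g z / k z) = 1 := by field_simp
    rw [h4]; simp

theorem radial_continuous {g k : ℂ → ℝ} (hg : IsGauge g) (hk : IsGauge k) :
    Continuous (radial g k) := by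
  rw [continuous_iff_continuousAt]
  intro z
  rcases eq_or_ne z 0 with rfl | h
  · obtain ⟨C, hC, hCg⟩ := hg.exists_upper
    obtain ⟨c, hc, hck⟩ := hk.exists_lower
    have h0 : radial g k 0 = 0 := by simp [radial]
    rw [ContinuousAt, h0]
    rw [tendsto_zero_iff_norm_tendsto_zero]
    have hle : ∀ z, ‖radial g k z‖ ≤ C / c * ‖z‖ := by
      intro z
      rcases eq_or_ne z 0 with rfl | hz
      · simp [h0]
      · unfold radial
        rw [norm_mul, Complex.norm_real, Real.norm_of_nonneg (div_nonneg (hg.nonneg z) (hk.nonneg z))]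
        have hn : 0 < ‖z‖ := norm_pos_iff.2 hz
        refine mul_le_mul_of_nonneg_right ?_ hn.le
        rw [div_le_div_iff₀ (hk.pos z hz) hc]
        have e1 := hCg z
        have e2 := hck z
        calc g z * c ≤ (C * ‖z‖) * c := mul_le_mul_of_nonneg_right e1 hc.le
          _ = C * (c * ‖z‖) := by ring
          _ ≤ C * k z := mul_le_mul_of_nonneg_left e2 hC.le
    refine squeeze_zero (fun z => norm_nonneg _) hle ?_
    have : Tendsto (fun z : ℂ => C / c * ‖z‖) (𝓝 0) (𝓝 (C / c * ‖(0 : ℂ)‖)) :=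
      (continuous_const.mul continuous_norm).tendsto 0
    simpa using this
  · refine ContinuousAt.mul ?_ continuousAt_id
    refine Complex.continuous_ofReal.continuousAt.comp ?_
    exact hg.cont.continuousAt.div hk.cont.continuousAt (hk.pos z h).ne'

/-- the radial homeomorphism -/
noncomputable def radialHomeo {g k : ℂ → ℝ} (hg : IsGauge g) (hk : IsGauge k) : ℂ ≃ₜ ℂ where
  toFun := radial g k
  invFun := radial k g
  left_inv := radial_radial hg hk
  right_inv := radial_radial hk hg
  continuous_toFun := radial_continuous hg hk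
  continuous_invFun := radial_continuous hk hg

theorem isGauge_norm : IsGauge (fun z => ‖z‖) where
  cont := continuous_norm
  hom := fun t z ht => by rw [norm_mul, Complex.norm_real, Real.norm_of_nonneg ht]
  pos := fun z hz => norm_pos_iff.2 hz

/-- homeomorphic images of disks (under homeomorphisms of the plane) are disks -/
theorem IsClosedDisk.image {P : Set ℂ} (hP : IsClosedDisk P) (F : ℂ ≃ₜ ℂ) :
    IsClosedDisk (F '' P) :=
  ⟨(F.image P).symm.trans hP.some⟩

theorem isClosedDisk_of_gauge {g : ℂ → ℝ} (hg : IsGauge g) (c : ℂ) {K : Set ℂ}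
    (hK : ∀ z, z ∈ K ↔ g (z - c) ≤ 1) : IsClosedDisk K := by
  have h0 : IsClosedDisk (Metric.closedBall (0 : ℂ) 1) := ⟨Homeomorph.refl _⟩
  have h1 := (h0.image (radialHomeo isGauge_norm hg)).image (Homeomorph.addRight c)
  convert h1 using 1
  ext z
  rw [hK]
  constructor
  · intro hz
    refine ⟨z - c, ⟨radial g (fun z => ‖z‖) (z - c), ?_, ?_⟩, by simp⟩
    · rw [mem_closedBall_zero_iff]
      have := radial_apply_eq hg isGauge_norm (z - c)
      change ‖radial g (fun z => ‖z‖) (z - c)‖ = g (z - c) at this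
      rw [this]; exact hz
    · exact radial_radial hg isGauge_norm (z - c)
  · rintro ⟨w, ⟨u, hu, rfl⟩, rfl⟩
    rw [mem_closedBall_zero_iff] at hu
    show g (radial (fun z => ‖z‖) g u + c - c) ≤ 1
    rw [add_sub_cancel_right, radial_apply_eq isGauge_norm hg]
    exact hu

/-! ### boxes -/

/-- a closed axis-parallel rectangle -/
def Box (x1 x2 y1 y2 : ℝ) : Set ℂ := {z | x1 ≤ z.re ∧ z.re ≤ x2 ∧ y1 ≤ z.im ∧ z.im ≤ y2}

/-- the gauge of a box around the origin -/
noncomputable def bg (a b c d : ℝ) (z : ℂ) : ℝ :=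
  max (max (z.re / b) (-z.re / a)) (max (z.im / d) (-z.im / c))

theorem isGauge_bg {a b c d : ℝ} (ha : 0 < a) (hb : 0 < b) (hc : 0 < c) (hd : 0 < d) :
    IsGauge (bg a b c d) where
  cont := by unfold bg; fun_prop
  hom := fun t z ht => by
    unfold bg
    rw [mul_max_of_nonneg _ _ ht, mul_max_of_nonneg _ _ ht, mul_max_of_nonneg _ _ ht]
    simp only [Complex.re_ofReal_mul, Complex.im_ofReal_mul]
    congr 2 <;> ring_nf
  pos := fun z hz => by
    unfold bg
    by_contra h
    push Not at h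
    simp only [max_le_iff] at h
    obtain ⟨⟨h1, h2⟩, h3, h4⟩ := h
    apply hz
    have e1 : z.re = 0 := by
      have h5 : z.re ≤ 0 := by
        by_contra h6
        push Not at h6
        exact absurd h1 (not_le.2 (div_pos h6 hb))
      have h7 : 0 ≤ z.re := by
        by_contra h6
        push Not at h6
        exact absurd h2 (not_le.2 (div_pos (by linarith) ha))
      linarith
    have e2 : z.im = 0 := by
      have h5 : z.im ≤ 0 := by
        by_contra h6
        push Not at h6
        exact absurd h3 (not_le.2 (div_pos h6 hd))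
      have h7 : 0 ≤ z.im := by
        by_contra h6
        push Not at h6
        exact absurd h4 (not_le.2 (div_pos (by linarith) hc))
      linarith
    exact Complex.ext e1 e2

theorem IsGauge.min {g k : ℂ → ℝ} (hg : IsGauge g) (hk : IsGauge k) :
    IsGauge (fun z => min (g z) (k z)) where
  cont := hg.cont.min hk.cont
  hom := fun t z ht => by rw [hg.hom t z ht, hk.hom t z ht, mul_min_of_nonneg _ _ ht]
  pos := fun z hz => lt_min (hg.pos z hz) (hk.pos z hz)

theorem exists_gauge {ι : Type} (I : Finset ι) (hI : I.Nonempty) (g : ι → ℂ → ℝ)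
    (hg : ∀ i ∈ I, IsGauge (g i)) :
    ∃ k, IsGauge k ∧ ∀ z, k z ≤ 1 ↔ ∃ i ∈ I, g i z ≤ 1 := by
  classical
  induction hI using Finset.Nonempty.cons_induction with
  | singleton a => exact ⟨g a, hg a (by simp), fun z => by simp⟩
  | cons a s ha hs ih =>
    obtain ⟨k, hk, hkz⟩ := ih (fun i hi => hg i (by simp [hi]))
    refine ⟨_, (hg a (by simp)).min hk, fun z => ?_⟩
    rw [min_le_iff, hkz]
    simp

/-- a finite union of boxes with a common interior point is a closed disk -/
theorem isClosedDisk_boxes {ι : Type} (I : Finset ι) (hI : I.Nonempty) (x1 x2 y1 y2 : ι → ℝ)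
    (c : ℂ) (h : ∀ i ∈ I, x1 i < c.re ∧ c.re < x2 i ∧ y1 i < c.im ∧ c.im < y2 i) {K : Set ℂ}
    (hK : ∀ z, z ∈ K ↔ ∃ i ∈ I, z ∈ Box (x1 i) (x2 i) (y1 i) (y2 i)) : IsClosedDisk K := by
  obtain ⟨k, hk, hkz⟩ := exists_gauge I hI
    (fun i => bg (c.re - x1 i) (x2 i - c.re) (c.im - y1 i) (y2 i - c.im))
    (fun i hi => by
      obtain ⟨h1, h2, h3, h4⟩ := h i hi
      exact isGauge_bg (by linarith) (by linarith) (by linarith) (by linarith))
  refine isClosedDisk_of_gauge hk c fun z => ?_
  rw [hK, hkz]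
  refine exists_congr fun i => and_congr_right fun hi => ?_
  obtain ⟨h1, h2, h3, h4⟩ := h i hi
  have e1 : 0 < x2 i - c.re := by linarith
  have e2 : 0 < c.re - x1 i := by linarith
  have e3 : 0 < y2 i - c.im := by linarith
  have e4 : 0 < c.im - y1 i := by linarith
  simp only [Box, bg, max_le_iff, Set.mem_ofPred_eq, Complex.sub_re, Complex.sub_im]
  rw [div_le_one e1, div_le_one e2, div_le_one e3, div_le_one e4]
  constructor
  · rintro ⟨a1, a2, a3, a4⟩
    exact ⟨⟨by linarith, by linarith⟩, by linarith, by linarith⟩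
  · rintro ⟨⟨a1, a2⟩, a3, a4⟩
    exact ⟨by linarith, by linarith, by linarith, by linarith⟩

end Pool.Agent.N118.SU
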