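import Pool.Agent.N118.SU.TilesB

/-!
# Filling a notch
-/

set_option autoImplicit false

open Set Filter Topology MeasureTheory
open scoped ENNReal

namespace Pool.Agent.N118.SU

/-! ### topology of the tiles -/

theorem box_eq (x1 x2 y1 y2 : ℝ) : Box x1 x2 y1 y2 = Icc x1 x2 ×ℂ Icc y1 y2 := by
  ext z
  simp only [Box, Complex.mem_reProdIm, mem_Icc, Set.mem_ofPred_eq]
  tauto

theorem interior_box (x1 x2 y1 y2 : ℝ) : interior (Box x1 x2 y1 y2) = Ioo x1 x2 ×ℂ Ioo y1 y2 := by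
  rw [box_eq, Complex.interior_reProdIm, interior_Icc, interior_Icc]

theorem mem_interior_box {x1 x2 y1 y2 : ℝ} {z : ℂ} : z ∈ interior (Box x1 x2 y1 y2) ↔
    x1 < z.re ∧ z.re < x2 ∧ y1 < z.im ∧ z.im < y2 := by
  rw [interior_box, Complex.mem_reProdIm, mem_Ioo, mem_Ioo]
  tauto

theorem closure_interior_box {x1 x2 y1 y2 : ℝ} (hx : x1 < x2) (hy : y1 < y2) :
    closure (interior (Box x1 x2 y1 y2)) = Box x1 x2 y1 y2 := by
  rw [interior_box, Complex.closure_reProdIm, closure_Ioo hx.ne, closure_Ioo hy.ne, box_eq]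

theorem isClosed_box (x1 x2 y1 y2 : ℝ) : IsClosed (Box x1 x2 y1 y2) := by
  rw [box_eq]; exact isClosed_Icc.reProdIm isClosed_Icc

theorem isCompact_box (x1 x2 y1 y2 : ℝ) : IsCompact (Box x1 x2 y1 y2) := by
  refine Metric.isCompact_of_isClosed_isBounded (isClosed_box _ _ _ _) ?_
  rw [isBounded_iff_forall_norm_le]
  refine ⟨|x1| + |x2| + (|y1| + |y2|), fun z hz => ?_⟩
  obtain ⟨h1, h2, h3, h4⟩ := hz
  refine (Complex.norm_le_abs_re_add_abs_im z).trans (add_le_add ?_ ?_)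
  · rw [abs_le]
    have a1 := neg_abs_le x1
    have a2 := le_abs_self x2
    have a3 := abs_nonneg x1
    have a4 := abs_nonneg x2
    constructor <;> linarith
  · rw [abs_le]
    have a1 := neg_abs_le y1
    have a2 := le_abs_self y2
    have a3 := abs_nonneg y1
    have a4 := abs_nonneg y2
    constructor <;> linarith

/-- a compact set which is the closure of its nonempty interior -/
structure Nice (X : Set ℂ) : Prop where
  comp : IsCompact X
  reg : closure (interior X) = X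
  ne : (interior X).Nonempty

theorem nice_box {x1 x2 y1 y2 : ℝ} (hx : x1 < x2) (hy : y1 < y2) : Nice (Box x1 x2 y1 y2) where
  comp := isCompact_box _ _ _ _
  reg := closure_interior_box hx hy
  ne := ⟨⟨(x1 + x2) / 2, (y1 + y2) / 2⟩, mem_interior_box.2
    ⟨by show x1 < (x1 + x2) / 2; linarith, by show (x1 + x2) / 2 < x2; linarith,
      by show y1 < (y1 + y2) / 2; linarith, by show (y1 + y2) / 2 < y2; linarith⟩⟩

theorem Nice.union {X Y : Set ℂ} (hX : Nice X) (hY : Nice Y) : Nice (X ∪ Y) where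
  comp := hX.comp.union hY.comp
  reg := by
    apply Subset.antisymm
    · exact closure_minimal interior_subset (hX.comp.isClosed.union hY.comp.isClosed)
    · rintro z (hz | hz)
      · rw [← hX.reg] at hz
        exact closure_mono (interior_mono subset_union_left) hz
      · rw [← hY.reg] at hz
        exact closure_mono (interior_mono subset_union_right) hz
  ne := hX.ne.mono (interior_mono subset_union_left)

theorem Nice.image {X : Set ℂ} (hX : Nice X) (F : ℂ ≃ₜ ℂ) : Nice (F '' X) where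
  comp := hX.comp.image F.continuous
  reg := by rw [← F.image_interior, ← F.image_closure, hX.reg]
  ne := by rw [← F.image_interior]; exact hX.ne.image _

theorem nice_tile {M : ℕ} (hM : 1 ≤ M) (K : Kd) : Nice (tile M K) := by
  have hMr : (1 : ℝ) ≤ M := by exact_mod_cast hM
  unfold tile
  apply Nice.image
  cases K with
  | A => exact (nice_box (by linarith) (by norm_num)).union (nice_box (by linarith) (by norm_num))
  | B => exact (nice_box (by linarith) (by norm_num)).union (nice_box (by linarith) (by norm_num))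
  | V => exact nice_box (by norm_num) (by norm_num)

/-! ### isometries of the plane -/

/-- the linear part of an isometry -/
noncomputable def lin (g : ℂ ≃ᵢ ℂ) : ℂ ≃ₗᵢ[ℝ] ℂ := g.toRealAffineIsometryEquiv.linearIsometryEquiv

theorem isom_add (g : ℂ ≃ᵢ ℂ) (z w : ℂ) : g (z + w) = g z + lin g w := by
  have h := g.toRealAffineIsometryEquiv.map_vadd z w
  rw [IsometryEquiv.coeFn_toRealAffineIsometryEquiv] at h
  rw [vadd_eq_add, vadd_eq_add, add_comm w z] at h
  rw [h, add_comm]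
  rfl

/-- translations followed by an isometry -/
noncomputable def tr (g : ℂ ≃ᵢ ℂ) (v : ℂ) : ℂ ≃ᵢ ℂ := (IsometryEquiv.addRight v).trans g

theorem tr_apply (g : ℂ ≃ᵢ ℂ) (v z : ℂ) : tr g v z = g (z + v) := rfl

theorem Nice.isom {X : Set ℂ} (hX : Nice X) (g : ℂ ≃ᵢ ℂ) : Nice (g '' X) :=
  hX.image g.toHomeomorph

theorem HasTip.isom {X : Set ℂ} {v : ℂ} {φ : ℂ ≃ₗᵢ[ℝ] ℂ} {c1 c2 : ℝ} (h : HasTip X v φ c1 c2)
    (g : ℂ ≃ᵢ ℂ) : HasTip (g '' X) (g v) (φ.trans (lin g)) c1 c2 := by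
  obtain ⟨ε, hε, h1⟩ := h
  refine ⟨ε, hε, fun u hu hun => ⟨v + φ u, h1 u hu hun, ?_⟩⟩
  rw [isom_add]; rfl

theorem HasNotch.isom {X : Set ℂ} {v : ℂ} {φ : ℂ ≃ₗᵢ[ℝ] ℂ} {c1 c2 : ℝ} (h : HasNotch X v φ c1 c2)
    (g : ℂ ≃ᵢ ℂ) : HasNotch (g '' X) (g v) (φ.trans (lin g)) c1 c2 := by
  obtain ⟨ε, hε, h1, h2⟩ := h
  refine ⟨ε, hε, fun u hun hu => ⟨v + φ u, h1 u hun hu, ?_⟩, fun s hs hs' => ?_⟩
  · rw [isom_add]; rfl
  · rintro ⟨w, hw, hw'⟩
    apply h2 s hs hs'
    have h3 : g w = g (v + φ s) := by rw [hw', isom_add]; rfl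
    rw [← g.injective h3]; exact hw

/-! ### families of tiles -/

/-- the family `F` consists of isometric images of finitely many nice sets, with disjoint interiors,
and covers the plane -/
structure Tiling {κ : Type} (P : κ → Set ℂ) (F : Set (Set ℂ)) : Prop where
  tile : ∀ T ∈ F, ∃ (K : κ) (g : ℂ ≃ᵢ ℂ), T = g '' P K
  disj : ∀ T ∈ F, ∀ T' ∈ F, T ≠ T' → Disjoint (interior T) (interior T')
  cover : ∀ z : ℂ, ∃ T ∈ F, z ∈ T

variable {κ : Type} [Fintype κ] {P : κ → Set ℂ} {F : Set (Set ℂ)}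

/-- uniform bounds for the tiles -/
theorem exists_bounds [Nonempty κ] (hP : ∀ K, Nice (P K)) : ∃ ρ D : ℝ, 0 < ρ ∧
    ∀ K, ∃ c, Metric.ball c ρ ⊆ P K ∧ P K ⊆ Metric.closedBall c D := by
  have h1 : ∀ K, ∃ c : ℂ, ∃ ρ D : ℝ, 0 < ρ ∧ Metric.ball c ρ ⊆ P K ∧ P K ⊆ Metric.closedBall c D := by
    intro K
    obtain ⟨c, hc⟩ := (hP K).ne
    obtain ⟨ρ, hρ, hb⟩ := Metric.isOpen_iff.1 isOpen_interior c hc
    obtain ⟨D, hD⟩ := (hP K).comp.isBounded.subset_closedBall c
    exact ⟨c, ρ, D, hρ, hb.trans interior_subset, hD⟩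
  choose c ρ D hρ hb hD using h1
  refine ⟨Finset.univ.inf' Finset.univ_nonempty ρ, Finset.univ.sup' Finset.univ_nonempty D, ?_, ?_⟩
  · rw [Finset.lt_inf'_iff]
    exact fun K _ => hρ K
  · intro K
    refine ⟨c K, (Metric.ball_subset_ball ?_).trans (hb K), (hD K).trans
      (Metric.closedBall_subset_closedBall ?_)⟩
    · exact Finset.inf'_le _ (Finset.mem_univ K)
    · exact Finset.le_sup' _ (Finset.mem_univ K)

/-- only finitely many tiles meet a ball -/
theorem Tiling.locallyFinite [Nonempty κ] (hF : Tiling P F) (hP : ∀ K, Nice (P K)) (v : ℂ) :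
    {T | T ∈ F ∧ (T ∩ Metric.closedBall v 1).Nonempty}.Finite := by
  obtain ⟨ρ, D, hρ, hb⟩ := exists_bounds hP
  set G := {T | T ∈ F ∧ (T ∩ Metric.closedBall v 1).Nonempty} with hG
  have key : ∀ T ∈ G, ∃ c : ℂ, Metric.ball c ρ ⊆ interior T ∧
      Metric.ball c ρ ⊆ Metric.closedBall v (1 + D + ρ) := by
    rintro T ⟨hT, z, hzT, hz⟩
    obtain ⟨K, g, rfl⟩ := hF.tile T hT
    obtain ⟨c, hc1, hc2⟩ := hb K
    refine ⟨g c, ?_, ?_⟩
    · apply interior_maximal _ Metric.isOpen_ball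
      rw [← g.image_ball]
      exact image_mono hc1
    · intro w hw
      obtain ⟨u, hu, rfl⟩ := hzT
      have h1 : dist (g u) (g c) ≤ D := by
        rw [g.dist_eq]; exact hc2 hu
      have h2 : dist (g u) v ≤ 1 := hz
      rw [Metric.mem_ball] at hw
      rw [Metric.mem_closedBall]
      calc dist w v ≤ dist w (g c) + dist (g c) v := dist_triangle _ _ _
        _ ≤ ρ + (dist (g c) (g u) + dist (g u) v) := add_le_add hw.le (dist_triangle _ _ _)
        _ ≤ ρ + (D + 1) := by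
            rw [dist_comm (g c)]; linarith
        _ = 1 + D + ρ := by ring
  choose! c hc1 hc2 using key
  have hfin := Measure.finite_const_le_meas_of_disjoint_iUnion (ι := G) (volume : Measure ℂ)
    (ε := volume (Metric.ball (0 : ℂ) ρ)) (Metric.measure_ball_pos _ _ hρ)
    (As := fun T => Metric.ball (c T) ρ) (fun T => measurableSet_ball) (by
      intro T T' hne
      have hne' : (T : Set ℂ) ≠ T' := fun h => hne (Subtype.ext h)
      exact (hF.disj T T.2.1 T' T'.2.1 hne').mono (hc1 T T.2) (hc1 T' T'.2))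
    (by
      apply ne_of_lt
      refine lt_of_le_of_lt (measure_mono (iUnion_subset fun T => hc2 T T.2)) ?_
      exact (isCompact_closedBall _ _).measure_lt_top)
  have huniv : {T : G | volume (Metric.ball (0 : ℂ) ρ) ≤ volume (Metric.ball (c T) ρ)} = univ := by
    ext T
    simp only [Set.mem_ofPred_eq, mem_univ, iff_true]
    rw [Measure.addHaar_ball_center volume (c T) ρ]
  rw [huniv] at hfin
  have := Set.finite_univ_iff.1 hfin
  exact Set.toFinite G

/-- a notch is filled by a tile lying inside the cusp -/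
theorem Tiling.fill [Nonempty κ] (hF : Tiling P F) (hP : ∀ K, Nice (P K)) {T : Set ℂ} (hT : T ∈ F)
    {v : ℂ} {φ : ℂ ≃ₗᵢ[ℝ] ℂ} {c1 c2 : ℝ} (hn : HasNotch T v φ c1 c2) :
    ∃ Q ∈ F, v ∈ Q ∧ ∃ ε > 0, ∀ u, ‖u‖ < ε → v + φ u ∈ Q → u ∈ cst c1 c2 := by
  obtain ⟨ε0, hε0, hn1, hn2⟩ := hn
  set ε := min ε0 1 with hε
  have hε1 : 0 < ε := lt_min hε0 one_pos
  have hε2 : ε ≤ ε0 := min_le_left _ _
  have hε3 : ε ≤ 1 := min_le_right _ _
  let s : ℕ → ℝ := fun k => ε / (k + 2)
  have hs0 : ∀ k, 0 < s k := fun k => by positivity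
  have hs1 : ∀ k, s k < ε := fun k => by
    show ε / ((k : ℝ) + 2) < ε
    rw [div_lt_iff₀ (by positivity)]
    have : (0 : ℝ) ≤ k := Nat.cast_nonneg k
    nlinarith
  let p : ℕ → ℂ := fun k => v + φ (s k)
  have hpd : ∀ k, dist (p k) v = s k := by
    intro k
    show dist (v + φ (s k)) v = s k
    rw [dist_eq_norm, add_sub_cancel_left, φ.norm_map, Complex.norm_real,
      Real.norm_of_nonneg (hs0 k).le]
  have hT' : ∀ k, ∃ Q ∈ F, p k ∈ Q := fun k => hF.cover (p k)
  choose Q hQF hpQ using hT'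
  have hQG : ∀ k, Q k ∈ {T | T ∈ F ∧ (T ∩ Metric.closedBall v 1).Nonempty} := fun k =>
    ⟨hQF k, p k, hpQ k, by
      rw [Metric.mem_closedBall, hpd]; linarith [hs1 k]⟩
  have hfin := hF.locallyFinite hP v
  -- pigeonhole
  obtain ⟨Q0, hQ0, hinf⟩ : ∃ Q0 ∈ {T | T ∈ F ∧ (T ∩ Metric.closedBall v 1).Nonempty},
      {k | Q k = Q0}.Infinite := by
    by_contra hcon
    push Not at hcon
    have h1 : (⋃ Q0 ∈ {T | T ∈ F ∧ (T ∩ Metric.closedBall v 1).Nonempty},
        {k | Q k = Q0}).Finite := hfin.biUnion hcon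
    have h2 : (⋃ Q0 ∈ {T | T ∈ F ∧ (T ∩ Metric.closedBall v 1).Nonempty},
        {k | Q k = Q0}) = univ := by
      ext k
      simp only [mem_iUnion, mem_univ, iff_true]
      exact ⟨Q k, hQG k, rfl⟩
    rw [h2] at h1
    exact Set.infinite_univ h1
  have hQ0F : Q0 ∈ F := hQ0.1
  obtain ⟨K, g, hQ0g⟩ := hF.tile Q0 hQ0F
  have hnice : Nice Q0 := by rw [hQ0g]; exact (hP K).isom g
  have hvQ : v ∈ Q0 := by
    rw [← hnice.comp.isClosed.closure_eq]
    rw [Metric.mem_closure_iff]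
    intro r hr
    obtain ⟨k0, hk0⟩ := exists_nat_gt (ε / r)
    obtain ⟨k, hk, hkk⟩ := hinf.exists_gt k0
    refine ⟨p k, ?_, ?_⟩
    · have : Q k = Q0 := hk
      rw [← this]; exact hpQ k
    · rw [dist_comm, hpd]
      show ε / ((k : ℝ) + 2) < r
      rw [div_lt_iff₀ (by positivity)]
      rw [div_lt_iff₀ hr] at hk0
      have h3 : (k0 : ℝ) < k := by exact_mod_cast hkk
      nlinarith
  have hne : Q0 ≠ T := by
    rintro rfl
    obtain ⟨k, hk⟩ := hinf.nonempty
    have : Q k = Q0 := hk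
    apply hn2 (s k) (hs0 k) (lt_of_lt_of_le (hs1 k) hε2)
    rw [← this]; exact hpQ k
  refine ⟨Q0, hQ0F, hvQ, ε, hε1, fun u hu huQ => ?_⟩
  by_contra hcon
  -- a neighbourhood of the point inside `T`
  have hdisj := hF.disj Q0 hQ0F T hT hne
  have hclosed : IsClosed (cst c1 c2) := by
    have h1 : cst c1 c2 = {u : ℂ | 0 ≤ u.re} ∩ ({u : ℂ | -(c1 * u.re ^ 2) ≤ u.im} ∩
        {u : ℂ | u.im ≤ c2 * u.re ^ 2}) := by
      ext u
      simp only [cst, Set.mem_ofPred_eq, mem_inter_iff]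
    rw [h1]
    refine (isClosed_le continuous_const Complex.continuous_re).inter
      ((isClosed_le (by fun_prop) (by fun_prop)).inter (isClosed_le (by fun_prop) (by fun_prop)))
  let U : Set ℂ := (fun u => v + φ u) '' (Metric.ball 0 ε0 ∩ (cst c1 c2)ᶜ)
  have hUopen : IsOpen U := by
    have h1 : IsOpenMap (fun u => v + φ u) := by
      have := (φ.toHomeomorph.trans (Homeomorph.addLeft v)).isOpenMap
      exact this
    exact h1 _ (Metric.isOpen_ball.inter hclosed.isOpen_compl)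
  have hUT : U ⊆ interior T := by
    apply interior_maximal _ hUopen
    rintro _ ⟨u', ⟨hu1, hu2⟩, rfl⟩
    exact hn1 u' (by simpa using hu1) hu2
  have hmem : v + φ u ∈ U := ⟨u, ⟨by
    rw [mem_ball_zero_iff]; exact lt_of_lt_of_le hu hε2, hcon⟩, rfl⟩
  rw [← hnice.reg] at huQ
  obtain ⟨w, hwU, hwQ⟩ := mem_closure_iff.1 huQ U hUopen hmem
  exact Set.disjoint_left.1 hdisj hwQ (hUT hwU)

end Pool.Agent.N118.SU
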