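import Pool.Agent.N118.SU.Pyr

/-!
# Every single tile can be surrounded many times
-/

set_option autoImplicit false

open Set Filter Topology

namespace Pool.Agent.N118.SU

/-! ### the prototiles are pairwise non-congruent closed disks -/

theorem isClosedDisk_mdl {M : ℕ} (hM : 1 ≤ M) (K : Kd) : IsClosedDisk (mdl M K) := by
  have hMr : (1 : ℝ) ≤ M := by exact_mod_cast hM
  cases K with
  | A =>
    refine isClosedDisk_boxes (Finset.univ : Finset Bool) ⟨true, Finset.mem_univ _⟩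
      (fun b => if b then 0 else M) (fun b => if b then 2 * M else M + 1) (fun _ => 0)
      (fun b => if b then 1 / 4 else 3 / 4) ⟨M + 1 / 2, 1 / 8⟩ (fun b _ => ?_) (fun z => ?_)
    · cases b
      · simp only [Bool.false_eq_true, if_false]
        exact ⟨by linarith, by linarith, by norm_num, by norm_num⟩
      · simp only [if_true]
        exact ⟨by linarith, by linarith, by norm_num, by norm_num⟩
    · simp [mdl, or_comm]
  | B =>
    refine isClosedDisk_boxes (Finset.univ : Finset Bool) ⟨true, Finset.mem_univ _⟩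
      (fun b => if b then M else 2 * M) (fun b => if b then 3 * M + 1 else 2 * M + 1)
      (fun b => if b then 3 / 4 else 1 / 4)
      (fun _ => 1) ⟨2 * M + 1 / 2, 7 / 8⟩ (fun b _ => ?_) (fun z => ?_)
    · cases b
      · simp only [Bool.false_eq_true, if_false]
        exact ⟨by linarith, by linarith, by norm_num, by norm_num⟩
      · simp only [if_true]
        exact ⟨by linarith, by linarith, by norm_num, by norm_num⟩
    · simp [mdl, or_comm]
  | V =>
    refine isClosedDisk_boxes (Finset.univ : Finset Unit) ⟨(), Finset.mem_univ _⟩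
      (fun _ => 0) (fun _ => 1) (fun _ => 1 / 4) (fun _ => 3 / 4) ⟨1 / 2, 1 / 2⟩
      (fun b _ => ?_) (fun z => ?_)
    · exact ⟨by norm_num, by norm_num, by norm_num, by norm_num⟩
    · simp [mdl]

theorem isClosedDisk_tile {M : ℕ} (hM : 1 ≤ M) (K : Kd) : IsClosedDisk (tile M K) :=
  (isClosedDisk_mdl hM K).image Phi

theorem LL_le' (y : ℝ) : LL y ≤ 1 / 16 := by
  unfold LL
  have h1 := spk_le 1 8 (Int.fract y - 1 / 16)
  have h2 := spk_le 2 7 (Int.fract y - 15 / 16)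
  linarith

/-- points in two horizontal extremes -/
theorem far_A {M : ℕ} : (⟨0, 1 / 8⟩ : ℂ) ∈ tile M .A ∧ (⟨2 * M, 1 / 8⟩ : ℂ) ∈ tile M .A := by
  have h0 : (0 : ℝ) ≤ M := by positivity
  have h1 : ∀ x : ℝ, XX ⟨x, 1 / 8⟩ = x := by
    intro x
    unfold XX
    show x + LL (1 / 8) = x
    rw [LL_mid (by norm_num) (by norm_num), add_zero]
  constructor
  · rw [mem_A, h1]
    left
    have := muA_nonneg 0
    refine ⟨le_rfl, by linarith, ?_, ?_⟩
    · show (0 : ℝ) ≤ 1 / 8; norm_num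
    · show (1 / 8 : ℝ) ≤ 1 / 4 + muA 0; linarith
  · rw [mem_A, h1]
    left
    have := muA_nonneg (2 * M)
    refine ⟨by linarith, le_rfl, ?_, ?_⟩
    · show (0 : ℝ) ≤ 1 / 8; norm_num
    · show (1 / 8 : ℝ) ≤ 1 / 4 + muA (2 * M); linarith

theorem far_B {M : ℕ} : (⟨M, 7 / 8⟩ : ℂ) ∈ tile M .B ∧ (⟨3 * M + 1, 7 / 8⟩ : ℂ) ∈ tile M .B := by
  have h0 : (0 : ℝ) ≤ M := by positivity
  have h1 : ∀ x : ℝ, XX ⟨x, 7 / 8⟩ = x := by
    intro x
    unfold XX
    show x + LL (7 / 8) = x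
    rw [LL_mid (by norm_num) (by norm_num), add_zero]
  constructor
  · rw [mem_B, h1]
    left
    have := muB_nonneg M
    refine ⟨le_rfl, by linarith, ?_, ?_⟩
    · show (3 / 4 : ℝ) - muB M ≤ 7 / 8; linarith
    · show (7 / 8 : ℝ) ≤ 1; norm_num
  · rw [mem_B, h1]
    left
    have := muB_nonneg (3 * M + 1)
    refine ⟨by linarith, le_rfl, ?_, ?_⟩
    · show (3 / 4 : ℝ) - muB (3 * M + 1) ≤ 7 / 8; linarith
    · show (7 / 8 : ℝ) ≤ 1; norm_num

theorem ext_A {M : ℕ} (hM : 1 ≤ M) {z : ℂ} (hz : z ∈ tile M .A) :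
    -(1 / 16) ≤ z.re ∧ z.re ≤ 2 * M ∧ 0 ≤ z.im ∧ z.im ≤ 3 / 4 := by
  have hMr : (1 : ℝ) ≤ M := by exact_mod_cast hM
  have h1 := LL_le' z.im
  have h2 := LL_nonneg z.im
  have h3 := A_im_le hz
  rw [mem_A] at hz
  unfold XX at hz
  rcases hz with h | h
  · exact ⟨by linarith [h.1], by linarith [h.2.1], h.2.2.1, h3⟩
  · exact ⟨by linarith [h.1], by linarith [h.2.1], h.2.2.1, h3⟩

theorem ext_V {M : ℕ} {z : ℂ} (hz : z ∈ tile M .V) :
    -(1 / 16) ≤ z.re ∧ z.re ≤ 1 ∧ 0 ≤ z.im ∧ z.im ≤ 3 / 4 := by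
  have h1 := LL_le' z.im
  have h2 := LL_nonneg z.im
  rw [mem_V] at hz
  have h3 := muA_nonneg (XX z)
  have h4 := muB_nonneg (XX z)
  unfold XX at *
  exact ⟨by linarith [hz.1], by linarith [hz.2.1], by linarith [hz.2.2.1], by linarith [hz.2.2.2]⟩

theorem dist_lt {x1 x2 y1 y2 : ℝ} {z w : ℂ} {D : ℝ} (hD : 0 ≤ D)
    (hz : x1 ≤ z.re ∧ z.re ≤ x2 ∧ y1 ≤ z.im ∧ z.im ≤ y2)
    (hw : x1 ≤ w.re ∧ w.re ≤ x2 ∧ y1 ≤ w.im ∧ w.im ≤ y2)
    (h : (x2 - x1) ^ 2 + (y2 - y1) ^ 2 < D ^ 2) : dist z w < D := by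
  obtain ⟨a1, a2, a3, a4⟩ := hz
  obtain ⟨b1, b2, b3, b4⟩ := hw
  rw [Complex.dist_eq, ← abs_of_nonneg (norm_nonneg (z - w)), ← abs_of_nonneg hD]
  rw [← sq_lt_sq, Complex.sq_norm, Complex.normSq_apply]
  simp only [Complex.sub_re, Complex.sub_im]
  have h1 : (z.re - w.re) ^ 2 ≤ (x2 - x1) ^ 2 := sq_le_sq' (by linarith) (by linarith)
  have h2 : (z.im - w.im) ^ 2 ≤ (y2 - y1) ^ 2 := sq_le_sq' (by linarith) (by linarith)
  rw [← sq, ← sq]
  linarith

theorem dist_row (x x' y : ℝ) (h : x ≤ x') : dist (⟨x, y⟩ : ℂ) ⟨x', y⟩ = x' - x := by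
  rw [Complex.dist_of_im_eq (show (⟨x, y⟩ : ℂ).im = (⟨x', y⟩ : ℂ).im from rfl), Real.dist_eq]
  show |x - x'| = x' - x
  rw [abs_of_nonpos (by linarith)]; ring

/-- no tile of kind `K'` is congruent to a tile of kind `K ≠ K'` -/
theorem noncong {M : ℕ} (hM : 1 ≤ M) {K K' : Kd} (hne : K ≠ K') (g : ℂ ≃ᵢ ℂ) :
    g '' tile M K ≠ tile M K' := by
  have hMr : (1 : ℝ) ≤ M := by exact_mod_cast hM
  -- a set with two points at distance `D` is not the image of a set of smaller diameter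
  have key : ∀ (X Y : Set ℂ) (D : ℝ) (p q : ℂ), p ∈ Y → q ∈ Y → D ≤ dist p q →
      (∀ z ∈ X, ∀ w ∈ X, dist z w < D) → ∀ g : ℂ ≃ᵢ ℂ, g '' X ≠ Y := by
    intro X Y D p q hp hq hpq hX g hg
    rw [← hg] at hp hq
    obtain ⟨a, ha, rfl⟩ := hp
    obtain ⟨b, hb, rfl⟩ := hq
    rw [g.isometry.dist_eq] at hpq
    exact absurd (hX a ha b hb) (not_lt.2 hpq)
  have hsymm : ∀ (X Y : Set ℂ), (∀ g : ℂ ≃ᵢ ℂ, g '' X ≠ Y) → ∀ g : ℂ ≃ᵢ ℂ, g '' Y ≠ X := by
    intro X Y h g hg
    apply h g.symm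
    rw [← hg, Set.image_image]
    simp
  have VA : ∀ g : ℂ ≃ᵢ ℂ, g '' tile M .V ≠ tile M .A := by
    refine key _ _ (2 * M) _ _ far_A.1 far_A.2 (by rw [dist_row _ _ _ (by linarith)]; linarith) ?_
    intro z hz w hw
    refine dist_lt (by linarith) (ext_V hz) (ext_V hw) ?_
    nlinarith
  have VB : ∀ g : ℂ ≃ᵢ ℂ, g '' tile M .V ≠ tile M .B := by
    refine key _ _ (2 * M + 1) _ _ far_B.1 far_B.2
      (by rw [dist_row _ _ _ (by linarith)]; linarith) ?_
    intro z hz w hw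
    refine dist_lt (by linarith) (ext_V hz) (ext_V hw) ?_
    nlinarith
  have AB : ∀ g : ℂ ≃ᵢ ℂ, g '' tile M .A ≠ tile M .B := by
    refine key _ _ (2 * M + 1) _ _ far_B.1 far_B.2
      (by rw [dist_row _ _ _ (by linarith)]; linarith) ?_
    intro z hz w hw
    refine dist_lt (by linarith) (ext_A hM hz) (ext_A hM hw) ?_
    nlinarith
  cases K <;> cases K' <;> first
    | exact absurd rfl hne
    | exact VA g
    | exact VB g
    | exact AB g
    | exact hsymm _ _ VA g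
    | exact hsymm _ _ VB g
    | exact hsymm _ _ AB g

theorem tile_injective {M : ℕ} (hM : 1 ≤ M) : Function.Injective (tile M) := by
  intro K K' h
  by_contra hne
  apply noncong hM hne (IsometryEquiv.refl ℂ)
  rw [← h]
  show (fun z => z) '' tile M K = tile M K
  simp

theorem ncard_SET {M : ℕ} (hM : 1 ≤ M) : (SET M).ncard = 3 := by
  unfold SET
  rw [← Set.image_univ, Set.ncard_image_of_injective _ (tile_injective hM), Set.ncard_univ,
    Nat.card_eq_fintype_card]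
  rfl

/-! ### the patches -/

/-- the tile at a position -/
noncomputable def pt (g : ℂ ≃ᵢ ℂ) (M : ℕ) (p : Kd × ℤ × ℤ) : Set ℂ :=
  (tr g (vec M p.1 p.2.1 p.2.2)) '' tile M p.1

theorem pt_eq (g : ℂ ≃ᵢ ℂ) (M : ℕ) (p : Kd × ℤ × ℤ) :
    pt g M p = g '' (Phi '' mt M p.1 p.2.1 p.2.2) := by
  unfold pt tile mt
  rw [Set.image_image, Set.image_image, Set.image_image]
  refine Set.image_congr fun z _ => ?_
  rw [tr_apply]
  congr 1
  exact (Phi_add z _ _).symm

/-- the positions of the patch -/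
def pos (M N : ℕ) : Set (Kd × ℤ × ℤ) := {p | inP M N p.1 p.2.1 p.2.2}

/-- the patch -/
noncomputable def patch (g : ℂ ≃ᵢ ℂ) (M N : ℕ) : Set (Set ℂ) := pt g M '' pos M N

theorem finite_pos (M N : ℕ) : (pos M N).Finite := by
  refine Set.Finite.subset ((Set.finite_Icc (-(N : ℤ)) N).biUnion fun r _ =>
    (Set.finite_univ (α := Kd)).prod (((Set.finite_Icc (-(N : ℤ)) N).union
      (Set.finite_Icc (rl M N r) (ru M N r))).prod (Set.finite_singleton r))) ?_
  rintro ⟨K, j, r⟩ h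
  have h' : inP M N K j r := h
  rw [mem_iUnion₂]
  cases K with
  | A =>
    obtain ⟨h1, h2⟩ := h'
    refine ⟨r, abs_le.1 h1, mem_univ _, Or.inl ?_, rfl⟩
    have := abs_nonneg r
    unfold ra at h2
    have h3 : |j| ≤ N := by omega
    exact abs_le.1 h3
  | B =>
    obtain ⟨h1, h2, h3⟩ := h'
    have := rb_le h1
    have h4 : -(N : ℤ) ≤ j := by omega
    have h5 : j ≤ (N : ℤ) := by omega
    exact ⟨r, abs_le.1 h1, mem_univ _, Or.inl ⟨h4, h5⟩, rfl⟩
  | V =>
    obtain ⟨h1, h2, h3, h4⟩ := h'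
    exact ⟨r, abs_le.1 h1, mem_univ _, Or.inr ⟨h3, h4.le⟩, rfl⟩

theorem sUnion_patch (g : ℂ ≃ᵢ ℂ) {M N : ℕ} (hM : 1 ≤ M) (hN : N < M) :
    ⋃₀ patch g M N = g '' (Phi '' shape M N) := by
  ext z
  constructor
  · rintro ⟨T, ⟨p, hp, rfl⟩, hz⟩
    rw [pt_eq] at hz
    exact image_mono (image_mono (mt_subset_shape hM hN hp)) hz
  · rintro ⟨w, ⟨u, hu, rfl⟩, rfl⟩
    obtain ⟨K, j, r, h1, h2⟩ := shape_cover hM hN hu
    refine ⟨pt g M (K, j, r), ⟨(K, j, r), h1, rfl⟩, ?_⟩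
    rw [pt_eq]
    exact mem_image_of_mem _ (mem_image_of_mem _ h2)

theorem isom_interior (g : ℂ ≃ᵢ ℂ) (X : Set ℂ) :
    interior (g '' (Phi '' X)) = g '' (Phi '' interior X) := by
  have h1 := g.toHomeomorph.image_interior (Phi '' X)
  have h2 := Phi.image_interior X
  rw [h2]
  exact h1.symm

theorem isPatch_patch (g : ℂ ≃ᵢ ℂ) {M N : ℕ} (hM : 1 ≤ M) (hN : N < M) :
    IsPatch (SET M) (patch g M N) where
  finite := (finite_pos M N).image _
  tile := by
    rintro T ⟨p, hp, rfl⟩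
    exact ⟨tile M p.1, mem_range_self _, _, rfl⟩
  disj := by
    rintro T ⟨p, hp, rfl⟩ T' ⟨p', hp', rfl⟩ hne
    rw [pt_eq, pt_eq, isom_interior, isom_interior,
      Set.disjoint_image_iff g.injective, Set.disjoint_image_iff Phi.injective]
    refine mt_disjoint hM (inP_inU hN hp) (inP_inU hN hp') ?_
    rintro ⟨h1, h2, h3⟩
    apply hne
    obtain ⟨K, j, r⟩ := p
    obtain ⟨K', j', r'⟩ := p'
    simp only at h1 h2 h3
    rw [h1, h2, h3]
  disk := by
    rw [sUnion_patch g hM hN]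
    exact ((isClosedDisk_shape hM).image Phi).image g.toHomeomorph

theorem inP_mono {M N : ℕ} {K : Kd} {j r : ℤ} (h : inP M N K j r) : inP M (N + 1) K j r := by
  have hM : (0 : ℤ) ≤ M := by positivity
  cases K with
  | A =>
    obtain ⟨h1, h2⟩ := h
    refine ⟨by push_cast; omega, ?_⟩
    unfold ra at *
    push_cast; omega
  | B =>
    obtain ⟨h1, h2, h3⟩ := h
    refine ⟨by push_cast; omega, ?_⟩
    unfold rb at *
    push_cast
    split_ifs at * <;> constructor <;> omega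
  | V =>
    obtain ⟨h1, h2, h3, h4⟩ := h
    refine ⟨by push_cast; omega, h2, ?_⟩
    unfold rl ru at *
    push_cast
    split_ifs at * <;> constructor <;> nlinarith

theorem patch_mono (g : ℂ ≃ᵢ ℂ) (M N : ℕ) : patch g M N ⊆ patch g M (N + 1) :=
  image_mono fun _ hp => inP_mono hp

theorem surrounds_patch (g : ℂ ≃ᵢ ℂ) {M N : ℕ} (hN : N + 1 < M) :
    Surrounds (patch g M (N + 1)) (patch g M N) := by
  refine ⟨patch_mono g M N, ?_⟩
  rw [sUnion_patch g (by omega) (by omega), sUnion_patch g (by omega) hN, isom_interior]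
  exact image_mono (image_mono (shape_subset_interior (by omega)))

theorem nonPillar_zero {M : ℕ} (hM : 1 ≤ M) : NonPillar M 0 := by
  have hM' : (1 : ℤ) ≤ M := by exact_mod_cast hM
  constructor
  · intro j h
    have h1 : (M : ℤ) * (2 * j + 1) = 0 := by linarith
    rcases mul_eq_zero.1 h1 with h2 | h2 <;> omega
  · intro j _ h
    rcases le_or_gt 0 j with h1 | h1
    · nlinarith
    · nlinarith

theorem inP_zero {M N : ℕ} (hM : 1 ≤ M) (hN : 1 ≤ N) (K : Kd) : inP M N K 0 0 := by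
  have hM' : (1 : ℤ) ≤ M := by exact_mod_cast hM
  have hN' : (1 : ℤ) ≤ N := by exact_mod_cast hN
  cases K with
  | A =>
    refine ⟨by simp, ?_⟩
    simp [ra]
  | B =>
    refine ⟨by simp, ?_⟩
    simp [rb]; omega
  | V =>
    refine ⟨by simp, nonPillar_zero hM, ?_, ?_⟩
    · simp only [rl, le_refl, if_true]
      nlinarith
    · simp only [ru, le_refl, if_true]
      nlinarith

theorem pt_zero (g : ℂ ≃ᵢ ℂ) (M : ℕ) (K : Kd) : pt g M (K, 0, 0) = g '' tile M K := by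
  unfold pt
  have h : vec M K 0 0 = 0 := by
    cases K <;> simp [vec, off]
  simp only [h]
  refine Set.image_congr fun z _ => ?_
  rw [tr_apply, add_zero]

theorem isPatch_single {M : ℕ} (hM : 1 ≤ M) (g : ℂ ≃ᵢ ℂ) (K : Kd) :
    IsPatch (SET M) {g '' tile M K} where
  finite := Set.finite_singleton _
  tile := by
    rintro T rfl
    exact ⟨tile M K, mem_range_self _, g, rfl⟩
  disj := by
    rintro T rfl T' rfl h
    exact absurd rfl h
  disk := by
    rw [sUnion_singleton]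
    exact (isClosedDisk_tile hM K).image g.toHomeomorph

theorem canBeSurrounded {M k : ℕ} (hk : k + 1 < M) (g : ℂ ≃ᵢ ℂ) (K : Kd) :
    CanBeSurrounded (SET M) {g '' tile M K} k := by
  have hM : 1 ≤ M := by omega
  refine ⟨fun i => if i = 0 then {g '' tile M K} else patch g M (i + 1), if_pos rfl, ?_, ?_⟩
  · intro i hi
    by_cases h0 : i = 0
    · simp only [h0, if_true]
      exact isPatch_single hM g K
    · simp only [h0, if_false]
      exact isPatch_patch g hM (by omega)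
  · intro i hi
    by_cases h0 : i = 0
    · subst h0
      simp only [zero_add, one_ne_zero, if_false, if_true]
      have h1 : g '' tile M K ∈ patch g M 1 := ⟨(K, 0, 0), inP_zero hM le_rfl K, pt_zero g M K⟩
      have h2 := surrounds_patch g (M := M) (N := 1) (by omega)
      refine ⟨?_, ?_⟩
      · rw [singleton_subset_iff]
        exact h2.1 h1
      · rw [sUnion_singleton]
        exact (subset_sUnion_of_mem h1).trans h2.2
    · simp only [h0, if_false, Nat.add_eq_zero_iff, one_ne_zero, and_false]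
      exact surrounds_patch g (by omega)

theorem all_single {M k : ℕ} (hk : k + 1 < M) {A : Set (Set ℂ)} (hA : IsPatch (SET M) A)
    (h1 : A.ncard = 1) : CanBeSurrounded (SET M) A k := by
  obtain ⟨T, rfl⟩ := Set.ncard_eq_one.1 h1
  obtain ⟨P, ⟨K, rfl⟩, g, rfl⟩ := hA.tile T rfl
  exact canBeSurrounded hk g K

theorem main (k : ℕ) : ∃ S : Set (Set ℂ), S.ncard = 3 ∧ (∀ P ∈ S, IsClosedDisk P) ∧
    (∀ P ∈ S, ∀ Q ∈ S, P ≠ Q → ∀ g : ℂ ≃ᵢ ℂ, g '' P ≠ Q) ∧ ¬ AdmitsTiling S ∧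
    (∃ A, IsPatch S A ∧ A.ncard = 1) ∧
    ∀ A, IsPatch S A → A.ncard = 1 → CanBeSurrounded S A k := by
  have hM : 1 ≤ k + 2 := by omega
  refine ⟨SET (k + 2), ncard_SET hM, ?_, ?_, not_admitsTiling hM, ?_, ?_⟩
  · rintro P ⟨K, rfl⟩
    exact isClosedDisk_tile hM K
  · rintro P ⟨K, rfl⟩ Q ⟨K', rfl⟩ hne g
    exact noncong hM (fun h => hne (by rw [h])) g
  · exact ⟨{(IsometryEquiv.refl ℂ) '' tile (k + 2) .A}, isPatch_single hM _ _,
      Set.ncard_singleton _⟩
  · intro A hA h1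
    exact all_single (by omega) hA h1

theorem no_function : ¬ ∃ f : ℕ → ℕ → ℕ, SurroundFunction f := by
  rintro ⟨f, hf⟩
  obtain ⟨S, h3, hd, -, hnt, hex, hall⟩ := main (f 3 1)
  exact hnt ((hf 3 1 (by norm_num) (by norm_num)).2 S h3 hd hex hall)

end Pool.Agent.N118.SU
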