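import Pool.Agent.N118.SU.Force

/-!
# The prototiles admit no tiling of the plane
-/

set_option autoImplicit false

open Set Filter Topology

namespace Pool.Agent.N118.SU

instance : Fintype Kd := ⟨{.A, .B, .V}, fun K => by cases K <;> simp⟩
instance : Nonempty Kd := ⟨.A⟩

variable {M : ℕ} {F : Set (Set ℂ)}

/-- a notch forces its tip -/
theorem match_tip (hM : 1 ≤ M) (hF : Tiling (tile M) F) {K : Kd} {g : ℂ ≃ᵢ ℂ}
    (hT : g '' tile M K ∈ F) {v0 : ℂ} {τ : Ty}
    (hn : HasNotch (tile M K) v0 (fr τ) τ.c1 τ.c2) :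
    ∃ K' u0, tipPos M K' τ u0 ∧ (tr g (v0 - u0)) '' tile M K' ∈ F := by
  obtain ⟨Q, hQ, hvQ, ε, hε, hcus⟩ := hF.fill (nice_tile hM) hT (hn.isom g)
  obtain ⟨K', g', rfl⟩ := hF.tile Q hQ
  obtain ⟨u0, hu0, hu0v⟩ := hvQ
  set φ := (fr τ).trans (lin g) with hφ
  let χ : ℂ ≃ₗᵢ[ℝ] ℂ := (lin g').trans φ.symm
  have hχ : ∀ w, φ (χ w) = lin g' w := fun w => φ.apply_symm_apply _
  have key : ∀ w, u0 + w ∈ tile M K' → ‖w‖ < ε → χ w ∈ cst τ.c1 τ.c2 := by
    intro w hw hwn
    apply hcus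
    · rw [χ.norm_map]; exact hwn
    · refine ⟨u0 + w, hw, ?_⟩
      rw [isom_add, hu0v, hχ]
  rcases local_tile hM K' hu0 with ⟨δ, hδ, s1, s2, hs1, hs2, hr⟩ | ⟨τ', htip, ε', hε', hr⟩
  · -- two segments do not fit into a cusp
    exfalso
    have hn1 : ‖(s1 : ℂ)‖ = 1 := by
      rcases hs1 with rfl | rfl <;> simp
    have hn2 : ‖(s2 : ℂ)‖ = 1 := by
      rcases hs2 with rfl | rfl <;> simp
    have hm : 0 < min δ ε := lt_min hδ hε
    have hlin : ∀ (t : ℝ) (d : ℂ), χ ((t : ℂ) * d) = (t : ℂ) * χ d := by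
      intro t d
      have h5 : (t : ℂ) * d = t • d := by simp
      rw [h5, map_smul]; simp
    have e1 : χ s1 = 1 := by
      apply dir_eq_one τ.c1_pos τ.c2_pos (by rw [χ.norm_map, hn1]) hm
      intro t ht ht'
      rw [← hlin]
      apply key
      · have := (hr t ht.le (ht'.le.trans (min_le_left _ _))).1
        rwa [Complex.ofReal_mul] at this
      · rw [norm_mul, hn1, mul_one, Complex.norm_real, Real.norm_of_nonneg ht.le]
        exact lt_of_lt_of_le ht' (min_le_right _ _)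
    have e2 : χ (s2 * Complex.I) = 1 := by
      apply dir_eq_one τ.c1_pos τ.c2_pos (by rw [χ.norm_map, norm_mul, hn2]; simp) hm
      intro t ht ht'
      rw [← hlin]
      apply key
      · have := (hr t ht.le (ht'.le.trans (min_le_left _ _))).2
        rw [Complex.ofReal_mul, mul_assoc] at this
        exact this
      · rw [norm_mul, norm_mul, hn2, Complex.norm_I, mul_one, mul_one, Complex.norm_real,
          Real.norm_of_nonneg ht.le]
        exact lt_of_lt_of_le ht' (min_le_right _ _)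
    have e3 : (s1 : ℂ) = s2 * Complex.I := χ.injective (e1.trans e2.symm)
    have e4 := congrArg Complex.re e3
    simp only [Complex.ofReal_re, Complex.re_ofReal_mul, Complex.I_re, mul_zero] at e4
    rcases hs1 with rfl | rfl <;> norm_num at e4
  · -- a tip
    have hcmp := cusp_compare τ.c1_pos τ.c2_pos τ'.c1_pos τ'.c2_pos ((fr τ').trans χ)
      (lt_min hε hε') (fun u hu hun => by
        show χ (fr τ' u) ∈ _
        apply key
        · exact hr u hu (lt_of_lt_of_le hun (min_le_right _ _))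
        · rw [(fr τ').norm_map]; exact lt_of_lt_of_le hun (min_le_left _ _))
    obtain ⟨h1, h2 | h2⟩ := hcmp
    · have hτ : τ' = τ := Ty.eq_of_le h2.2.1 h2.2.2
      subst hτ
      refine ⟨K', u0, htip, ?_⟩
      have hid := isom_eq_id h1 h2.1
      have hlin : ∀ w, lin g' w = lin g w := by
        intro w
        obtain ⟨u, rfl⟩ := (fr τ').surjective w
        rw [← hχ]
        have h3 : χ (fr τ' u) = u := hid u
        rw [h3]
        rfl
      have hfun : ∀ z, tr g (v0 - u0) z = g' z := by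
        intro z
        rw [tr_apply]
        have e1 : z + (v0 - u0) = v0 + (z - u0) := by ring
        have e2 : g' z = g' (u0 + (z - u0)) := by congr 1; ring
        rw [e1, isom_add, e2, isom_add, hu0v, hlin]
      have himg : (tr g (v0 - u0)) '' tile M K' = g' '' tile M K' := by
        ext z
        simp only [mem_image, hfun]
      rw [himg]; exact hQ
    · exact absurd h2.2.2 fun h => (Ty.not_swap h2.2.1 h).elim

theorem tr_congr {g : ℂ ≃ᵢ ℂ} {v w : ℂ} {X : Set ℂ} (h : (tr g v) '' X ∈ F) (e : w = v) :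
    (tr g w) '' X ∈ F := by
  rw [e]; exact h

theorem next_A (hM : 1 ≤ M) (hF : Tiling (tile M) F) {g : ℂ ≃ᵢ ℂ} (hT : g '' tile M .A ∈ F) :
    (tr g ((2 * M : ℕ) : ℂ)) '' tile M .A ∈ F := by
  obtain ⟨K', u0, htip, h⟩ := match_tip hM hF hT (notch_A_a hM)
  cases K' with
  | A =>
    have hu : u0 = ⟨-(1 / 32), 1 / 16⟩ := htip
    subst hu
    refine tr_congr h ?_
    apply Complex.ext <;> simp
  | B => exact htip.elim
  | V => exact htip.elim

theorem A_to_B (hM : 1 ≤ M) (hF : Tiling (tile M) F) {g : ℂ ≃ᵢ ℂ} (hT : g '' tile M .A ∈ F) :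
    ∃ n : ℕ, (tr g ((M : ℂ) - n)) '' tile M .B ∈ F := by
  obtain ⟨K', u0, htip, h⟩ := match_tip hM hF hT (notch_A_be hM)
  cases K' with
  | A => exact htip.elim
  | B =>
    obtain ⟨n, hn0, hn1, hu⟩ := htip
    subst hu
    obtain ⟨m, rfl⟩ : ∃ m : ℕ, n = m := ⟨n.toNat, by omega⟩
    refine ⟨m, tr_congr h ?_⟩
    apply Complex.ext <;> simp
  | V => exact htip.elim

theorem next_B (hM : 1 ≤ M) (hF : Tiling (tile M) F) {g : ℂ ≃ᵢ ℂ} (hT : g '' tile M .B ∈ F) :
    (tr g ((2 * M + 1 : ℕ) : ℂ)) '' tile M .B ∈ F := by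
  obtain ⟨K', u0, htip, h⟩ := match_tip hM hF hT (notch_B_b hM)
  cases K' with
  | A => exact htip.elim
  | B =>
    have hu : u0 = ⟨M - 1 / 32, 15 / 16⟩ := htip
    subst hu
    refine tr_congr h ?_
    apply Complex.ext
    · simp; ring
    · simp
  | V => exact htip.elim

theorem exists_A (hM : 1 ≤ M) (hF : Tiling (tile M) F) : ∃ g : ℂ ≃ᵢ ℂ, g '' tile M .A ∈ F := by
  obtain ⟨T, hT, _⟩ := hF.cover 0
  obtain ⟨K, g, rfl⟩ := hF.tile T hT
  cases K with
  | A => exact ⟨g, hT⟩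
  | B =>
    obtain ⟨K', u0, htip, h⟩ := match_tip hM hF hT notch_B_al
    cases K' with
    | A => exact ⟨_, h⟩
    | B => exact htip.elim
    | V => exact htip.elim
  | V =>
    obtain ⟨K', u0, htip, h⟩ := match_tip hM hF hT notch_V_al
    cases K' with
    | A => exact ⟨_, h⟩
    | B => exact htip.elim
    | V => exact htip.elim

theorem tr_tr (g : ℂ ≃ᵢ ℂ) (v w : ℂ) : tr (tr g v) w = tr g (v + w) := by
  ext z
  simp only [tr_apply]
  congr 1; ring

theorem row_A (hM : 1 ≤ M) (hF : Tiling (tile M) F) {g : ℂ ≃ᵢ ℂ} (hT : g '' tile M .A ∈ F)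
    (i : ℕ) : (tr g ((2 * M * i : ℕ) : ℂ)) '' tile M .A ∈ F := by
  induction i with
  | zero =>
    have e : tr g ((0 : ℕ) : ℂ) = g := by
      ext z
      simp [tr_apply]
    simp only [Nat.mul_zero]
    rw [e]; exact hT
  | succ i ih =>
    have h := next_A hM hF ih
    rw [tr_tr] at h
    refine tr_congr h ?_
    push_cast; ring

theorem row_B (hM : 1 ≤ M) (hF : Tiling (tile M) F) {g : ℂ ≃ᵢ ℂ} (hT : g '' tile M .B ∈ F)
    (j : ℕ) : (tr g (((2 * M + 1) * j : ℕ) : ℂ)) '' tile M .B ∈ F := by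
  induction j with
  | zero =>
    have e : tr g ((0 : ℕ) : ℂ) = g := by
      ext z
      simp [tr_apply]
    simp only [Nat.mul_zero]
    rw [e]; exact hT
  | succ j ih =>
    have h := next_B hM hF ih
    rw [tr_tr] at h
    refine tr_congr h ?_
    push_cast; ring

/-! ### the collision -/

theorem Phi_half (x : ℝ) : Phi ⟨x, 1 / 2⟩ = ⟨x, 1 / 2⟩ := by
  have h1 : SS x (1 / 2) = 1 / 2 := by
    unfold SS
    rw [kk_eq_zero (y := 1 / 2 - 1 / 4), kk_eq_zero (y := 1 / 2 - 3 / 4)]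
    · ring
    · rw [abs_of_nonpos] <;> norm_num
    · rw [abs_of_nonpos] <;> norm_num
    · rw [abs_of_nonneg] <;> norm_num
    · rw [abs_of_nonneg] <;> norm_num
  show (⟨x, SS x (1 / 2)⟩ : ℂ) - (LL (SS x (1 / 2)) : ℂ) = ⟨x, 1 / 2⟩
  rw [h1, LL_mid (by norm_num) (by norm_num)]
  simp

theorem center_A : (⟨M + 1 / 2, 1 / 2⟩ : ℂ) ∈ interior (tile M .A) := by
  unfold tile
  rw [← Homeomorph.image_interior]
  refine ⟨⟨M + 1 / 2, 1 / 2⟩, ?_, Phi_half _⟩
  apply interior_mono (subset_union_right : Box M (M + 1) 0 (3 / 4) ⊆ mdl M .A)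
  rw [mem_interior_box]
  refine ⟨?_, ?_, ?_, ?_⟩
  · show (M : ℝ) < M + 1 / 2; linarith
  · show (M : ℝ) + 1 / 2 < M + 1; linarith
  · show (0 : ℝ) < 1 / 2; norm_num
  · show (1 / 2 : ℝ) < 3 / 4; norm_num

theorem center_B : (⟨2 * M + 1 / 2, 1 / 2⟩ : ℂ) ∈ interior (tile M .B) := by
  unfold tile
  rw [← Homeomorph.image_interior]
  refine ⟨⟨2 * M + 1 / 2, 1 / 2⟩, ?_, Phi_half _⟩
  apply interior_mono (subset_union_right : Box (2 * M) (2 * M + 1) (1 / 4) 1 ⊆ mdl M .B)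
  rw [mem_interior_box]
  refine ⟨?_, ?_, ?_, ?_⟩
  · show (2 * M : ℝ) < 2 * M + 1 / 2; linarith
  · show (2 * M : ℝ) + 1 / 2 < 2 * M + 1; linarith
  · show (1 / 4 : ℝ) < 1 / 2; norm_num
  · show (1 / 2 : ℝ) < 1; norm_num

theorem A_im_le {z : ℂ} (hz : z ∈ tile M .A) : z.im ≤ 3 / 4 := by
  rw [mem_A] at hz
  rcases hz with h | h
  · have := muA_le (XX z); linarith [h.2.2.2]
  · have := muB_nonneg (XX z); linarith [h.2.2.2]

theorem top_B (hM : 1 ≤ M) : (⟨2 * M + 1 / 2, 7 / 8⟩ : ℂ) ∈ tile M .B := by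
  have hMr : (1 : ℝ) ≤ M := by exact_mod_cast hM
  have h1 : XX ⟨2 * M + 1 / 2, 7 / 8⟩ = 2 * M + 1 / 2 := by
    unfold XX
    show 2 * (M : ℝ) + 1 / 2 + LL (7 / 8) = 2 * M + 1 / 2
    rw [LL_mid (by norm_num) (by norm_num), add_zero]
  rw [mem_B, h1]
  left
  have h2 := muB_nonneg (2 * (M : ℝ) + 1 / 2)
  refine ⟨by linarith, by linarith, ?_, ?_⟩
  · show 3 / 4 - muB (2 * (M : ℝ) + 1 / 2) ≤ 7 / 8
    linarith
  · show (7 / 8 : ℝ) ≤ 1
    norm_num

/-- there is no tiling -/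
theorem no_tiling (hM : 1 ≤ M) (hF : Tiling (tile M) F) : False := by
  obtain ⟨g, hg⟩ := exists_A hM hF
  obtain ⟨n, hn⟩ := A_to_B hM hF hg
  have h1 := row_A hM hF hg (n + 1)
  have h2 := row_B hM hF hn n
  rw [tr_tr] at h2
  set T1 := (tr g ((2 * M * (n + 1) : ℕ) : ℂ)) '' tile M .A with hT1
  set T2 := (tr g ((M : ℂ) - n + ((2 * M + 1) * n : ℕ))) '' tile M .B with hT2
  have hne : T1 ≠ T2 := by
    intro h
    have h3 : tr g ((M : ℂ) - n + ((2 * M + 1) * n : ℕ)) ⟨2 * M + 1 / 2, 7 / 8⟩ ∈ T1 := by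
      rw [h]; exact mem_image_of_mem _ (top_B hM)
    obtain ⟨w, hw, hw'⟩ := h3
    rw [tr_apply, tr_apply] at hw'
    have h4 := congrArg Complex.im (g.injective hw')
    have h5 := A_im_le hw
    simp only [Complex.add_im, Complex.natCast_im, Complex.sub_im] at h4
    norm_num at h4
    linarith
  have hdisj := hF.disj T1 h1 T2 h2 hne
  have hint : ∀ (v : ℂ) (X : Set ℂ) (z : ℂ), z ∈ interior X →
      g (z + v) ∈ interior ((tr g v) '' X) := by
    intro v X z hz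
    have h3 := (tr g v).toHomeomorph.image_interior X
    have h4 : (tr g v) '' interior X = interior ((tr g v) '' X) := h3
    rw [← h4]
    exact ⟨z, hz, rfl⟩
  have p1 := hint ((2 * M * (n + 1) : ℕ) : ℂ) (tile M .A) _ center_A
  have p2 := hint ((M : ℂ) - n + ((2 * M + 1) * n : ℕ)) (tile M .B) _ center_B
  have heq : (⟨M + 1 / 2, 1 / 2⟩ : ℂ) + ((2 * M * (n + 1) : ℕ) : ℂ) =
      ⟨2 * M + 1 / 2, 1 / 2⟩ + ((M : ℂ) - n + ((2 * M + 1) * n : ℕ)) := by
    apply Complex.ext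
    · simp only [Complex.add_re, Complex.sub_re, Complex.natCast_re]
      push_cast; ring
    · simp only [Complex.add_im, Complex.sub_im, Complex.natCast_im]
      ring
  rw [heq] at p1
  exact Set.disjoint_left.1 hdisj p1 p2

/-- the set of the three prototiles -/
noncomputable def SET (M : ℕ) : Set (Set ℂ) := Set.range (tile M)

theorem not_admitsTiling (hM : 1 ≤ M) : ¬ AdmitsTiling (SET M) := by
  rintro ⟨F, _, htile, hdisj, hcov⟩
  refine no_tiling hM (F := F) ⟨?_, hdisj, ?_⟩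
  · intro T hT
    obtain ⟨P, ⟨K, rfl⟩, g, hg⟩ := htile T hT
    exact ⟨K, g, hg⟩
  · intro z
    have hz : z ∈ ⋃₀ F := by rw [hcov]; trivial
    obtain ⟨T, hT, hzT⟩ := hz
    exact ⟨T, hT, hzT⟩

end Pool.Agent.N118.SU
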