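import Pool.Agent.N118.SU.NoTiling

/-!
# The undecorated patches
-/

set_option autoImplicit false

open Set Filter Topology

namespace Pool.Agent.N118.SU

/-- translate by an integer vector -/
def off (M : ℕ) : Kd → ℤ → ℤ
  | .A, j => 2 * M * j
  | .B, j => (2 * M + 1) * j
  | .V, j => j

/-- the vector of a position -/
noncomputable def vec (M : ℕ) (K : Kd) (j r : ℤ) : ℂ := (off M K j : ℂ) + (r : ℂ) * Complex.I

/-- the undecorated tile at a position -/
noncomputable def mt (M : ℕ) (K : Kd) (j r : ℤ) : Set ℂ := (fun z => z + vec M K j r) '' mdl M K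

theorem mem_shift {X : Set ℂ} {v z : ℂ} : z ∈ (fun z => z + v) '' X ↔ z - v ∈ X := by
  constructor
  · rintro ⟨w, hw, rfl⟩
    simpa using hw
  · intro h
    exact ⟨z - v, h, by simp⟩

theorem mem_mt_A {M : ℕ} {j r : ℤ} {z : ℂ} : z ∈ mt M .A j r ↔
    (2 * M * j ≤ z.re ∧ z.re ≤ 2 * M * j + 2 * M ∧ r ≤ z.im ∧ z.im ≤ r + 1 / 4) ∨
    (2 * M * j + M ≤ z.re ∧ z.re ≤ 2 * M * j + M + 1 ∧ r ≤ z.im ∧ z.im ≤ r + 3 / 4) := by
  unfold mt
  rw [mem_shift]
  have e1 : (z - vec M .A j r).re = z.re - 2 * M * j := by simp [vec, off]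
  have e2 : (z - vec M .A j r).im = z.im - r := by simp [vec, off]
  simp only [mdl, Box, mem_union, Set.mem_ofPred_eq, e1, e2]
  constructor
  · rintro (h | h)
    · left; exact ⟨by linarith [h.1], by linarith [h.2.1], by linarith [h.2.2.1],
        by linarith [h.2.2.2]⟩
    · right; exact ⟨by linarith [h.1], by linarith [h.2.1], by linarith [h.2.2.1],
        by linarith [h.2.2.2]⟩
  · rintro (h | h)
    · left; exact ⟨by linarith [h.1], by linarith [h.2.1], by linarith [h.2.2.1],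
        by linarith [h.2.2.2]⟩
    · right; exact ⟨by linarith [h.1], by linarith [h.2.1], by linarith [h.2.2.1],
        by linarith [h.2.2.2]⟩

theorem mem_mt_B {M : ℕ} {j r : ℤ} {z : ℂ} : z ∈ mt M .B j r ↔
    ((2 * M + 1) * j + M ≤ z.re ∧ z.re ≤ (2 * M + 1) * j + 3 * M + 1 ∧
      r + 3 / 4 ≤ z.im ∧ z.im ≤ r + 1) ∨
    ((2 * M + 1) * j + 2 * M ≤ z.re ∧ z.re ≤ (2 * M + 1) * j + 2 * M + 1 ∧
      r + 1 / 4 ≤ z.im ∧ z.im ≤ r + 1) := by
  unfold mt
  rw [mem_shift]
  have e1 : (z - vec M .B j r).re = z.re - (2 * M + 1) * j := by simp [vec, off]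
  have e2 : (z - vec M .B j r).im = z.im - r := by simp [vec, off]
  simp only [mdl, Box, mem_union, Set.mem_ofPred_eq, e1, e2]
  constructor
  · rintro (h | h)
    · left; exact ⟨by linarith [h.1], by linarith [h.2.1], by linarith [h.2.2.1],
        by linarith [h.2.2.2]⟩
    · right; exact ⟨by linarith [h.1], by linarith [h.2.1], by linarith [h.2.2.1],
        by linarith [h.2.2.2]⟩
  · rintro (h | h)
    · left; exact ⟨by linarith [h.1], by linarith [h.2.1], by linarith [h.2.2.1],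
        by linarith [h.2.2.2]⟩
    · right; exact ⟨by linarith [h.1], by linarith [h.2.1], by linarith [h.2.2.1],
        by linarith [h.2.2.2]⟩

theorem mem_mt_V {M : ℕ} {n r : ℤ} {z : ℂ} : z ∈ mt M .V n r ↔
    (n ≤ z.re ∧ z.re ≤ n + 1 ∧ r + 1 / 4 ≤ z.im ∧ z.im ≤ r + 3 / 4) := by
  unfold mt
  rw [mem_shift]
  have e1 : (z - vec M .V n r).re = z.re - n := by simp [vec, off]
  have e2 : (z - vec M .V n r).im = z.im - r := by simp [vec, off]
  simp only [mdl, Box, Set.mem_ofPred_eq, e1, e2]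
  constructor
  · rintro h
    exact ⟨by linarith [h.1], by linarith [h.2.1], by linarith [h.2.2.1], by linarith [h.2.2.2]⟩
  · rintro h
    exact ⟨by linarith [h.1], by linarith [h.2.1], by linarith [h.2.2.1], by linarith [h.2.2.2]⟩

/-- the cell `n` of the layer is not occupied by a pillar -/
def NonPillar (M : ℕ) (n : ℤ) : Prop :=
  (∀ j : ℤ, n ≠ 2 * M * j + M) ∧ ∀ j : ℤ, |j| < M → n ≠ (2 * M + 1) * j + 2 * M

/-- the positions of the universal arrangement -/
def inU (M : ℕ) : Kd → ℤ → Prop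
  | .A, _ => True
  | .B, j => |j| < M
  | .V, n => NonPillar M n

/-- the pillars of `A` and `B` are in different cells -/
theorem pillar_ne {M : ℕ} (hM : 1 ≤ M) {i j : ℤ} (hj : |j| < M) :
    2 * M * i + M ≠ (2 * M + 1) * j + 2 * M := by
  intro h
  have hM' : (1 : ℤ) ≤ M := by exact_mod_cast hM
  rw [abs_lt] at hj
  have h1 : j = M * (2 * i - 2 * j - 1) := by linarith
  rcases lt_trichotomy (2 * i - 2 * j - 1) 0 with h2 | h2 | h2
  · nlinarith
  · omega
  · nlinarith

/-- irrational numbers in integer intervals -/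
theorem irr_eq {x : ℝ} (hx : Irrational x) {a b p : ℤ} (hp : 0 < p) (c : ℤ)
    (h1 : ((p * a + c : ℤ) : ℝ) ≤ x) (h2 : x ≤ ((p * a + c + p : ℤ) : ℝ))
    (h3 : ((p * b + c : ℤ) : ℝ) ≤ x) (h4 : x ≤ ((p * b + c + p : ℤ) : ℝ)) : a = b := by
  have s1 := lt_of_le_of_ne h1 (hx.ne_int _).symm
  have s2 := lt_of_le_of_ne h2 (hx.ne_int _)
  have s3 := lt_of_le_of_ne h3 (hx.ne_int _).symm
  have s4 := lt_of_le_of_ne h4 (hx.ne_int _)
  have t1 : p * a + c < p * b + c + p := by exact_mod_cast s1.trans s4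
  have t2 : p * b + c < p * a + c + p := by exact_mod_cast s3.trans s2
  have u1 : p * (a - b) < p * 1 := by linarith
  have u2 : p * (b - a) < p * 1 := by linarith
  have v1 := lt_of_mul_lt_mul_left u1 hp.le
  have v2 := lt_of_mul_lt_mul_left u2 hp.le
  omega

theorem row_eq {y : ℝ} {r r' : ℤ} (h1 : (r : ℝ) < y) (h2 : y < r + 1) (h3 : (r' : ℝ) < y)
    (h4 : y < r' + 1) : r = r' := by
  have t1 : r < r' + 1 := by exact_mod_cast h1.trans h4
  have t2 : r' < r + 1 := by exact_mod_cast h3.trans h2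
  omega

/-- the row of a tile containing an irrational point -/
theorem row_of {M : ℕ} {K : Kd} {j r : ℤ} {z : ℂ} (hy : Irrational z.im) (h : z ∈ mt M K j r) :
    (r : ℝ) < z.im ∧ z.im < r + 1 := by
  have n1 : z.im ≠ r := hy.ne_int r
  have n2 : z.im ≠ r + 1 := by
    have := hy.ne_int (r + 1)
    push_cast at this
    exact this
  cases K with
  | A =>
    rw [mem_mt_A] at h
    rcases h with h | h
    · exact ⟨lt_of_le_of_ne h.2.2.1 n1.symm, by linarith [h.2.2.2]⟩
    · exact ⟨lt_of_le_of_ne h.2.2.1 n1.symm, by linarith [h.2.2.2]⟩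
  | B =>
    rw [mem_mt_B] at h
    rcases h with h | h
    · exact ⟨by linarith [h.2.2.1], lt_of_le_of_ne h.2.2.2 n2⟩
    · exact ⟨by linarith [h.2.2.1], lt_of_le_of_ne h.2.2.2 n2⟩
  | V =>
    rw [mem_mt_V] at h
    exact ⟨by linarith [h.2.2.1], by linarith [h.2.2.2]⟩

/-- a point with irrational coordinates is in one tile only -/
theorem unique_tile {M : ℕ} (hM : 1 ≤ M) {K K' : Kd} {j j' r r' : ℤ} (hU : inU M K j)
    (hU' : inU M K' j') {z : ℂ} (hx : Irrational z.re) (hy : Irrational z.im)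
    (h : z ∈ mt M K j r) (h' : z ∈ mt M K' j' r') : K = K' ∧ j = j' ∧ r = r' := by
  have hM' : (1 : ℤ) ≤ M := by exact_mod_cast hM
  have hMr : (1 : ℝ) ≤ M := by exact_mod_cast hM
  obtain ⟨a1, a2⟩ := row_of hy h
  obtain ⟨a3, a4⟩ := row_of hy h'
  have hr : r = r' := row_eq a1 a2 a3 a4
  subst hr
  have q1 : z.im ≠ r + 1 / 4 := by
    have := hy.ne_rat (r + 1 / 4)
    push_cast at this
    exact this
  have q3 : z.im ≠ r + 3 / 4 := by
    have := hy.ne_rat (r + 3 / 4)
    push_cast at this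
    exact this
  -- normal forms
  have fA : ∀ j : ℤ, z ∈ mt M .A j r → (((2 * M) * j + 0 : ℤ) : ℝ) ≤ z.re ∧
      z.re ≤ (((2 * M) * j + 0 + 2 * M : ℤ) : ℝ) := by
    intro j h
    push_cast
    rw [mem_mt_A] at h
    rcases h with h | h
    · exact ⟨by linarith [h.1], by linarith [h.2.1]⟩
    · exact ⟨by linarith [h.1], by linarith [h.2.1]⟩
  have fB : ∀ j : ℤ, z ∈ mt M .B j r → (((2 * M + 1) * j + M : ℤ) : ℝ) ≤ z.re ∧
      z.re ≤ (((2 * M + 1) * j + M + (2 * M + 1) : ℤ) : ℝ) := by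
    intro j h
    push_cast
    rw [mem_mt_B] at h
    rcases h with h | h
    · exact ⟨by linarith [h.1], by linarith [h.2.1]⟩
    · exact ⟨by linarith [h.1], by linarith [h.2.1]⟩
  -- pillars
  have gA : ∀ j : ℤ, z ∈ mt M .A j r → r + 1 / 4 ≤ z.im →
      (((2 * M) * j + M : ℤ) : ℝ) ≤ z.re ∧ z.re ≤ (((2 * M) * j + M + 1 : ℤ) : ℝ) ∧
        z.im < r + 3 / 4 := by
    intro j h hlow
    have hlow' := lt_of_le_of_ne hlow (fun h => q1 h.symm)
    push_cast
    rw [mem_mt_A] at h
    rcases h with h | h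
    · linarith [h.2.2.2]
    · exact ⟨by linarith [h.1], by linarith [h.2.1], lt_of_le_of_ne h.2.2.2 q3⟩
  have gB : ∀ j : ℤ, z ∈ mt M .B j r → z.im ≤ r + 3 / 4 →
      (((2 * M + 1) * j + 2 * M : ℤ) : ℝ) ≤ z.re ∧
        z.re ≤ (((2 * M + 1) * j + 2 * M + 1 : ℤ) : ℝ) ∧ r + 1 / 4 < z.im := by
    intro j h hup
    have hup' := lt_of_le_of_ne hup q3
    push_cast
    rw [mem_mt_B] at h
    rcases h with h | h
    · linarith [h.2.2.1]
    · exact ⟨by linarith [h.1], by linarith [h.2.1], lt_of_le_of_ne h.2.2.1 (fun h => q1 h.symm)⟩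
  have hAB : ∀ i j : ℤ, |j| < M → z ∈ mt M .A i r → z ∈ mt M .B j r → False := by
    intro i j hj hA hB
    have hlow : r + 1 / 4 ≤ z.im := by
      rw [mem_mt_B] at hB
      rcases hB with h | h
      · linarith [h.2.2.1]
      · exact h.2.2.1
    have hup : z.im ≤ r + 3 / 4 := by
      rw [mem_mt_A] at hA
      rcases hA with h | h
      · linarith [h.2.2.2]
      · exact h.2.2.2
    obtain ⟨b1, b2, _⟩ := gA i hA hlow
    obtain ⟨b3, b4, _⟩ := gB j hB hup
    have := irr_eq hx (a := 2 * M * i + M) (b := (2 * M + 1) * j + 2 * M) (p := 1) one_pos 0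
      (by rw [one_mul, add_zero]; exact b1) (by rw [one_mul, add_zero]; exact b2)
      (by rw [one_mul, add_zero]; exact b3) (by rw [one_mul, add_zero]; exact b4)
    exact pillar_ne hM hj this
  have hAV : ∀ i n : ℤ, NonPillar M n → z ∈ mt M .A i r → z ∈ mt M .V n r → False := by
    intro i n hn hA hV
    rw [mem_mt_V] at hV
    obtain ⟨b1, b2, _⟩ := gA i hA hV.2.2.1
    have := irr_eq hx (a := 2 * M * i + M) (b := n) (p := 1) one_pos 0
      (by rw [one_mul, add_zero]; exact b1) (by rw [one_mul, add_zero]; exact b2)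
      (by rw [one_mul, add_zero]; exact hV.1) (by
        rw [one_mul, add_zero]; push_cast; exact hV.2.1)
    exact hn.1 i this.symm
  have hBV : ∀ i n : ℤ, |i| < M → NonPillar M n → z ∈ mt M .B i r → z ∈ mt M .V n r → False := by
    intro i n hi hn hB hV
    rw [mem_mt_V] at hV
    obtain ⟨b1, b2, _⟩ := gB i hB hV.2.2.2
    have := irr_eq hx (a := (2 * M + 1) * i + 2 * M) (b := n) (p := 1) one_pos 0
      (by rw [one_mul, add_zero]; exact b1) (by rw [one_mul, add_zero]; exact b2)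
      (by rw [one_mul, add_zero]; exact hV.1) (by
        rw [one_mul, add_zero]; push_cast; exact hV.2.1)
    exact hn.2 i hi this.symm
  cases K with
  | A =>
    cases K' with
    | A =>
      refine ⟨rfl, ?_, rfl⟩
      obtain ⟨b1, b2⟩ := fA j h
      obtain ⟨b3, b4⟩ := fA j' h'
      exact irr_eq hx (p := 2 * M) (by omega) 0 b1 b2 b3 b4
    | B => exact (hAB j j' hU' h h').elim
    | V => exact (hAV j j' hU' h h').elim
  | B =>
    cases K' with
    | A => exact (hAB j' j hU h' h).elim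
    | B =>
      refine ⟨rfl, ?_, rfl⟩
      obtain ⟨b1, b2⟩ := fB j h
      obtain ⟨b3, b4⟩ := fB j' h'
      exact irr_eq hx (p := 2 * M + 1) (by omega) M b1 b2 b3 b4
    | V => exact (hBV j j' hU hU' h h').elim
  | V =>
    cases K' with
    | A => exact (hAV j' j hU h' h).elim
    | B => exact (hBV j' j hU' hU h' h).elim
    | V =>
      refine ⟨rfl, ?_, rfl⟩
      rw [mem_mt_V] at h h'
      exact irr_eq hx (a := j) (b := j') (p := 1) one_pos 0
        (by rw [one_mul, add_zero]; exact h.1) (by rw [one_mul, add_zero]; push_cast; exact h.2.1)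
        (by rw [one_mul, add_zero]; exact h'.1) (by rw [one_mul, add_zero]; push_cast; exact h'.2.1)

/-- nonempty open sets contain points with irrational coordinates -/
theorem exists_irr {W : Set ℂ} (hW : IsOpen W) (hne : W.Nonempty) :
    ∃ z ∈ W, Irrational z.re ∧ Irrational z.im := by
  obtain ⟨z, hz⟩ := hne
  obtain ⟨ε, hε, hb⟩ := Metric.isOpen_iff.1 hW z hz
  obtain ⟨x, hx, hx1, hx2⟩ := exists_irrational_btwn (show z.re < z.re + ε / 2 by linarith)
  obtain ⟨y, hy, hy1, hy2⟩ := exists_irrational_btwn (show z.im < z.im + ε / 2 by linarith)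
  refine ⟨⟨x, y⟩, hb ?_, hx, hy⟩
  rw [Metric.mem_ball, dist_eq_norm]
  refine lt_of_le_of_lt (Complex.norm_le_abs_re_add_abs_im _) ?_
  simp only [Complex.sub_re, Complex.sub_im]
  rw [abs_of_pos (by linarith), abs_of_pos (by linarith)]
  linarith

/-- different tiles of the arrangement have disjoint interiors -/
theorem mt_disjoint {M : ℕ} (hM : 1 ≤ M) {K K' : Kd} {j j' r r' : ℤ} (hU : inU M K j)
    (hU' : inU M K' j') (hne : ¬ (K = K' ∧ j = j' ∧ r = r')) :
    Disjoint (interior (mt M K j r)) (interior (mt M K' j' r')) := by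
  rw [Set.disjoint_iff_inter_eq_empty]
  by_contra h
  obtain ⟨z, ⟨hz1, hz2⟩, hx, hy⟩ := exists_irr (isOpen_interior.inter isOpen_interior)
    (Set.nonempty_iff_ne_empty.2 h)
  exact hne (unique_tile hM hU hU' hx hy (interior_subset hz1) (interior_subset hz2))

end Pool.Agent.N118.SU
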