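import Pool.Agent.N118.SU.Spike
import Pool.Agent.N118.SU.Disk

/-!
# The decorating homeomorphism of the plane
-/

set_option autoImplicit false

open Set Filter Topology

namespace Pool.Agent.N118.SU

/-- the periodic tent of height `1` and slope `8` around the integers -/
noncomputable def kk (y : ℝ) : ℝ := max 0 (1 - 8 * ‖((y : ℝ) : UnitAddCircle)‖)

theorem kk_nonneg (y : ℝ) : 0 ≤ kk y := le_max_left _ _

theorem kk_le_one (y : ℝ) : kk y ≤ 1 := by
  unfold kk
  apply max_le (by norm_num)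
  have := norm_nonneg ((y : ℝ) : UnitAddCircle)
  linarith

theorem circ_norm_le (y : ℝ) : ‖((y : ℝ) : UnitAddCircle)‖ ≤ |y| := by
  rw [UnitAddCircle.norm_eq]
  exact round_le y 0 |>.trans (by simp)

theorem kk_lip (y y' : ℝ) : |kk y - kk y'| ≤ 8 * |y - y'| := by
  unfold kk
  rw [max_comm 0, max_comm 0]
  refine (abs_max_sub_max_le_abs (1 - 8 * ‖((y : ℝ) : UnitAddCircle)‖)
    (1 - 8 * ‖((y' : ℝ) : UnitAddCircle)‖) 0).trans ?_
  have h1 : (1 - 8 * ‖((y : ℝ) : UnitAddCircle)‖ - (1 - 8 * ‖((y' : ℝ) : UnitAddCircle)‖)) =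
      8 * (‖((y' : ℝ) : UnitAddCircle)‖ - ‖((y : ℝ) : UnitAddCircle)‖) := by ring
  rw [h1, abs_mul, abs_of_pos (by norm_num : (0:ℝ) < 8)]
  refine mul_le_mul_of_nonneg_left ?_ (by norm_num)
  refine (abs_norm_sub_norm_le _ _).trans ?_
  rw [← AddCircle.coe_sub, abs_sub_comm]
  exact circ_norm_le _

theorem kk_add_int (y : ℝ) (n : ℤ) : kk (y + n) = kk y := by
  unfold kk
  have : (((y + n : ℝ)) : UnitAddCircle) = (y : UnitAddCircle) := by
    rw [AddCircle.coe_add]
    have h : ((n : ℝ) : UnitAddCircle) = 0 := by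
      rw [AddCircle.coe_eq_zero_iff]
      exact ⟨n, by simp⟩
    rw [h, add_zero]
  rw [this]

theorem kk_continuous : Continuous kk := by
  unfold kk
  have h : Continuous fun y : ℝ => ((y : ℝ) : UnitAddCircle) := AddCircle.continuous_mk' 1
  fun_prop

theorem kk_zero : kk 0 = 1 := by
  unfold kk; simp

theorem circ_norm_of_le {y : ℝ} (hy : |y| ≤ 1 / 2) : ‖((y : ℝ) : UnitAddCircle)‖ = |y| := by
  rw [AddCircle.norm_coe_eq_abs_iff 1 one_ne_zero]
  simpa using hy

theorem kk_eq_zero {y : ℝ} (hy : |y| ≤ 1 / 2) (hy' : 1 / 8 ≤ |y|) : kk y = 0 := by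
  unfold kk
  rw [circ_norm_of_le hy]
  apply max_eq_left
  linarith

theorem kk_eq_zero_of {y : ℝ} (n : ℤ) (hy : |y + n| ≤ 1 / 2) (hy' : 1 / 8 ≤ |y + n|) :
    kk y = 0 := by
  rw [← kk_add_int y n]
  exact kk_eq_zero hy hy'

/-! ### the periodic decorations -/

/-- spikes of type `α` at the half integers -/
noncomputable def muA (x : ℝ) : ℝ := spk 3 6 (Int.fract x - 1 / 2)

/-- spikes of type `β` at the half integers -/
noncomputable def muB (x : ℝ) : ℝ := spk 4 5 (Int.fract x - 1 / 2)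

/-- spikes of type `a` at `1/16` and of type `b` at `15/16` (modulo `1`) -/
noncomputable def LL (y : ℝ) : ℝ :=
  spk 1 8 (Int.fract y - 1 / 16) + spk 2 7 (Int.fract y - 15 / 16)

theorem muA_nonneg (x : ℝ) : 0 ≤ muA x := spk_nonneg _ _ _
theorem muB_nonneg (x : ℝ) : 0 ≤ muB x := spk_nonneg _ _ _
theorem muA_le (x : ℝ) : muA x ≤ 1 / 32 := spk_le _ _ _
theorem muB_le (x : ℝ) : muB x ≤ 1 / 32 := spk_le _ _ _
theorem LL_nonneg (x : ℝ) : 0 ≤ LL x := add_nonneg (spk_nonneg _ _ _) (spk_nonneg _ _ _)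

theorem muA_add_int (x : ℝ) (n : ℤ) : muA (x + n) = muA x := by
  unfold muA; rw [Int.fract_add_intCast]
theorem muB_add_int (x : ℝ) (n : ℤ) : muB (x + n) = muB x := by
  unfold muB; rw [Int.fract_add_intCast]
theorem LL_add_int (x : ℝ) (n : ℤ) : LL (x + n) = LL x := by
  unfold LL; rw [Int.fract_add_intCast]

theorem muA_continuous : Continuous muA := by
  have h : Continuous ((fun u => spk 3 6 (u - 1 / 2)) ∘ Int.fract) := by
    refine ContinuousOn.comp_fract'' ?_ ?_
    · exact (spk_continuous.comp (continuous_id.sub continuous_const)).continuousOn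
    · rw [spk_eq_zero (by norm_num) (by norm_num) (by norm_num) (by norm_num),
        spk_eq_zero (by norm_num) (by norm_num) (by norm_num) (by norm_num)]
      · rw [abs_of_nonneg] <;> norm_num
      · rw [abs_of_nonpos] <;> norm_num
  exact h

theorem muB_continuous : Continuous muB := by
  have h : Continuous ((fun u => spk 4 5 (u - 1 / 2)) ∘ Int.fract) := by
    refine ContinuousOn.comp_fract'' ?_ ?_
    · exact (spk_continuous.comp (continuous_id.sub continuous_const)).continuousOn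
    · rw [spk_eq_zero (by norm_num) (by norm_num) (by norm_num) (by norm_num),
        spk_eq_zero (by norm_num) (by norm_num) (by norm_num) (by norm_num)]
      · rw [abs_of_nonneg] <;> norm_num
      · rw [abs_of_nonpos] <;> norm_num
  exact h

theorem LL_continuous : Continuous LL := by
  have h : Continuous ((fun u => spk 1 8 (u - 1 / 16) + spk 2 7 (u - 15 / 16)) ∘ Int.fract) := by
    refine ContinuousOn.comp_fract'' ?_ ?_
    · exact ((spk_continuous.comp (continuous_id.sub continuous_const)).add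
        (spk_continuous.comp (continuous_id.sub continuous_const))).continuousOn
    · rw [spk_eq_zero (by norm_num) (by norm_num) (by norm_num) (by norm_num),
        spk_eq_zero (by norm_num) (by norm_num) (by norm_num) (by norm_num),
        spk_eq_zero (by norm_num) (by norm_num) (by norm_num) (by norm_num),
        spk_eq_zero (by norm_num) (by norm_num) (by norm_num) (by norm_num)]
      · rw [abs_of_nonneg] <;> norm_num
      · rw [abs_of_nonneg] <;> norm_num
      · rw [abs_of_nonpos] <;> norm_num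
      · rw [abs_of_nonpos] <;> norm_num
  exact h

/-! ### the vertical map -/

/-- the vertical decoration -/
noncomputable def SS (x y : ℝ) : ℝ := y + muA x * kk (y - 1 / 4) - muB x * kk (y - 3 / 4)

theorem SS_add_int (x y : ℝ) (m n : ℤ) : SS (x + m) (y + n) = SS x y + n := by
  unfold SS
  rw [muA_add_int, muB_add_int]
  have h1 : y + n - 1 / 4 = y - 1 / 4 + n := by ring
  have h2 : y + n - 3 / 4 = y - 3 / 4 + n := by ring
  rw [h1, h2, kk_add_int, kk_add_int]
  ring

theorem SS_expand (x : ℝ) {y y' : ℝ} (h : y ≤ y') : (y' - y) / 2 ≤ SS x y' - SS x y := by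
  unfold SS
  have h1 := kk_lip (y' - 1 / 4) (y - 1 / 4)
  have h2 := kk_lip (y' - 3 / 4) (y - 3 / 4)
  have e1 : y' - 1 / 4 - (y - 1 / 4) = y' - y := by ring
  have e2 : y' - 3 / 4 - (y - 3 / 4) = y' - y := by ring
  rw [e1, abs_of_nonneg (sub_nonneg.2 h)] at h1
  rw [e2, abs_of_nonneg (sub_nonneg.2 h)] at h2
  have h3 : -(muA x * (8 * (y' - y))) ≤ muA x * (kk (y' - 1 / 4) - kk (y - 1 / 4)) := by
    have := neg_abs_le (kk (y' - 1 / 4) - kk (y - 1 / 4))
    nlinarith [muA_nonneg x]
  have h4 : muB x * (kk (y' - 3 / 4) - kk (y - 3 / 4)) ≤ muB x * (8 * (y' - y)) := by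
    have := le_abs_self (kk (y' - 3 / 4) - kk (y - 3 / 4))
    nlinarith [muB_nonneg x]
  have h5 : muA x * (8 * (y' - y)) ≤ 1 / 32 * (8 * (y' - y)) :=
    mul_le_mul_of_nonneg_right (muA_le x) (by linarith)
  have h6 : muB x * (8 * (y' - y)) ≤ 1 / 32 * (8 * (y' - y)) :=
    mul_le_mul_of_nonneg_right (muB_le x) (by linarith)
  nlinarith

theorem SS_strictMono (x : ℝ) : StrictMono (SS x) := by
  intro y y' h
  have := SS_expand x h.le
  linarith

theorem SS_lower (x y y' : ℝ) : |y' - y| ≤ 2 * |SS x y' - SS x y| := by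
  rcases le_total y y' with h | h
  · have h1 := SS_expand x h
    rw [abs_of_nonneg (by linarith), abs_of_nonneg (by linarith)]
    linarith
  · have h1 := SS_expand x h
    rw [abs_of_nonpos (by linarith), abs_of_nonpos (by linarith)]
    linarith

theorem SS_continuous : Continuous fun z : ℝ × ℝ => SS z.1 z.2 := by
  unfold SS
  have h1 := muA_continuous
  have h2 := muB_continuous
  have h3 := kk_continuous
  fun_prop

theorem SS_dist (x y : ℝ) : |SS x y - y| ≤ 1 / 16 := by
  unfold SS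
  have h1 : 0 ≤ muA x * kk (y - 1 / 4) := mul_nonneg (muA_nonneg x) (kk_nonneg _)
  have h2 : 0 ≤ muB x * kk (y - 3 / 4) := mul_nonneg (muB_nonneg x) (kk_nonneg _)
  have h3 : muA x * kk (y - 1 / 4) ≤ 1 / 32 * 1 :=
    mul_le_mul (muA_le x) (kk_le_one _) (kk_nonneg _) (by norm_num)
  have h4 : muB x * kk (y - 3 / 4) ≤ 1 / 32 * 1 :=
    mul_le_mul (muB_le x) (kk_le_one _) (kk_nonneg _) (by norm_num)
  rw [abs_le]
  constructor <;> linarith

theorem SS_surj (x y : ℝ) : ∃ t, SS x t = y := by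
  have hc : Continuous (SS x) := SS_continuous.comp (Continuous.prodMk_right x)
  have h1 := SS_dist x (y - 1)
  have h2 := SS_dist x (y + 1)
  rw [abs_le] at h1 h2
  have h3 := intermediate_value_Icc (by linarith : y - 1 ≤ y + 1) hc.continuousOn
  obtain ⟨t, _, ht⟩ := h3 (show y ∈ Icc (SS x (y - 1)) (SS x (y + 1)) from
    ⟨by linarith, by linarith⟩)
  exact ⟨t, ht⟩

/-- the inverse of the vertical decoration -/
noncomputable def TT (x y : ℝ) : ℝ := (SS_surj x y).choose

theorem SS_TT (x y : ℝ) : SS x (TT x y) = y := (SS_surj x y).choose_spec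

theorem TT_SS (x y : ℝ) : TT x (SS x y) = y := (SS_strictMono x).injective (SS_TT x _)

theorem TT_continuous : Continuous fun z : ℂ => TT z.re z.im := by
  rw [continuous_iff_continuousAt]
  intro z0
  rw [ContinuousAt, tendsto_iff_norm_sub_tendsto_zero]
  have hle : ∀ z : ℂ, ‖TT z.re z.im - TT z0.re z0.im‖ ≤ 2 * |z.im - SS z.re (TT z0.re z0.im)| := by
    intro z
    have h := SS_lower z.re (TT z0.re z0.im) (TT z.re z.im)
    rw [SS_TT] at h
    exact h
  refine squeeze_zero (fun z => norm_nonneg _) hle ?_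
  have hc : Continuous fun z : ℂ => 2 * |z.im - SS z.re (TT z0.re z0.im)| := by
    have h1 : Continuous fun z : ℂ => SS z.re (TT z0.re z0.im) :=
      SS_continuous.comp (Complex.continuous_re.prodMk continuous_const)
    fun_prop
  have h2 := hc.tendsto z0
  simp only [SS_TT, sub_self, abs_zero, mul_zero] at h2
  exact h2

/-- the vertical homeomorphism -/
noncomputable def G2 : ℂ ≃ₜ ℂ where
  toFun := fun z => ⟨z.re, SS z.re z.im⟩
  invFun := fun z => ⟨z.re, TT z.re z.im⟩
  left_inv := fun z => by apply Complex.ext <;> simp [TT_SS]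
  right_inv := fun z => by apply Complex.ext <;> simp [SS_TT]
  continuous_toFun := by
    have h1 : Continuous fun z : ℂ => SS z.re z.im :=
      SS_continuous.comp (Complex.continuous_re.prodMk Complex.continuous_im)
    have h2 : (fun z : ℂ => (⟨z.re, SS z.re z.im⟩ : ℂ)) =
        fun z : ℂ => (z.re : ℂ) + (SS z.re z.im : ℂ) * Complex.I := by
      funext z; apply Complex.ext <;> simp
    rw [h2]; fun_prop
  continuous_invFun := by
    have h1 := TT_continuous
    have h2 : (fun z : ℂ => (⟨z.re, TT z.re z.im⟩ : ℂ)) =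
        fun z : ℂ => (z.re : ℂ) + (TT z.re z.im : ℂ) * Complex.I := by
      funext z; apply Complex.ext <;> simp
    rw [h2]; fun_prop

/-- the horizontal homeomorphism -/
noncomputable def G1 : ℂ ≃ₜ ℂ where
  toFun := fun z => z - (LL z.im : ℂ)
  invFun := fun z => z + (LL z.im : ℂ)
  left_inv := fun z => by simp
  right_inv := fun z => by simp
  continuous_toFun := by have := LL_continuous; fun_prop
  continuous_invFun := by have := LL_continuous; fun_prop

/-- the decorating homeomorphism -/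
noncomputable def Phi : ℂ ≃ₜ ℂ := G2.trans G1

/-- the corrected abscissa -/
noncomputable def XX (z : ℂ) : ℝ := z.re + LL z.im

theorem Phi_symm_re (z : ℂ) : (Phi.symm z).re = XX z := by
  show (z + (LL z.im : ℂ)).re = XX z
  simp [XX]

theorem SS_Phi_symm (z : ℂ) : SS (XX z) (Phi.symm z).im = z.im := by
  have h : (Phi.symm z).im = TT (z + (LL z.im : ℂ)).re (z + (LL z.im : ℂ)).im := rfl
  rw [h]
  have h1 : (z + (LL z.im : ℂ)).re = XX z := by simp [XX]
  have h2 : (z + (LL z.im : ℂ)).im = z.im := by simp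
  rw [h1, h2, SS_TT]

theorem mem_image_Phi (K : Set ℂ) (z : ℂ) : z ∈ Phi '' K ↔ Phi.symm z ∈ K := by
  rw [Homeomorph.image_eq_preimage_symm]; rfl

/-- decorated boxes -/
theorem mem_Phi_box (x1 x2 t1 t2 : ℝ) (z : ℂ) : z ∈ Phi '' Box x1 x2 t1 t2 ↔
    x1 ≤ XX z ∧ XX z ≤ x2 ∧ SS (XX z) t1 ≤ z.im ∧ z.im ≤ SS (XX z) t2 := by
  rw [mem_image_Phi]
  simp only [Box, Set.mem_ofPred_eq, Phi_symm_re]
  have h := SS_Phi_symm z
  rw [← (SS_strictMono (XX z)).le_iff_le (a := t1), ← (SS_strictMono (XX z)).le_iff_le (b := t2), h]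

theorem Phi_add (z : ℂ) (m n : ℤ) : Phi (z + (m + n * Complex.I)) = Phi z + (m + n * Complex.I) := by
  show (⟨(z + (m + n * Complex.I)).re, SS (z + (m + n * Complex.I)).re
      (z + (m + n * Complex.I)).im⟩ : ℂ) -
    (LL (SS (z + (m + n * Complex.I)).re (z + (m + n * Complex.I)).im) : ℂ) =
    (⟨z.re, SS z.re z.im⟩ : ℂ) - (LL (SS z.re z.im) : ℂ) + (m + n * Complex.I)
  have h1 : (z + (m + n * Complex.I)).re = z.re + m := by simp
  have h2 : (z + (m + n * Complex.I)).im = z.im + n := by simp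
  rw [h1, h2, SS_add_int, LL_add_int]
  apply Complex.ext
  · simp; ring
  · simp

/-! ### values at the break points -/

theorem SS_0 (x : ℝ) : SS x 0 = 0 := by
  unfold SS
  rw [kk_eq_zero (y := 0 - 1 / 4), kk_eq_zero_of (y := 0 - 3 / 4) 1] <;>
    norm_num [abs_of_pos, abs_of_neg]

theorem SS_1 (x : ℝ) : SS x 1 = 1 := by
  have := SS_add_int x 0 0 1
  simp only [Int.cast_zero, add_zero, Int.cast_one, zero_add] at this
  rw [this, SS_0]; ring

theorem SS_14 (x : ℝ) : SS x (1 / 4) = 1 / 4 + muA x := by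
  unfold SS
  have h1 : (1 / 4 - 1 / 4 : ℝ) = 0 := by norm_num
  rw [h1, kk_zero, kk_eq_zero (y := 1 / 4 - 3 / 4)]
  · ring
  · rw [abs_of_nonpos] <;> norm_num
  · rw [abs_of_nonpos] <;> norm_num

theorem SS_34 (x : ℝ) : SS x (3 / 4) = 3 / 4 - muB x := by
  unfold SS
  have h1 : (3 / 4 - 3 / 4 : ℝ) = 0 := by norm_num
  rw [h1, kk_zero, kk_eq_zero (y := 3 / 4 - 1 / 4)]
  · ring
  · rw [abs_of_nonneg] <;> norm_num
  · rw [abs_of_nonneg] <;> norm_num

end Pool.Agent.N118.SU
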