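import Pool.Agent.N118.SU.Rows

/-!
# The union of the tiles of the patch is the shape
-/

set_option autoImplicit false

open Set Filter Topology

namespace Pool.Agent.N118.SU

/-- each tile is inside the shape -/
theorem mt_subset_shape {M N : ℕ} (hM : 1 ≤ M) (hN : N < M) {K : Kd} {j r : ℤ}
    (h : inP M N K j r) : mt M K j r ⊆ shape M N := by
  have hMr : (1 : ℝ) ≤ M := by exact_mod_cast hM
  have hNr : (N : ℝ) + 1 ≤ M := by exact_mod_cast hN
  intro z hz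
  cases K with
  | A =>
    obtain ⟨h1, h2⟩ := h
    rw [abs_le] at h2
    obtain ⟨ρ, hρ⟩ : ∃ ρ : ℕ, |r| = ρ := ⟨r.natAbs, by simp⟩
    rw [hρ] at h1
    have e0 : ra N r = N - ρ := by rw [ra, hρ]
    rw [e0] at h2
    have e1 : -((N : ℝ) - ρ) ≤ j := by exact_mod_cast h2.1
    have e2 : (j : ℝ) ≤ N - ρ := by exact_mod_cast h2.2
    have e3 : -(ρ : ℝ) ≤ r := by
      have := neg_abs_le r
      rw [hρ] at this
      exact_mod_cast this
    have e4 : (r : ℝ) ≤ ρ := by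
      have := le_abs_self r
      rw [hρ] at this
      exact_mod_cast this
    have f1 := mul_le_mul_of_nonneg_left e1 (show (0 : ℝ) ≤ M by linarith)
    have f2 := mul_le_mul_of_nonneg_left e2 (show (0 : ℝ) ≤ M by linarith)
    rw [mem_mt_A] at hz
    refine ⟨(.A, ρ), mem_ix_A.2 (by exact_mod_cast h1), ?_⟩
    simp only [hw, lo, SU.hi, Box, Set.mem_ofPred_eq]
    rcases hz with ⟨a1, a2, a3, a4⟩ | ⟨a1, a2, a3, a4⟩
    · exact ⟨by linarith, by linarith, by linarith, by linarith⟩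
    · exact ⟨by linarith, by linarith, by linarith, by linarith⟩
  | B =>
    obtain ⟨h1, h2, h3⟩ := h
    have hb := rb_le h1
    have g1 : -(rb N r : ℝ) ≤ j := by exact_mod_cast h2
    have g2 : (j : ℝ) + 1 ≤ rb N r := by exact_mod_cast h3
    have g3 : (rb N r : ℝ) + 1 ≤ M := by
      have : rb N r + 1 ≤ M := by omega
      exact_mod_cast this
    have f1 := mul_le_mul_of_nonneg_left g1 (show (0 : ℝ) ≤ 2 * M + 1 by linarith)
    have f2 := mul_le_mul_of_nonneg_left g2 (show (0 : ℝ) ≤ 2 * M + 1 by linarith)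
    rw [mem_mt_B] at hz
    rcases le_or_gt 0 r with hr | hr
    · obtain ⟨ρ, rfl⟩ := Int.eq_ofNat_of_zero_le hr
      have e0 : rb N ρ = N - ρ := by rw [rb, if_pos hr]
      rw [e0] at hb h2 h3 g1 g2 g3 f1 f2
      have hρ : (0 : ℝ) ≤ ρ := by positivity
      refine ⟨(.B, ρ), mem_ix_B.2 (by omega), ?_⟩
      simp only [hw, lo, SU.hi, Box, Set.mem_ofPred_eq]
      push_cast at *
      rcases hz with ⟨a1, a2, a3, a4⟩ | ⟨a1, a2, a3, a4⟩
      · exact ⟨by linarith, by linarith, by linarith, by linarith⟩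
      · exact ⟨by linarith, by linarith, by linarith, by linarith⟩
    · obtain ⟨ρ, hρ⟩ := Int.eq_ofNat_of_zero_le (show 0 ≤ -r - 1 by omega)
      obtain rfl : r = -ρ - 1 := by omega
      have e0 : rb N (-ρ - 1) = N - ρ := by rw [rb, if_neg (by omega)]; ring
      rw [e0] at hb h2 h3 g1 g2 g3 f1 f2
      have hρ : (0 : ℝ) ≤ ρ := by positivity
      push_cast at *
      rcases hz with ⟨a1, a2, a3, a4⟩ | ⟨a1, a2, a3, a4⟩
      · refine ⟨(.B, ρ), mem_ix_B.2 (by omega), ?_⟩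
        simp only [hw, lo, SU.hi, Box, Set.mem_ofPred_eq]
        exact ⟨by linarith, by linarith, by linarith, by linarith⟩
      · refine ⟨(.V, ρ), mem_ix_V.2 (by omega), ?_⟩
        simp only [hw, lo, SU.hi, Box, Set.mem_ofPred_eq]
        exact ⟨by linarith, by linarith, by linarith, by linarith⟩
  | V =>
    obtain ⟨h1, -, h2, h3⟩ := h
    have g1 : (rl M N r : ℝ) ≤ j := by exact_mod_cast h2
    have g2 : (j : ℝ) + 1 ≤ ru M N r := by exact_mod_cast h3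
    rw [mem_mt_V] at hz
    obtain ⟨a1, a2, a3, a4⟩ := hz
    rcases le_or_gt 0 r with hr | hr
    · obtain ⟨ρ, rfl⟩ := Int.eq_ofNat_of_zero_le hr
      have e0 : rl M N ρ = -(2 * M * (N - ρ)) := by rw [rl, if_pos hr]
      have e1 : ru M N ρ = 2 * M * (N - ρ) + 2 * M := by rw [ru, if_pos hr]
      rw [e0] at g1
      rw [e1] at g2
      push_cast at *
      have hρ : (0 : ℝ) ≤ ρ := by positivity
      rw [abs_of_nonneg hr] at h1
      refine ⟨(.A, ρ), mem_ix_A.2 (by omega), ?_⟩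
      simp only [hw, lo, SU.hi, Box, Set.mem_ofPred_eq]
      exact ⟨by linarith, by linarith, by linarith, by linarith⟩
    · obtain ⟨ρ, hρ⟩ := Int.eq_ofNat_of_zero_le (show 0 ≤ -r - 1 by omega)
      obtain rfl : r = -ρ - 1 := by omega
      have e0 : rl M N (-ρ - 1) = M - 2 * M * (N - ρ) + 1 := by
        rw [rl, if_neg (by omega)]; ring
      have e1 : ru M N (-ρ - 1) = M + 2 * M * (N - ρ) - 1 := by
        rw [ru, if_neg (by omega)]; ring
      rw [e0] at g1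
      rw [e1] at g2
      push_cast at *
      have hρ : (0 : ℝ) ≤ ρ := by positivity
      rw [abs_of_neg hr] at h1
      refine ⟨(.V, ρ), mem_ix_V.2 (by omega), ?_⟩
      simp only [hw, lo, SU.hi, Box, Set.mem_ofPred_eq]
      exact ⟨by linarith, by linarith, by linarith, by linarith⟩

/-- covering of a row -/
theorem row_cover {M N : ℕ} (hM : 1 ≤ M) (hN : N < M) {r : ℤ} (hr : |r| ≤ N) {z : ℂ} {w : ℝ}
    (h1 : (r : ℝ) ≤ z.im) (h2 : z.im ≤ r + 1) (h3 : M - w ≤ z.re) (h4 : z.re ≤ M + w)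
    (hA : z.im < r + 1 / 4 → w ≤ (2 * ra N r + 1) * M)
    (hL : r + 1 / 4 ≤ z.im → z.im < r + 3 / 4 →
      w ≤ ru M N r - M ∧ w ≤ M - rl M N r)
    (hB : r + 3 / 4 < z.im → w ≤ (2 * M + 1) * rb N r ∧ 0 < rb N r)
    (hE : z.im = r + 3 / 4 → (w ≤ ru M N r - M ∧ w ≤ M - rl M N r) ∨
      (w ≤ (2 * M + 1) * rb N r ∧ 0 < rb N r)) :
    ∃ K j, inP M N K j r ∧ z ∈ mt M K j r := by
  rcases lt_or_ge z.im (r + 1 / 4) with c1 | c1
  · have := hA c1
    exact rowA_cover hM hr h1 c1.le (by linarith) (by linarith)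
  rcases lt_trichotomy z.im (r + 3 / 4) with c2 | c2 | c2
  · obtain ⟨b1, b2⟩ := hL c1 c2
    exact rowL_cover hM hN hr c1 c2.le (by linarith) (by linarith)
  · rcases hE c2 with ⟨b1, b2⟩ | ⟨b1, b2⟩
    · exact rowL_cover hM hN hr c1 c2.le (by linarith) (by linarith)
    · exact rowB_cover hr c2.ge h2 b2 (by linarith) (by linarith)
  · obtain ⟨b1, b2⟩ := hB c2
    exact rowB_cover hr c2.le h2 b2 (by linarith) (by linarith)

/-- rows above, real form -/
theorem row_pos {M N : ℕ} {r : ℤ} (hr : 0 ≤ r) : (ra N r : ℝ) = N - r ∧ (rb N r : ℝ) = N - r ∧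
    (rl M N r : ℝ) = -(2 * M * (N - r)) ∧ (ru M N r : ℝ) = 2 * M * (N - r) + 2 * M := by
  unfold ra rb rl ru
  rw [if_pos hr, if_pos hr, if_pos hr, abs_of_nonneg hr]
  push_cast
  exact ⟨rfl, rfl, rfl, rfl⟩

theorem row_neg {M N : ℕ} {r : ℤ} (hr : ¬ 0 ≤ r) : (ra N r : ℝ) = N + r ∧
    (rb N r : ℝ) = N + r + 1 ∧
    (rl M N r : ℝ) = M - 2 * M * (N + r + 1) + 1 ∧
    (ru M N r : ℝ) = M + 2 * M * (N + r + 1) - 1 := by
  unfold ra rb rl ru
  rw [if_neg hr, if_neg hr, if_neg hr, abs_of_neg (show r < 0 by omega)]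
  push_cast
  exact ⟨by ring, rfl, rfl, rfl⟩

theorem cover_A {M N : ℕ} (hM : 1 ≤ M) (hN : N < M) {z : ℂ} {ρ : ℕ} (hi : (Kd.A, ρ) ∈ ix N)
    (h1 : M - hw M N .A ρ ≤ z.re) (h2 : z.re ≤ M + hw M N .A ρ) (h3 : lo .A ρ ≤ z.im)
    (h4 : z.im ≤ SU.hi .A ρ) : ∃ K j r, inP M N K j r ∧ z ∈ mt M K j r := by
  have hMr : (1 : ℝ) ≤ M := by exact_mod_cast hM
  have hNr : (N : ℝ) + 1 ≤ M := by exact_mod_cast hN
  have hρ : (0 : ℝ) ≤ ρ := by positivity
  rw [mem_ix_A] at hi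
  simp only [hw, lo, SU.hi] at h1 h2 h3 h4
  have hi' : (ρ : ℝ) ≤ N := by exact_mod_cast hi
  have f1 := Int.floor_le z.im
  have f2 := Int.lt_floor_add_one z.im
  set r := ⌊z.im⌋ with hr
  have r1 : -(ρ : ℤ) ≤ r := by
    rw [hr, Int.le_floor]; push_cast; exact h3
  have r2 : r ≤ ρ := by
    have : (r : ℝ) < ρ + 1 := by linarith
    have : r < ρ + 1 := by exact_mod_cast this
    omega
  have r1' : -(ρ : ℝ) ≤ r := by exact_mod_cast r1
  have r2' : (r : ℝ) ≤ ρ := by exact_mod_cast r2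
  have hrN : |r| ≤ N := abs_le.2 ⟨by omega, by omega⟩
  have k1 : 0 ≤ (M : ℝ) * (ρ - r) := mul_nonneg (by linarith) (by linarith)
  have k2 : 0 ≤ (M : ℝ) * (ρ + r) := mul_nonneg (by linarith) (by linarith)
  have hlay : (2 * ((N : ℝ) - ρ) + 1) * M ≤ ru M N r - M ∧
      (2 * ((N : ℝ) - ρ) + 1) * M ≤ M - rl M N r := by
    by_cases h0 : 0 ≤ r
    · obtain ⟨e1, e2, e3, e4⟩ := row_pos (M := M) (N := N) h0
      rw [e3, e4]; constructor <;> nlinarith
    · obtain ⟨e1, e2, e3, e4⟩ := row_neg (M := M) (N := N) h0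
      rw [e3, e4]; constructor <;> nlinarith
  have : ∃ K j, inP M N K j r ∧ z ∈ mt M K j r := by
    refine row_cover hM hN hrN f1 f2.le h1 h2 ?_ (fun _ _ => hlay) ?_ (fun _ => Or.inl hlay)
    · intro _
      by_cases h0 : 0 ≤ r
      · obtain ⟨e1, e2, e3, e4⟩ := row_pos (M := M) (N := N) h0
        rw [e1]; nlinarith
      · obtain ⟨e1, e2, e3, e4⟩ := row_neg (M := M) (N := N) h0
        rw [e1]; nlinarith
    · intro hlt
      by_cases h0 : 0 ≤ r
      · obtain ⟨e1, e2, e3, e4⟩ := row_pos (M := M) (N := N) h0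
        have r3 : r < ρ := by
          have : (r : ℝ) < ρ := by linarith
          exact_mod_cast this
        have r3' : (r : ℝ) + 1 ≤ ρ := by exact_mod_cast r3
        have k3 : 0 ≤ (M : ℝ) * (ρ - r - 1) := mul_nonneg (by linarith) (by linarith)
        refine ⟨by rw [e2]; nlinarith, ?_⟩
        have : (0 : ℝ) < rb N r := by rw [e2]; linarith
        exact_mod_cast this
      · obtain ⟨e1, e2, e3, e4⟩ := row_neg (M := M) (N := N) h0
        refine ⟨by rw [e2]; nlinarith, ?_⟩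
        have : (0 : ℝ) < rb N r := by rw [e2]; linarith
        exact_mod_cast this
  obtain ⟨K, j, hK⟩ := this
  exact ⟨K, j, r, hK⟩

theorem cover_B {M N : ℕ} (hM : 1 ≤ M) (hN : N < M) {z : ℂ} {ρ : ℕ} (hi : (Kd.B, ρ) ∈ ix N)
    (h1 : M - hw M N .B ρ ≤ z.re) (h2 : z.re ≤ M + hw M N .B ρ) (h3 : lo .B ρ ≤ z.im)
    (h4 : z.im ≤ SU.hi .B ρ) : ∃ K j r, inP M N K j r ∧ z ∈ mt M K j r := by
  have hMr : (1 : ℝ) ≤ M := by exact_mod_cast hM
  have hNr : (N : ℝ) + 1 ≤ M := by exact_mod_cast hN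
  have hρ : (0 : ℝ) ≤ ρ := by positivity
  rw [mem_ix_B] at hi
  simp only [hw, lo, SU.hi] at h1 h2 h3 h4
  have hi' : (ρ : ℝ) + 1 ≤ N := by exact_mod_cast hi
  have f1 := Int.ceil_lt_add_one z.im
  have f2 := Int.le_ceil z.im
  obtain ⟨r, hr⟩ : ∃ r : ℤ, ⌈z.im⌉ = r + 1 := ⟨⌈z.im⌉ - 1, by ring⟩
  rw [hr] at f1 f2
  push_cast at f1 f2
  have r1 : -(ρ : ℤ) ≤ r + 1 := by
    have : -(ρ : ℝ) < r + 1 + 1 := by linarith
    have : -(ρ : ℤ) < r + 1 + 1 := by exact_mod_cast this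
    omega
  have r2 : r ≤ ρ := by
    have : ⌈z.im⌉ ≤ ρ + 1 := by rw [Int.ceil_le]; push_cast; exact h4
    omega
  have r1' : -(ρ : ℝ) ≤ r + 1 := by exact_mod_cast r1
  have r2' : (r : ℝ) ≤ ρ := by exact_mod_cast r2
  have hrN : |r| ≤ N := abs_le.2 ⟨by omega, by omega⟩
  have k1 : 0 ≤ (M : ℝ) * (ρ - r) := mul_nonneg (by linarith) (by linarith)
  have k2 : 0 ≤ (M : ℝ) * (ρ + r + 1) := mul_nonneg (by linarith) (by linarith)
  have hbnd : (2 * (M : ℝ) + 1) * (N - ρ) ≤ (2 * M + 1) * rb N r ∧ 0 < rb N r := by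
    by_cases h0 : 0 ≤ r
    · obtain ⟨e1, e2, e3, e4⟩ := row_pos (M := M) (N := N) h0
      refine ⟨by rw [e2]; nlinarith, ?_⟩
      have : (0 : ℝ) < rb N r := by rw [e2]; linarith
      exact_mod_cast this
    · obtain ⟨e1, e2, e3, e4⟩ := row_neg (M := M) (N := N) h0
      refine ⟨by rw [e2]; nlinarith, ?_⟩
      have : (0 : ℝ) < rb N r := by rw [e2]; linarith
      exact_mod_cast this
  have : ∃ K j, inP M N K j r ∧ z ∈ mt M K j r := by
    refine row_cover hM hN hrN (by linarith) f2 h1 h2 ?_ ?_ (fun _ => hbnd) (fun _ => Or.inr hbnd)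
    · intro hle
      by_cases h0 : 0 ≤ r
      · obtain ⟨e1, e2, e3, e4⟩ := row_pos (M := M) (N := N) h0
        rw [e1]; nlinarith
      · obtain ⟨e1, e2, e3, e4⟩ := row_neg (M := M) (N := N) h0
        have r3 : -(ρ : ℤ) ≤ r := by
          have : -(ρ : ℝ) < r + 1 := by linarith
          have : -(ρ : ℤ) < r + 1 := by exact_mod_cast this
          omega
        have r3' : -(ρ : ℝ) ≤ r := by exact_mod_cast r3
        have k3 : 0 ≤ (M : ℝ) * (ρ + r) := mul_nonneg (by linarith) (by linarith)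
        rw [e1]; nlinarith
    · intro _ hle
      by_cases h0 : 0 ≤ r
      · obtain ⟨e1, e2, e3, e4⟩ := row_pos (M := M) (N := N) h0
        rw [e3, e4]; constructor <;> nlinarith
      · obtain ⟨e1, e2, e3, e4⟩ := row_neg (M := M) (N := N) h0
        have r3 : -(ρ : ℤ) ≤ r := by
          have : -(ρ : ℝ) < r + 1 := by linarith
          have : -(ρ : ℤ) < r + 1 := by exact_mod_cast this
          omega
        have r3' : -(ρ : ℝ) ≤ r := by exact_mod_cast r3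
        have k3 : 0 ≤ (M : ℝ) * (ρ + r) := mul_nonneg (by linarith) (by linarith)
        rw [e3, e4]; constructor <;> nlinarith
  obtain ⟨K, j, hK⟩ := this
  exact ⟨K, j, r, hK⟩

theorem cover_V {M N : ℕ} (hM : 1 ≤ M) (hN : N < M) {z : ℂ} {ρ : ℕ} (hi : (Kd.V, ρ) ∈ ix N)
    (h1 : M - hw M N .V ρ ≤ z.re) (h2 : z.re ≤ M + hw M N .V ρ) (h3 : lo .V ρ ≤ z.im)
    (h4 : z.im ≤ SU.hi .V ρ) : ∃ K j r, inP M N K j r ∧ z ∈ mt M K j r := by
  have hMr : (1 : ℝ) ≤ M := by exact_mod_cast hM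
  have hNr : (N : ℝ) + 1 ≤ M := by exact_mod_cast hN
  have hρ : (0 : ℝ) ≤ ρ := by positivity
  rw [mem_ix_V] at hi
  simp only [hw, lo, SU.hi] at h1 h2 h3 h4
  have hi' : (ρ : ℝ) + 1 ≤ N := by exact_mod_cast hi
  have f1 := Int.ceil_lt_add_one z.im
  have f2 := Int.le_ceil z.im
  obtain ⟨r, hr⟩ : ∃ r : ℤ, ⌈z.im⌉ = r + 1 := ⟨⌈z.im⌉ - 1, by ring⟩
  rw [hr] at f1 f2
  push_cast at f1 f2
  have r1 : -(ρ : ℤ) ≤ r + 1 := by
    have : -(ρ : ℝ) < r + 1 + 1 := by linarith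
    have : -(ρ : ℤ) < r + 1 + 1 := by exact_mod_cast this
    omega
  have r2 : r ≤ ρ := by
    have : ⌈z.im⌉ ≤ ρ + 1 := by rw [Int.ceil_le]; push_cast; exact h4
    omega
  have r1' : -(ρ : ℝ) ≤ r + 1 := by exact_mod_cast r1
  have r2' : (r : ℝ) ≤ ρ := by exact_mod_cast r2
  have hrN : |r| ≤ N := abs_le.2 ⟨by omega, by omega⟩
  have k1 : 0 ≤ (M : ℝ) * (ρ - r) := mul_nonneg (by linarith) (by linarith)
  have k2 : 0 ≤ (M : ℝ) * (ρ + r + 1) := mul_nonneg (by linarith) (by linarith)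
  have hbnd : 2 * (M : ℝ) * (N - ρ) - 1 ≤ (2 * M + 1) * rb N r ∧ 0 < rb N r := by
    by_cases h0 : 0 ≤ r
    · obtain ⟨e1, e2, e3, e4⟩ := row_pos (M := M) (N := N) h0
      refine ⟨by rw [e2]; nlinarith, ?_⟩
      have : (0 : ℝ) < rb N r := by rw [e2]; linarith
      exact_mod_cast this
    · obtain ⟨e1, e2, e3, e4⟩ := row_neg (M := M) (N := N) h0
      refine ⟨by rw [e2]; nlinarith, ?_⟩
      have : (0 : ℝ) < rb N r := by rw [e2]; linarith
      exact_mod_cast this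
  have : ∃ K j, inP M N K j r ∧ z ∈ mt M K j r := by
    refine row_cover hM hN hrN (by linarith) f2 h1 h2 ?_ ?_ (fun _ => hbnd) (fun _ => Or.inr hbnd)
    · intro hle
      by_cases h0 : 0 ≤ r
      · obtain ⟨e1, e2, e3, e4⟩ := row_pos (M := M) (N := N) h0
        rw [e1]; nlinarith
      · obtain ⟨e1, e2, e3, e4⟩ := row_neg (M := M) (N := N) h0
        rw [e1]
        -- the lowest row has no band of `A`
        have r4 : -(ρ : ℤ) ≤ r := by
          by_contra h5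
          have h6 : r + 1 = -(ρ : ℤ) := by omega
          have h7 : (r : ℝ) + 1 = -(ρ : ℝ) := by exact_mod_cast h6
          linarith
        have r4' : -(ρ : ℝ) ≤ r := by exact_mod_cast r4
        have k4 : 0 ≤ (M : ℝ) * (ρ + r) := mul_nonneg (by linarith) (by linarith)
        nlinarith
    · intro _ hle
      by_cases h0 : 0 ≤ r
      · obtain ⟨e1, e2, e3, e4⟩ := row_pos (M := M) (N := N) h0
        rw [e3, e4]; constructor <;> nlinarith
      · obtain ⟨e1, e2, e3, e4⟩ := row_neg (M := M) (N := N) h0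
        rw [e3, e4]; constructor <;> nlinarith
  obtain ⟨K, j, hK⟩ := this
  exact ⟨K, j, r, hK⟩

theorem shape_cover {M N : ℕ} (hM : 1 ≤ M) (hN : N < M) {z : ℂ} (hz : z ∈ shape M N) :
    ∃ K j r, inP M N K j r ∧ z ∈ mt M K j r := by
  obtain ⟨⟨K, ρ⟩, hi, h1, h2, h3, h4⟩ := hz
  cases K with
  | A => exact cover_A hM hN hi h1 h2 h3 h4
  | B => exact cover_B hM hN hi h1 h2 h3 h4
  | V => exact cover_V hM hN hi h1 h2 h3 h4

/-- the union of the tiles -/
theorem mem_shape_iff {M N : ℕ} (hM : 1 ≤ M) (hN : N < M) {z : ℂ} :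
    z ∈ shape M N ↔ ∃ K j r, inP M N K j r ∧ z ∈ mt M K j r :=
  ⟨shape_cover hM hN, fun ⟨_, _, _, h1, h2⟩ => mt_subset_shape hM hN h1 h2⟩

end Pool.Agent.N118.SU
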