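import Pool.Agent.N118.SU.Patch

/-!
# The rows of the patches
-/

set_option autoImplicit false

open Set Filter Topology

namespace Pool.Agent.N118.SU

/-- number of tiles of kind `A` on each side in the row `r` -/
def ra (N : ℕ) (r : ℤ) : ℤ := N - |r|

/-- number of tiles of kind `B` on each side in the row `r` -/
def rb (N : ℕ) (r : ℤ) : ℤ := if 0 ≤ r then N - r else N + r + 1

/-- left end of the layer in the row `r` -/
def rl (M N : ℕ) (r : ℤ) : ℤ := if 0 ≤ r then -(2 * M * (N - r)) else M - 2 * M * (N + r + 1) + 1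

/-- right end of the layer in the row `r` -/
def ru (M N : ℕ) (r : ℤ) : ℤ :=
  if 0 ≤ r then 2 * M * (N - r) + 2 * M else M + 2 * M * (N + r + 1) - 1

/-- the positions of the tiles of the patch `N` -/
def inP (M N : ℕ) : Kd → ℤ → ℤ → Prop
  | .A, j, r => |r| ≤ N ∧ |j| ≤ ra N r
  | .B, j, r => |r| ≤ N ∧ -rb N r ≤ j ∧ j < rb N r
  | .V, n, r => |r| ≤ N ∧ NonPillar M n ∧ rl M N r ≤ n ∧ n < ru M N r

theorem rb_le {N : ℕ} {r : ℤ} (hr : |r| ≤ N) : rb N r ≤ N ∧ 0 ≤ rb N r := by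
  unfold rb
  rw [abs_le] at hr
  split_ifs <;> constructor <;> omega

theorem inP_inU {M N : ℕ} (hN : N < M) {K : Kd} {j r : ℤ} (h : inP M N K j r) : inU M K j := by
  cases K with
  | A => trivial
  | B =>
    obtain ⟨h1, h2, h3⟩ := h
    have := rb_le h1
    show |j| < M
    rw [abs_lt]
    constructor <;> omega
  | V => exact h.2.1

/-- the pillars of `A` in the layer -/
theorem pillA {M N : ℕ} (hM : 1 ≤ M) {j r : ℤ} (hr : |r| ≤ N) :
    (rl M N r ≤ 2 * M * j + M ∧ 2 * M * j + M < ru M N r) ↔ |j| ≤ ra N r := by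
  have hM' : (1 : ℤ) ≤ M := by exact_mod_cast hM
  rw [abs_le] at hr
  unfold ra rl ru
  split_ifs with h
  · rw [abs_of_nonneg h, abs_le]
    constructor
    · rintro ⟨h1, h2⟩
      constructor
      · by_contra h3
        push Not at h3
        have : M * (j + 1) ≤ M * (-(N - r)) := mul_le_mul_of_nonneg_left (by omega) (by omega)
        nlinarith
      · by_contra h3
        push Not at h3
        have : M * (N - r + 1) ≤ M * j := mul_le_mul_of_nonneg_left (by omega) (by omega)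
        nlinarith
    · rintro ⟨h1, h2⟩
      have e1 : M * (-(N - r)) ≤ M * j := mul_le_mul_of_nonneg_left h1 (by omega)
      have e2 : M * j ≤ M * (N - r) := mul_le_mul_of_nonneg_left h2 (by omega)
      constructor <;> nlinarith
  · rw [abs_of_neg (show r < 0 by omega), abs_le]
    constructor
    · rintro ⟨h1, h2⟩
      constructor
      · by_contra h3
        push Not at h3
        have : M * (j + 1) ≤ M * (-(N - -r)) := mul_le_mul_of_nonneg_left (by omega) (by omega)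
        nlinarith
      · by_contra h3
        push Not at h3
        have : M * (N - -r + 1) ≤ M * j := mul_le_mul_of_nonneg_left (by omega) (by omega)
        nlinarith
    · rintro ⟨h1, h2⟩
      have e1 : M * (-(N - -r)) ≤ M * j := mul_le_mul_of_nonneg_left h1 (by omega)
      have e2 : M * j ≤ M * (N - -r) := mul_le_mul_of_nonneg_left h2 (by omega)
      constructor <;> nlinarith

/-- the pillars of `B` in the layer -/
theorem pillB {M N : ℕ} (hN : N < M) {j r : ℤ} (hr : |r| ≤ N) :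
    (rl M N r ≤ (2 * M + 1) * j + 2 * M ∧ (2 * M + 1) * j + 2 * M < ru M N r) ↔
      (-rb N r ≤ j ∧ j < rb N r) := by
  have hN' : (N : ℤ) < M := by exact_mod_cast hN
  have hb := rb_le hr
  rw [abs_le] at hr
  unfold rb at *
  unfold rl ru
  split_ifs at * with h
  · constructor
    · rintro ⟨h1, h2⟩
      constructor
      · by_contra h3
        push Not at h3
        have : (2 * M + 1) * (j + 1) ≤ (2 * M + 1) * (-(N - r)) :=
          mul_le_mul_of_nonneg_left (by omega) (by omega)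
        nlinarith
      · by_contra h3
        push Not at h3
        have : (2 * M + 1) * (N - r) ≤ (2 * M + 1) * j :=
          mul_le_mul_of_nonneg_left (by omega) (by omega)
        nlinarith
    · rintro ⟨h1, h2⟩
      have e1 : (2 * M + 1) * (-(N - r)) ≤ (2 * M + 1) * j :=
        mul_le_mul_of_nonneg_left h1 (by omega)
      have e2 : (2 * M + 1) * (j + 1) ≤ (2 * M + 1) * (N - r) :=
        mul_le_mul_of_nonneg_left (by omega) (by omega)
      constructor <;> nlinarith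
  · constructor
    · rintro ⟨h1, h2⟩
      constructor
      · by_contra h3
        push Not at h3
        have : (2 * M + 1) * (j + 1) ≤ (2 * M + 1) * (-(N + r + 1)) :=
          mul_le_mul_of_nonneg_left (by omega) (by omega)
        nlinarith
      · by_contra h3
        push Not at h3
        have : (2 * M + 1) * (N + r + 1) ≤ (2 * M + 1) * j :=
          mul_le_mul_of_nonneg_left (by omega) (by omega)
        nlinarith
    · rintro ⟨h1, h2⟩
      have e1 : (2 * M + 1) * (-(N + r + 1)) ≤ (2 * M + 1) * j :=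
        mul_le_mul_of_nonneg_left h1 (by omega)
      have e2 : (2 * M + 1) * (j + 1) ≤ (2 * M + 1) * (N + r + 1) :=
        mul_le_mul_of_nonneg_left (by omega) (by omega)
      constructor <;> nlinarith

/-- cells of an interval -/
theorem exists_cellZ (p c lo hi : ℤ) (hp : 0 < p) (hlh : lo < hi) {x : ℝ}
    (h1 : ((p * lo + c : ℤ) : ℝ) ≤ x) (h2 : x ≤ ((p * hi + c : ℤ) : ℝ)) :
    ∃ j : ℤ, lo ≤ j ∧ j < hi ∧ ((p * j + c : ℤ) : ℝ) ≤ x ∧ x ≤ ((p * j + c + p : ℤ) : ℝ) := by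
  have hp' : (0 : ℝ) < p := by exact_mod_cast hp
  push_cast at h1 h2
  rcases h2.lt_or_eq with h3 | h3
  · refine ⟨⌊(x - c) / p⌋, ?_, ?_, ?_, ?_⟩
    · rw [Int.le_floor, le_div_iff₀ hp']
      linarith
    · rw [Int.floor_lt, div_lt_iff₀ hp']
      linarith
    · push_cast
      have := Int.floor_le ((x - c) / p)
      rw [le_div_iff₀ hp'] at this
      linarith
    · push_cast
      have := (Int.lt_floor_add_one ((x - c) / p)).le
      rw [div_le_iff₀ hp'] at this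
      linarith
  · refine ⟨hi - 1, by omega, by omega, ?_, ?_⟩
    · push_cast
      rw [h3]; nlinarith
    · push_cast
      rw [h3]; nlinarith

theorem rowA_cover {M N : ℕ} (hM : 1 ≤ M) {r : ℤ} (hr : |r| ≤ N) {z : ℂ} (h1 : (r : ℝ) ≤ z.im)
    (h2 : z.im ≤ r + 1 / 4) (h3 : M - (2 * ra N r + 1) * M ≤ z.re)
    (h4 : z.re ≤ M + (2 * ra N r + 1) * M) : ∃ K j, inP M N K j r ∧ z ∈ mt M K j r := by
  have hM' : (1 : ℤ) ≤ M := by exact_mod_cast hM
  obtain ⟨j, j1, j2, j3, j4⟩ := exists_cellZ (2 * M) 0 (-ra N r) (ra N r + 1) (by omega)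
    (by unfold ra; omega) (x := z.re) (by push_cast; linarith) (by push_cast; linarith)
  refine ⟨.A, j, ⟨hr, abs_le.2 ⟨j1, by omega⟩⟩, ?_⟩
  rw [mem_mt_A]
  push_cast at j3 j4
  left
  exact ⟨by linarith, by linarith, h1, h2⟩

theorem rowB_cover {M N : ℕ} {r : ℤ} (hr : |r| ≤ N) {z : ℂ}
    (h1 : (r : ℝ) + 3 / 4 ≤ z.im) (h2 : z.im ≤ r + 1) (hb : 0 < rb N r)
    (h3 : M - (2 * M + 1) * rb N r ≤ z.re) (h4 : z.re ≤ M + (2 * M + 1) * rb N r) :
    ∃ K j, inP M N K j r ∧ z ∈ mt M K j r := by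
  obtain ⟨j, j1, j2, j3, j4⟩ := exists_cellZ (2 * M + 1) M (-rb N r) (rb N r) (by omega)
    (by omega) (x := z.re) (by push_cast; linarith) (by push_cast; linarith)
  refine ⟨.B, j, ⟨hr, j1, j2⟩, ?_⟩
  rw [mem_mt_B]
  push_cast at j3 j4
  left
  exact ⟨by linarith, by linarith, h1, h2⟩

theorem rowL_cover {M N : ℕ} (hM : 1 ≤ M) (hN : N < M) {r : ℤ} (hr : |r| ≤ N) {z : ℂ}
    (h1 : (r : ℝ) + 1 / 4 ≤ z.im) (h2 : z.im ≤ r + 3 / 4)
    (h3 : (rl M N r : ℝ) ≤ z.re) (h4 : z.re ≤ ru M N r) :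
    ∃ K j, inP M N K j r ∧ z ∈ mt M K j r := by
  have hlu : rl M N r < ru M N r := by
    have := (pillA (M := M) (N := N) hM (j := 0) hr).2 (by unfold ra; rw [abs_zero]; omega)
    omega
  obtain ⟨n, n1, n2, n3, n4⟩ := exists_cellZ 1 0 (rl M N r) (ru M N r) (by omega)
    hlu (x := z.re) (by push_cast; linarith) (by push_cast; linarith)
  push_cast at n3 n4
  by_cases hA : ∃ j : ℤ, n = 2 * M * j + M
  · obtain ⟨j, rfl⟩ := hA
    refine ⟨.A, j, ⟨hr, (pillA hM hr).1 ⟨n1, n2⟩⟩, ?_⟩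
    rw [mem_mt_A]
    push_cast at n3 n4
    right
    exact ⟨by linarith, by linarith, by linarith, h2⟩
  by_cases hB : ∃ j : ℤ, |j| < M ∧ n = (2 * M + 1) * j + 2 * M
  · obtain ⟨j, hj, rfl⟩ := hB
    refine ⟨.B, j, ⟨hr, (pillB hN hr).1 ⟨n1, n2⟩⟩, ?_⟩
    rw [mem_mt_B]
    push_cast at n3 n4
    right
    exact ⟨by linarith, by linarith, h1, by linarith⟩
  refine ⟨.V, n, ⟨hr, ⟨?_, ?_⟩, n1, n2⟩, ?_⟩
  · intro j hj
    exact hA ⟨j, hj⟩
  · intro j hj hn
    exact hB ⟨j, hj, hn⟩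
  · rw [mem_mt_V]
    exact ⟨by linarith, by linarith, h1, h2⟩

/-! ### the shape of the patch -/

/-- half width of the boxes -/
def hw (M N : ℕ) : Kd → ℕ → ℝ
  | .A, ρ => (2 * (N - ρ) + 1) * M
  | .B, ρ => (2 * M + 1) * (N - ρ)
  | .V, ρ => 2 * M * (N - ρ) - 1

/-- bottom of the boxes -/
noncomputable def lo : Kd → ℕ → ℝ
  | .A, ρ => -ρ
  | .B, ρ => -ρ - 1 / 4
  | .V, ρ => -ρ - 3 / 4

/-- top of the boxes -/
noncomputable def hi : Kd → ℕ → ℝ
  | .A, ρ => ρ + 3 / 4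
  | .B, ρ => ρ + 1
  | .V, ρ => ρ + 1

/-- index set of the boxes -/
def ix (N : ℕ) : Finset (Kd × ℕ) :=
  ((Finset.range (N + 1)).image fun ρ => (Kd.A, ρ)) ∪
    (((Finset.range N).image fun ρ => (Kd.B, ρ)) ∪ (Finset.range N).image fun ρ => (Kd.V, ρ))

theorem mem_ix_A {N ρ : ℕ} : (Kd.A, ρ) ∈ ix N ↔ ρ ≤ N := by
  simp [ix]

theorem mem_ix_B {N ρ : ℕ} : (Kd.B, ρ) ∈ ix N ↔ ρ < N := by
  simp [ix]

theorem mem_ix_V {N ρ : ℕ} : (Kd.V, ρ) ∈ ix N ↔ ρ < N := by
  simp [ix]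

/-- the shape of the patch -/
def shape (M N : ℕ) : Set ℂ :=
  {z | ∃ i ∈ ix N, z ∈ Box (M - hw M N i.1 i.2) (M + hw M N i.1 i.2) (lo i.1 i.2) (hi i.1 i.2)}

theorem hw_pos {M N : ℕ} (hM : 1 ≤ M) {i : Kd × ℕ} (hi : i ∈ ix N) : 0 < hw M N i.1 i.2 := by
  have hM' : (1 : ℝ) ≤ M := by exact_mod_cast hM
  obtain ⟨K, ρ⟩ := i
  cases K with
  | A =>
    rw [mem_ix_A] at hi
    have : (ρ : ℝ) ≤ N := by exact_mod_cast hi
    show 0 < (2 * ((N : ℝ) - ρ) + 1) * M
    have h2 : 0 < 2 * ((N : ℝ) - ρ) + 1 := by linarith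
    positivity
  | B =>
    rw [mem_ix_B] at hi
    have : (ρ : ℝ) < N := by exact_mod_cast hi
    show 0 < (2 * (M : ℝ) + 1) * (N - ρ)
    have h2 : 0 < (N : ℝ) - ρ := by linarith
    positivity
  | V =>
    rw [mem_ix_V] at hi
    have : (ρ : ℝ) + 1 ≤ N := by exact_mod_cast hi
    show 0 < 2 * (M : ℝ) * (N - ρ) - 1
    nlinarith

theorem isClosedDisk_shape {M N : ℕ} (hM : 1 ≤ M) : IsClosedDisk (shape M N) := by
  refine isClosedDisk_boxes (ix N) ⟨(.A, 0), mem_ix_A.2 (Nat.zero_le _)⟩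
    (fun i => M - hw M N i.1 i.2) (fun i => M + hw M N i.1 i.2) (fun i => lo i.1 i.2)
    (fun i => SU.hi i.1 i.2) ⟨M, 1 / 4⟩ (fun i hi => ?_) (fun z => Iff.rfl)
  have h1 := hw_pos hM hi
  refine ⟨by simp only; linarith, by simp only; linarith, ?_, ?_⟩
  · obtain ⟨K, ρ⟩ := i
    have : (0 : ℝ) ≤ ρ := by positivity
    cases K <;> simp only [lo] <;> linarith
  · obtain ⟨K, ρ⟩ := i
    have : (0 : ℝ) ≤ ρ := by positivity
    cases K <;> simp only [SU.hi] <;> linarith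

/-- the shapes are nested -/
theorem shape_subset_interior {M N : ℕ} (hN : N < M) :
    shape M N ⊆ interior (shape M (N + 1)) := by
  have hN' : (N : ℝ) < M := by exact_mod_cast hN
  rintro z ⟨⟨K, ρ⟩, hi, h1, h2, h3, h4⟩
  have hρ : (0 : ℝ) ≤ ρ := by positivity
  have key : ∀ i ∈ ix (N + 1), M - hw M (N + 1) i.1 i.2 < z.re → z.re < M + hw M (N + 1) i.1 i.2 →
      lo i.1 i.2 < z.im → z.im < SU.hi i.1 i.2 → z ∈ interior (shape M (N + 1)) := by
    intro i hi a1 a2 a3 a4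
    have hsub : Box (M - hw M (N + 1) i.1 i.2) (M + hw M (N + 1) i.1 i.2)
      (lo i.1 i.2) (SU.hi i.1 i.2) ⊆ shape M (N + 1) := fun w hw => ⟨i, hi, hw⟩
    refine interior_mono hsub ?_
    rw [mem_interior_box]
    exact ⟨a1, a2, a3, a4⟩
  cases K with
  | A =>
    rw [mem_ix_A] at hi
    have hr : (ρ : ℝ) ≤ N := by exact_mod_cast hi
    refine key (.B, ρ) (mem_ix_B.2 (by omega)) ?_ ?_ ?_ ?_ <;>
      simp only [hw, lo, SU.hi] at * <;> push_cast <;> nlinarith
  | B =>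
    rw [mem_ix_B] at hi
    have hr : (ρ : ℝ) + 1 ≤ N := by exact_mod_cast hi
    refine key (.A, ρ + 1) (mem_ix_A.2 (by omega)) ?_ ?_ ?_ ?_ <;>
      simp only [hw, lo, SU.hi] at * <;> push_cast <;> nlinarith
  | V =>
    rw [mem_ix_V] at hi
    have hr : (ρ : ℝ) + 1 ≤ N := by exact_mod_cast hi
    refine key (.A, ρ + 1) (mem_ix_A.2 (by omega)) ?_ ?_ ?_ ?_ <;>
      simp only [hw, lo, SU.hi] at * <;> push_cast <;> nlinarith

end Pool.Agent.N118.SU
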