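import Mathlib

/-!
# The spike functions
-/

set_option autoImplicit false

open Set Filter Topology

namespace Pool.Agent.N118.SU

/-- the spike of height `1/32` at `0`; its tip is `{-c1 s² ≤ u ≤ c2 s²}` -/
noncomputable def spk (c1 c2 u : ℝ) : ℝ := max 0 (1 / 32 - Real.sqrt (max (u / c2) (-u / c1)))

theorem spk_continuous {c1 c2 : ℝ} : Continuous (spk c1 c2) := by
  unfold spk; fun_prop

theorem spk_nonneg (c1 c2 u : ℝ) : 0 ≤ spk c1 c2 u := le_max_left _ _

theorem spk_le (c1 c2 u : ℝ) : spk c1 c2 u ≤ 1 / 32 := by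
  unfold spk
  apply max_le (by norm_num)
  have := Real.sqrt_nonneg (max (u / c2) (-u / c1))
  linarith

theorem spk_zero (c1 c2 : ℝ) : spk c1 c2 0 = 1 / 32 := by
  unfold spk
  simp

variable {c1 c2 : ℝ}

theorem le_spk_iff (h1 : 0 < c1) (h2 : 0 < c2) {s u : ℝ} (hs : 0 ≤ s) (hs' : s < 1 / 32) :
    1 / 32 - s ≤ spk c1 c2 u ↔ -(c1 * s ^ 2) ≤ u ∧ u ≤ c2 * s ^ 2 := by
  unfold spk
  rw [le_max_iff]
  constructor
  · rintro (h | h)
    · linarith
    · have h3 : Real.sqrt (max (u / c2) (-u / c1)) ≤ s := by linarith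
      rw [Real.sqrt_le_iff] at h3
      obtain ⟨_, h4⟩ := h3
      rw [max_le_iff, div_le_iff₀ h2, div_le_iff₀ h1] at h4
      constructor <;> nlinarith [h4.1, h4.2]
  · rintro ⟨h3, h4⟩
    right
    have h5 : Real.sqrt (max (u / c2) (-u / c1)) ≤ s := by
      rw [Real.sqrt_le_iff]
      refine ⟨hs, ?_⟩
      rw [max_le_iff, div_le_iff₀ h2, div_le_iff₀ h1]
      constructor <;> nlinarith
    linarith

theorem spk_eq_zero (h1 : 0 < c1) (h2 : 0 < c2) (h1' : c1 ≤ 8) (h2' : c2 ≤ 8) {u : ℝ}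
    (hu : 1 / 128 ≤ |u|) : spk c1 c2 u = 0 := by
  unfold spk
  apply max_eq_left
  have h3 : (1 / 32 : ℝ) ≤ Real.sqrt (max (u / c2) (-u / c1)) := by
    apply Real.le_sqrt_of_sq_le
    rcases abs_cases u with ⟨h4, h5⟩ | ⟨h4, h5⟩
    · refine le_trans ?_ (le_max_left _ _)
      rw [le_div_iff₀ h2]
      nlinarith
    · refine le_trans ?_ (le_max_right _ _)
      rw [le_div_iff₀ h1]
      nlinarith
  linarith

theorem spk_anti (h1 : 0 < c1) (h2 : 0 < c2) {u v : ℝ} (hu : 0 ≤ u) (huv : u ≤ v) :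
    spk c1 c2 v ≤ spk c1 c2 u := by
  unfold spk
  apply max_le_max le_rfl
  have h3 : Real.sqrt (max (u / c2) (-u / c1)) ≤ Real.sqrt (max (v / c2) (-v / c1)) := by
    apply Real.sqrt_le_sqrt
    apply max_le
    · exact le_trans (div_le_div_of_nonneg_right huv h2.le) (le_max_left _ _)
    · refine le_trans ?_ (le_max_left _ _)
      refine le_trans (b := 0) ?_ (div_nonneg (hu.trans huv) h2.le)
      exact div_nonpos_of_nonpos_of_nonneg (by linarith) h1.le
  linarith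

theorem spk_mono (h1 : 0 < c1) (h2 : 0 < c2) {u v : ℝ} (huv : u ≤ v) (hv : v ≤ 0) :
    spk c1 c2 u ≤ spk c1 c2 v := by
  unfold spk
  apply max_le_max le_rfl
  have h3 : Real.sqrt (max (v / c2) (-v / c1)) ≤ Real.sqrt (max (u / c2) (-u / c1)) := by
    apply Real.sqrt_le_sqrt
    apply max_le
    · refine le_trans ?_ (le_max_right _ _)
      refine le_trans (b := 0) (div_nonpos_of_nonpos_of_nonneg hv h2.le) ?_
      exact div_nonneg (by linarith) h1.le
    · exact le_trans (div_le_div_of_nonneg_right (by linarith) h1.le) (le_max_right _ _)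
  linarith

/-- an interval on which the spike is at least `v` -/
theorem spk_up (h1 : 0 < c1) (h2 : 0 < c2) {R u v : ℝ} (hR : 0 < R) (hu : -R ≤ u) (hu' : u ≤ R)
    (hv : v ≤ spk c1 c2 u) (hne : ¬ (u = 0 ∧ v = 1 / 32)) :
    ∃ p q : ℝ, p < q ∧ -R ≤ p ∧ p ≤ u ∧ u ≤ q ∧ q ≤ R ∧ ∀ w, p ≤ w → w ≤ q → v ≤ spk c1 c2 w := by
  rcases lt_trichotomy u 0 with h | h | h
  · exact ⟨u, 0, h, hu, le_rfl, h.le, hR.le, fun w hw hw' => hv.trans (spk_mono h1 h2 hw hw')⟩
  · subst h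
    rw [spk_zero] at hv
    have hv' : v < 1 / 32 := lt_of_le_of_ne hv fun h => hne ⟨rfl, h⟩
    set s := min (1 / 32 - v) (1 / 64) with hs
    have hs0 : 0 < s := lt_min (by linarith) (by norm_num)
    have hs1 : s ≤ 1 / 64 := min_le_right _ _
    have hs2 : s ≤ 1 / 32 - v := min_le_left _ _
    have hq : 0 < min (c2 * s ^ 2) R := lt_min (by positivity) hR
    refine ⟨0, min (c2 * s ^ 2) R, hq, by linarith, le_rfl, hq.le, min_le_right _ _, ?_⟩
    intro w hw hw'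
    have h3 : 1 / 32 - s ≤ spk c1 c2 w := by
      rw [le_spk_iff h1 h2 hs0.le (by linarith)]
      exact ⟨by have : 0 < c1 * s ^ 2 := by positivity
                linarith, hw'.trans (min_le_left _ _)⟩
    linarith
  · exact ⟨0, u, h, by linarith, h.le, le_rfl, hu', fun w hw hw' => hv.trans (spk_anti h1 h2 hw hw')⟩

/-- an interval on which the spike is at most `v` -/
theorem spk_dn (h1 : 0 < c1) (h2 : 0 < c2) (h1' : c1 ≤ 8) (h2' : c2 ≤ 8) {R u v : ℝ}
    (hR : 1 / 64 ≤ R) (hu : -R ≤ u) (hu' : u ≤ R) (hv : spk c1 c2 u ≤ v) :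
    ∃ p q : ℝ, p < q ∧ -R ≤ p ∧ p ≤ u ∧ u ≤ q ∧ q ≤ R ∧ ∀ w, p ≤ w → w ≤ q → spk c1 c2 w ≤ v := by
  have hv0 : 0 ≤ v := (spk_nonneg c1 c2 u).trans hv
  rcases le_total 0 u with h | h
  · rcases hu'.lt_or_eq with h3 | h3
    · exact ⟨u, R, h3, hu, le_rfl, h3.le, le_rfl,
        fun w hw hw' => (spk_anti h1 h2 h hw).trans hv⟩
    · subst h3
      refine ⟨u / 2, u, by linarith, by linarith, by linarith, le_rfl, le_rfl, fun w hw hw' => ?_⟩
      rw [spk_eq_zero h1 h2 h1' h2']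
      · exact hv0
      · rw [abs_of_nonneg (by linarith)]; linarith
  · rcases hu.lt_or_eq with h3 | h3
    · exact ⟨-R, u, h3, le_rfl, h3.le, le_rfl, hu',
        fun w hw hw' => (spk_mono h1 h2 hw' h).trans hv⟩
    · subst h3
      refine ⟨-R, -R / 2, by linarith, le_rfl, le_rfl, by linarith, by linarith, fun w hw hw' => ?_⟩
      rw [spk_eq_zero h1 h2 h1' h2']
      · exact hv0
      · rw [abs_of_nonpos (by linarith)]; linarith

end Pool.Agent.N118.SU
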