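import Pool.Agent.N118.SU.Cusp

/-!
# The three prototiles and their local structure
-/

set_option autoImplicit false

open Set Filter Topology

namespace Pool.Agent.N118.SU

/-- the three kinds of tiles -/
inductive Kd
  | A | B | V
  deriving DecidableEq

/-- the undecorated tiles -/
def mdl (M : ℕ) : Kd → Set ℂ
  | .A => Box 0 (2 * M) 0 (1 / 4) ∪ Box M (M + 1) 0 (3 / 4)
  | .B => Box M (3 * M + 1) (3 / 4) 1 ∪ Box (2 * M) (2 * M + 1) (1 / 4) 1
  | .V => Box 0 1 (1 / 4) (3 / 4)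

/-- the prototiles -/
noncomputable def tile (M : ℕ) (K : Kd) : Set ℂ := Phi '' mdl M K

variable {M : ℕ}

theorem mem_A {z : ℂ} : z ∈ tile M .A ↔
    (0 ≤ XX z ∧ XX z ≤ 2 * M ∧ 0 ≤ z.im ∧ z.im ≤ 1 / 4 + muA (XX z)) ∨
    (M ≤ XX z ∧ XX z ≤ M + 1 ∧ 0 ≤ z.im ∧ z.im ≤ 3 / 4 - muB (XX z)) := by
  unfold tile mdl
  rw [Set.image_union, Set.mem_union, mem_Phi_box, mem_Phi_box, SS_0, SS_14, SS_34]

theorem mem_B {z : ℂ} : z ∈ tile M .B ↔
    (M ≤ XX z ∧ XX z ≤ 3 * M + 1 ∧ 3 / 4 - muB (XX z) ≤ z.im ∧ z.im ≤ 1) ∨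
    (2 * M ≤ XX z ∧ XX z ≤ 2 * M + 1 ∧ 1 / 4 + muA (XX z) ≤ z.im ∧ z.im ≤ 1) := by
  unfold tile mdl
  rw [Set.image_union, Set.mem_union, mem_Phi_box, mem_Phi_box, SS_1, SS_14, SS_34]

theorem mem_V {z : ℂ} : z ∈ tile M .V ↔
    (0 ≤ XX z ∧ XX z ≤ 1 ∧ 1 / 4 + muA (XX z) ≤ z.im ∧ z.im ≤ 3 / 4 - muB (XX z)) := by
  unfold tile mdl
  rw [mem_Phi_box, SS_14, SS_34]

/-! ### values of the decorations -/

theorem LL_low {y : ℝ} (h0 : 0 ≤ y) (h1 : y ≤ 1 / 2) : LL y = spk 1 8 (y - 1 / 16) := by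
  unfold LL
  have hf : Int.fract y = y := Int.fract_eq_self.2 ⟨h0, by linarith⟩
  rw [hf, spk_eq_zero (c1 := 2) (c2 := 7) (by norm_num) (by norm_num) (by norm_num) (by norm_num),
    add_zero]
  rw [abs_of_nonpos (by linarith)]; linarith

theorem LL_high {y : ℝ} (h0 : 1 / 2 ≤ y) (h1 : y ≤ 1) : LL y = spk 2 7 (y - 15 / 16) := by
  unfold LL
  rcases h1.lt_or_eq with h2 | h2
  · have hf : Int.fract y = y := Int.fract_eq_self.2 ⟨by linarith, h2⟩
    rw [hf, spk_eq_zero (c1 := 1) (c2 := 8) (by norm_num) (by norm_num) (by norm_num) (by norm_num),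
      zero_add]
    rw [abs_of_nonneg (by linarith)]; linarith
  · subst h2
    rw [Int.fract_one, spk_eq_zero (c1 := 1) (c2 := 8) (by norm_num) (by norm_num) (by norm_num)
      (by norm_num), spk_eq_zero (c1 := 2) (c2 := 7) (by norm_num) (by norm_num) (by norm_num)
      (by norm_num), spk_eq_zero (c1 := 2) (c2 := 7) (by norm_num) (by norm_num) (by norm_num)
      (by norm_num), zero_add]
    · rw [abs_of_nonneg] <;> norm_num
    · rw [abs_of_nonpos] <;> norm_num
    · rw [abs_of_nonpos] <;> norm_num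

theorem LL_mid {y : ℝ} (h0 : 3 / 32 ≤ y) (h1 : y ≤ 29 / 32) : LL y = 0 := by
  rcases le_total y (1 / 2) with h | h
  · rw [LL_low (by linarith) h, spk_eq_zero (by norm_num) (by norm_num) (by norm_num) (by norm_num)]
    rw [abs_of_nonneg (by linarith)]; linarith
  · rw [LL_high h (by linarith), spk_eq_zero (by norm_num) (by norm_num) (by norm_num) (by norm_num)]
    rw [abs_of_nonpos (by linarith)]; linarith

theorem fract_loc {n : ℤ} {u : ℝ} (h0 : -(1 / 2) ≤ u) (h1 : u < 1 / 2) :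
    Int.fract ((n : ℝ) + 1 / 2 + u) - 1 / 2 = u := by
  have h : (n : ℝ) + 1 / 2 + u = (1 / 2 + u) + n := by ring
  rw [h, Int.fract_add_intCast, Int.fract_eq_self.2 ⟨by linarith, by linarith⟩]
  ring

theorem muA_loc (n : ℤ) {u : ℝ} (h0 : -(1 / 2) ≤ u) (h1 : u ≤ 1 / 2) :
    muA ((n : ℝ) + 1 / 2 + u) = spk 3 6 u := by
  unfold muA
  rcases h1.lt_or_eq with h2 | h2
  · rw [fract_loc h0 h2]
  · subst h2
    have h : (n : ℝ) + 1 / 2 + 1 / 2 = ((n + 1 : ℤ) : ℝ) := by push_cast; ring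
    rw [h, Int.fract_intCast, spk_eq_zero (by norm_num) (by norm_num) (by norm_num) (by norm_num),
      spk_eq_zero (by norm_num) (by norm_num) (by norm_num) (by norm_num)]
    · rw [abs_of_nonneg] <;> norm_num
    · rw [abs_of_nonpos] <;> norm_num

theorem muB_loc (n : ℤ) {u : ℝ} (h0 : -(1 / 2) ≤ u) (h1 : u ≤ 1 / 2) :
    muB ((n : ℝ) + 1 / 2 + u) = spk 4 5 u := by
  unfold muB
  rcases h1.lt_or_eq with h2 | h2
  · rw [fract_loc h0 h2]
  · subst h2
    have h : (n : ℝ) + 1 / 2 + 1 / 2 = ((n + 1 : ℤ) : ℝ) := by push_cast; ring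
    rw [h, Int.fract_intCast, spk_eq_zero (by norm_num) (by norm_num) (by norm_num) (by norm_num),
      spk_eq_zero (by norm_num) (by norm_num) (by norm_num) (by norm_num)]
    · rw [abs_of_nonneg] <;> norm_num
    · rw [abs_of_nonpos] <;> norm_num

/-! ### segments -/

theorem seg_of_interval {p q u : ℝ} (hpq : p < q) (hp : p ≤ u) (hq : u ≤ q) :
    ∃ δ > 0, ∃ s : ℝ, (s = 1 ∨ s = -1) ∧ ∀ t : ℝ, 0 ≤ t → t ≤ δ → p ≤ u + t * s ∧ u + t * s ≤ q := by
  rcases hq.lt_or_eq with h | h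
  · exact ⟨q - u, by linarith, 1, Or.inl rfl, fun t ht ht' => ⟨by linarith, by linarith⟩⟩
  · exact ⟨u - p, by linarith, -1, Or.inr rfl, fun t ht ht' => ⟨by linarith, by linarith⟩⟩

/-- horizontal segment at `v` -/
def HSeg (X : Set ℂ) (v : ℂ) : Prop :=
  ∃ δ > 0, ∃ s : ℝ, (s = 1 ∨ s = -1) ∧ ∀ t : ℝ, 0 ≤ t → t ≤ δ → v + (t * s : ℝ) ∈ X

/-- vertical segment at `v` -/
def VSeg (X : Set ℂ) (v : ℂ) : Prop :=
  ∃ δ > 0, ∃ s : ℝ, (s = 1 ∨ s = -1) ∧ ∀ t : ℝ, 0 ≤ t → t ≤ δ → v + (t * s : ℝ) * Complex.I ∈ X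

theorem rectAt_of {X : Set ℂ} {v : ℂ} (h1 : HSeg X v) (h2 : VSeg X v) : RectAt X v := by
  obtain ⟨δ1, hδ1, s1, hs1, h1⟩ := h1
  obtain ⟨δ2, hδ2, s2, hs2, h2⟩ := h2
  exact ⟨min δ1 δ2, lt_min hδ1 hδ2, s1, s2, hs1, hs2, fun t ht ht' =>
    ⟨h1 t ht (ht'.trans (min_le_left _ _)), h2 t ht (ht'.trans (min_le_right _ _))⟩⟩

theorem hseg_of {X : Set ℂ} {v : ℂ} {p q : ℝ} (hpq : p < q) (hp : p ≤ v.re) (hq : v.re ≤ q)
    (h : ∀ w : ℂ, w.im = v.im → p ≤ w.re → w.re ≤ q → w ∈ X) : HSeg X v := by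
  obtain ⟨δ, hδ, s, hs, h1⟩ := seg_of_interval hpq hp hq
  refine ⟨δ, hδ, s, hs, fun t ht ht' => ?_⟩
  obtain ⟨h2, h3⟩ := h1 t ht ht'
  apply h
  · simp
  · simpa using h2
  · simpa using h3

theorem vseg_of {X : Set ℂ} {v : ℂ} {p q : ℝ} (hpq : p < q) (hp : p ≤ v.im) (hq : v.im ≤ q)
    (h : ∀ w : ℂ, w.re = v.re → p ≤ w.im → w.im ≤ q → w ∈ X) : VSeg X v := by
  obtain ⟨δ, hδ, s, hs, h1⟩ := seg_of_interval hpq hp hq
  refine ⟨δ, hδ, s, hs, fun t ht ht' => ?_⟩
  obtain ⟨h2, h3⟩ := h1 t ht ht'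
  apply h
  · simp
  · simpa using h2
  · simpa using h3

/-- the cell of a point -/
theorem exists_cell {a b : ℤ} (hab : a < b) {x : ℝ} (h1 : (a : ℝ) ≤ x) (h2 : x ≤ b) :
    ∃ n : ℤ, a ≤ n ∧ n < b ∧ (n : ℝ) ≤ x ∧ x ≤ n + 1 := by
  rcases h2.lt_or_eq with h3 | h3
  · refine ⟨⌊x⌋, Int.le_floor.2 h1, Int.floor_lt.2 h3, Int.floor_le x, (Int.lt_floor_add_one x).le⟩
  · refine ⟨b - 1, by omega, by omega, ?_, ?_⟩
    · push_cast; linarith
    · push_cast; linarith

/-! ### tips -/

/-- the positions of the tips of the prototiles -/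
def tipPos (M : ℕ) : Kd → Ty → ℂ → Prop
  | .A, .a, u => u = ⟨-(1 / 32), 1 / 16⟩
  | .A, .al, u => ∃ n : ℤ, 0 ≤ n ∧ n < 2 * M ∧ u = ⟨n + 1 / 2, 9 / 32⟩
  | .B, .b, u => u = ⟨M - 1 / 32, 15 / 16⟩
  | .B, .be, u => ∃ n : ℤ, M ≤ n ∧ n < 3 * M + 1 ∧ u = ⟨n + 1 / 2, 23 / 32⟩
  | _, _, _ => False

/-- every point of `A` is a tip or has two segments -/
theorem local_A (hM : 1 ≤ M) {z : ℂ} (hz : z ∈ tile M .A) :
    RectAt (tile M .A) z ∨ ∃ τ, tipPos M .A τ z ∧ HasTip (tile M .A) z (fr τ) τ.c1 τ.c2 := by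
  have hMr : (1 : ℝ) ≤ M := by exact_mod_cast hM
  have hy0 : 0 ≤ z.im := by
    rw [mem_A] at hz
    rcases hz with h | h
    · exact h.2.2.1
    · exact h.2.2.1
  by_cases hlow : z.im ≤ 1 / 8
  · -- the lower part
    have hX : ∀ w : ℂ, 0 ≤ w.im → w.im ≤ 1 / 8 → (w ∈ tile M .A ↔
        0 ≤ w.re + spk 1 8 (w.im - 1 / 16) ∧ w.re + spk 1 8 (w.im - 1 / 16) ≤ 2 * M) := by
      intro w hw0 hw1
      rw [mem_A]
      unfold XX
      rw [LL_low hw0 (by linarith)]
      have h1 := muA_nonneg (w.re + spk 1 8 (w.im - 1 / 16))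
      have h2 := muB_le (w.re + spk 1 8 (w.im - 1 / 16))
      constructor
      · rintro (h | h)
        · exact ⟨h.1, h.2.1⟩
        · exact ⟨by linarith [h.1], by linarith [h.2.1]⟩
      · rintro h
        exact Or.inl ⟨h.1, h.2, hw0, by linarith⟩
    obtain ⟨hz1, hz2⟩ := (hX z hy0 hlow).1 hz
    have hs1 := spk_le 1 8 (z.im - 1 / 16)
    have hs0 := spk_nonneg 1 8 (z.im - 1 / 16)
    rcases le_total z.re M with hx | hx
    · by_cases hne : z.im - 1 / 16 = 0 ∧ -z.re = 1 / 32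
      · right
        have hz' : z = ⟨-(1 / 32), 1 / 16⟩ := by
          apply Complex.ext
          · show z.re = -(1 / 32); linarith [hne.2]
          · show z.im = 1 / 16; linarith [hne.1]
        refine ⟨.a, hz', 1 / 64, by norm_num, fun u hu hun => ?_⟩
        have hre := (abs_le.1 ((Complex.abs_re_le_norm u).trans hun.le))
        have him := (abs_le.1 ((Complex.abs_im_le_norm u).trans hun.le))
        rw [fr_a, hz']
        have e1 : ((⟨-(1 / 32), 1 / 16⟩ : ℂ) + u).re = -(1 / 32) + u.re := by simp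
        have e2 : ((⟨-(1 / 32), 1 / 16⟩ : ℂ) + u).im = 1 / 16 + u.im := by simp
        rw [hX _ (by rw [e2]; linarith) (by rw [e2]; linarith), e1, e2]
        have e3 : (1 / 16 + u.im - 1 / 16 : ℝ) = u.im := by ring
        rw [e3]
        have h5 := (le_spk_iff (c1 := 1) (c2 := 8) (by norm_num) (by norm_num) hu.1
          (by linarith : u.re < 1 / 32)).2 ⟨hu.2.1, hu.2.2⟩
        have h6 := spk_le 1 8 u.im
        exact ⟨by linarith, by linarith⟩
      · left
        obtain ⟨p, q, hpq, hp, hp', hq', hq, hup⟩ := spk_up (c1 := 1) (c2 := 8) (by norm_num)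
          (by norm_num) (R := 1 / 16) (u := z.im - 1 / 16) (v := -z.re) (by norm_num)
          (by linarith) (by linarith) (by linarith) hne
        apply rectAt_of
        · apply hseg_of (p := z.re) (q := z.re + 1 / 2) (by linarith) le_rfl (by linarith)
          intro w hw hw1 hw2
          rw [hX w (by rw [hw]; exact hy0) (by rw [hw]; exact hlow), hw]
          exact ⟨by linarith, by linarith⟩
        · apply vseg_of (p := p + 1 / 16) (q := q + 1 / 16) (by linarith) (by linarith)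
            (by linarith)
          intro w hw hw1 hw2
          rw [hX w (by linarith) (by linarith), hw]
          have h5 := hup (w.im - 1 / 16) (by linarith) (by linarith)
          have h6 := spk_le 1 8 (w.im - 1 / 16)
          exact ⟨by linarith, by linarith⟩
    · left
      obtain ⟨p, q, hpq, hp, hp', hq', hq, hdn⟩ := spk_dn (c1 := 1) (c2 := 8) (by norm_num)
        (by norm_num) (by norm_num) (by norm_num) (R := 1 / 16) (u := z.im - 1 / 16)
        (v := 2 * M - z.re) (by norm_num) (by linarith) (by linarith) (by linarith)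
      apply rectAt_of
      · apply hseg_of (p := z.re - 1 / 2) (q := z.re) (by linarith) (by linarith) le_rfl
        intro w hw hw1 hw2
        rw [hX w (by rw [hw]; exact hy0) (by rw [hw]; exact hlow), hw]
        exact ⟨by linarith, by linarith⟩
      · apply vseg_of (p := p + 1 / 16) (q := q + 1 / 16) (by linarith) (by linarith)
          (by linarith)
        intro w hw hw1 hw2
        rw [hX w (by linarith) (by linarith), hw]
        have h5 := hdn (w.im - 1 / 16) (by linarith) (by linarith)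
        have h6 := spk_nonneg 1 8 (w.im - 1 / 16)
        exact ⟨by linarith, by linarith⟩
  · push Not at hlow
    have hX : ∀ w : ℂ, 3 / 32 ≤ w.im → w.im ≤ 29 / 32 → (w ∈ tile M .A ↔
        (0 ≤ w.re ∧ w.re ≤ 2 * M ∧ w.im ≤ 1 / 4 + muA w.re) ∨
        (M ≤ w.re ∧ w.re ≤ M + 1 ∧ w.im ≤ 3 / 4 - muB w.re)) := by
      intro w hw0 hw1
      rw [mem_A]
      unfold XX
      rw [LL_mid hw0 hw1, add_zero]
      constructor
      · rintro (h | h)
        · exact Or.inl ⟨h.1, h.2.1, h.2.2.2⟩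
        · exact Or.inr ⟨h.1, h.2.1, h.2.2.2⟩
      · rintro (h | h)
        · exact Or.inl ⟨h.1, h.2.1, by linarith, h.2.2⟩
        · exact Or.inr ⟨h.1, h.2.1, by linarith, h.2.2⟩
    have hy1 : z.im ≤ 3 / 4 := by
      rw [mem_A] at hz
      rcases hz with h | h
      · have := muA_le (XX z); linarith [h.2.2.2]
      · have := muB_nonneg (XX z); linarith [h.2.2.2]
    have hz' := (hX z (by linarith) (by linarith)).1 hz
    by_cases hcell : M ≤ z.re ∧ z.re ≤ M + 1
    · -- the pillar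
      left
      have hyP : z.im ≤ 3 / 4 - muB z.re := by
        rcases hz' with h | h
        · have h1 := muA_le z.re
          have h2 := muB_le z.re
          linarith [h.2.2]
        · exact h.2.2
      have hu : z.re = ((M : ℤ) : ℝ) + 1 / 2 + (z.re - M - 1 / 2) := by push_cast; ring
      have hmu : muB z.re = spk 4 5 (z.re - M - 1 / 2) := by
        conv_lhs => rw [hu]
        exact muB_loc M (by linarith [hcell.1]) (by linarith [hcell.2])
      obtain ⟨p, q, hpq, hp, hp', hq', hq, hdn⟩ := spk_dn (c1 := 4) (c2 := 5) (by norm_num)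
        (by norm_num) (by norm_num) (by norm_num) (R := 1 / 2) (u := z.re - M - 1 / 2)
        (v := 3 / 4 - z.im) (by norm_num) (by linarith [hcell.1]) (by linarith [hcell.2])
        (by rw [← hmu]; linarith)
      apply rectAt_of
      · apply hseg_of (p := p + M + 1 / 2) (q := q + M + 1 / 2) (by linarith) (by linarith)
          (by linarith)
        intro w hw hw1 hw2
        rw [hX w (by rw [hw]; linarith) (by rw [hw]; linarith)]
        right
        have hw' : w.re = ((M : ℤ) : ℝ) + 1 / 2 + (w.re - M - 1 / 2) := by push_cast; ring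
        have hmu' : muB w.re = spk 4 5 (w.re - M - 1 / 2) := by
          conv_lhs => rw [hw']
          exact muB_loc M (by linarith) (by linarith)
        have h5 := hdn (w.re - M - 1 / 2) (by linarith) (by linarith)
        refine ⟨by linarith, by linarith, ?_⟩
        rw [hmu', hw]; linarith
      · apply vseg_of (p := z.im - 1 / 32) (q := z.im) (by linarith) (by linarith) le_rfl
        intro w hw hw1 hw2
        rw [hX w (by linarith) (by linarith)]
        right
        rw [hw]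
        exact ⟨hcell.1, hcell.2, by linarith⟩
    · have hz1 : 0 ≤ z.re ∧ z.re ≤ 2 * M ∧ z.im ≤ 1 / 4 + muA z.re := by
        rcases hz' with h | h
        · exact h
        · exact absurd ⟨h.1, h.2.1⟩ hcell
      obtain ⟨n, hn0, hn1, hn2, hn3⟩ := exists_cell (a := 0) (b := 2 * (M : ℤ)) (by omega)
        (x := z.re) (by push_cast; exact hz1.1) (by push_cast; exact hz1.2.1)
      have hn1r : (n : ℝ) + 1 ≤ 2 * M := by
        have : n + 1 ≤ 2 * (M : ℤ) := by omega
        exact_mod_cast this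
      have hn0r : (0 : ℝ) ≤ n := by exact_mod_cast hn0
      have hmu : ∀ x : ℝ, (n : ℝ) ≤ x → x ≤ n + 1 → muA x = spk 3 6 (x - n - 1 / 2) := by
        intro x hx1 hx2
        have hx' : x = (n : ℝ) + 1 / 2 + (x - n - 1 / 2) := by ring
        conv_lhs => rw [hx']
        exact muA_loc n (by linarith) (by linarith)
      by_cases hne : z.re - n - 1 / 2 = 0 ∧ z.im - 1 / 4 = 1 / 32
      · right
        have hzz : z = ⟨n + 1 / 2, 9 / 32⟩ := by
          apply Complex.ext
          · show z.re = n + 1 / 2; linarith [hne.1]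
          · show z.im = 9 / 32; linarith [hne.2]
        refine ⟨.al, ⟨n, hn0, hn1, hzz⟩, 1 / 64, by norm_num, fun u hu hun => ?_⟩
        have hre := (abs_le.1 ((Complex.abs_re_le_norm u).trans hun.le))
        have him := (abs_le.1 ((Complex.abs_im_le_norm u).trans hun.le))
        rw [fr_al, hzz]
        have e1 : ((⟨n + 1 / 2, 9 / 32⟩ : ℂ) + ⟨u.im, -u.re⟩).re = n + 1 / 2 + u.im := by simp
        have e2 : ((⟨n + 1 / 2, 9 / 32⟩ : ℂ) + ⟨u.im, -u.re⟩).im = 9 / 32 - u.re := by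
          simp [sub_eq_add_neg]
        rw [hX _ (by rw [e2]; linarith) (by rw [e2]; linarith), e1, e2]
        left
        refine ⟨by linarith, by linarith, ?_⟩
        rw [muA_loc n (by linarith) (by linarith)]
        have h5 := (le_spk_iff (c1 := 3) (c2 := 6) (by norm_num) (by norm_num) hu.1
          (by linarith : u.re < 1 / 32)).2 ⟨hu.2.1, hu.2.2⟩
        linarith
      · left
        obtain ⟨p, q, hpq, hp, hp', hq', hq, hup⟩ := spk_up (c1 := 3) (c2 := 6) (by norm_num)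
          (by norm_num) (R := 1 / 2) (u := z.re - n - 1 / 2) (v := z.im - 1 / 4) (by norm_num)
          (by linarith) (by linarith) (by rw [← hmu z.re hn2 hn3]; linarith [hz1.2.2]) hne
        apply rectAt_of
        · apply hseg_of (p := p + n + 1 / 2) (q := q + n + 1 / 2) (by linarith) (by linarith)
            (by linarith)
          intro w hw hw1 hw2
          rw [hX w (by rw [hw]; linarith) (by rw [hw]; linarith)]
          left
          have h5 := hup (w.re - n - 1 / 2) (by linarith) (by linarith)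
          refine ⟨by linarith, by linarith, ?_⟩
          rw [hmu w.re (by linarith) (by linarith), hw]; linarith
        · apply vseg_of (p := z.im - 1 / 32) (q := z.im) (by linarith) (by linarith) le_rfl
          intro w hw hw1 hw2
          rw [hX w (by linarith) (by linarith)]
          left
          rw [hw]
          exact ⟨hz1.1, hz1.2.1, by linarith [hz1.2.2]⟩

end Pool.Agent.N118.SU
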