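import Pool.Agent.N118.SU.Tiles

/-!
# The prototiles `B` and `V`: local structure
-/

set_option autoImplicit false

open Set Filter Topology

namespace Pool.Agent.N118.SU

variable {M : ℕ}

/-- every point of `B` is a tip or has two segments -/
theorem local_B (hM : 1 ≤ M) {z : ℂ} (hz : z ∈ tile M .B) :
    RectAt (tile M .B) z ∨ ∃ τ, tipPos M .B τ z ∧ HasTip (tile M .B) z (fr τ) τ.c1 τ.c2 := by
  have hMr : (1 : ℝ) ≤ M := by exact_mod_cast hM
  have hy1 : z.im ≤ 1 := by
    rw [mem_B] at hz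
    rcases hz with h | h
    · exact h.2.2.2
    · exact h.2.2.2
  by_cases hhigh : 7 / 8 ≤ z.im
  · -- the upper part
    have hX : ∀ w : ℂ, 7 / 8 ≤ w.im → w.im ≤ 1 → (w ∈ tile M .B ↔
        M ≤ w.re + spk 2 7 (w.im - 15 / 16) ∧
          w.re + spk 2 7 (w.im - 15 / 16) ≤ 3 * M + 1) := by
      intro w hw0 hw1
      rw [mem_B]
      unfold XX
      rw [LL_high (by linarith) hw1]
      have h1 := muA_le (w.re + spk 2 7 (w.im - 15 / 16))
      have h2 := muB_nonneg (w.re + spk 2 7 (w.im - 15 / 16))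
      constructor
      · rintro (h | h)
        · exact ⟨h.1, h.2.1⟩
        · exact ⟨by linarith [h.1], by linarith [h.2.1]⟩
      · rintro h
        exact Or.inl ⟨h.1, h.2, by linarith, hw1⟩
    obtain ⟨hz1, hz2⟩ := (hX z hhigh hy1).1 hz
    have hs1 := spk_le 2 7 (z.im - 15 / 16)
    have hs0 := spk_nonneg 2 7 (z.im - 15 / 16)
    rcases le_total z.re (2 * M) with hx | hx
    · by_cases hne : z.im - 15 / 16 = 0 ∧ M - z.re = 1 / 32
      · right
        have hz' : z = ⟨M - 1 / 32, 15 / 16⟩ := by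
          apply Complex.ext
          · show z.re = M - 1 / 32; linarith [hne.2]
          · show z.im = 15 / 16; linarith [hne.1]
        refine ⟨.b, hz', 1 / 64, by norm_num, fun u hu hun => ?_⟩
        have hre := (abs_le.1 ((Complex.abs_re_le_norm u).trans hun.le))
        have him := (abs_le.1 ((Complex.abs_im_le_norm u).trans hun.le))
        rw [fr_b, hz']
        have e1 : ((⟨M - 1 / 32, 15 / 16⟩ : ℂ) + u).re = M - 1 / 32 + u.re := by simp
        have e2 : ((⟨M - 1 / 32, 15 / 16⟩ : ℂ) + u).im = 15 / 16 + u.im := by simp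
        rw [hX _ (by rw [e2]; linarith) (by rw [e2]; linarith), e1, e2]
        have e3 : (15 / 16 + u.im - 15 / 16 : ℝ) = u.im := by ring
        rw [e3]
        have h5 := (le_spk_iff (c1 := 2) (c2 := 7) (by norm_num) (by norm_num) hu.1
          (by linarith : u.re < 1 / 32)).2 ⟨hu.2.1, hu.2.2⟩
        have h6 := spk_le 2 7 u.im
        exact ⟨by linarith, by linarith⟩
      · left
        obtain ⟨p, q, hpq, hp, hp', hq', hq, hup⟩ := spk_up (c1 := 2) (c2 := 7) (by norm_num)
          (by norm_num) (R := 1 / 16) (u := z.im - 15 / 16) (v := M - z.re) (by norm_num)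
          (by linarith) (by linarith) (by linarith) hne
        apply rectAt_of
        · apply hseg_of (p := z.re) (q := z.re + 1 / 2) (by linarith) le_rfl (by linarith)
          intro w hw hw1 hw2
          rw [hX w (by rw [hw]; exact hhigh) (by rw [hw]; exact hy1), hw]
          exact ⟨by linarith, by linarith⟩
        · apply vseg_of (p := p + 15 / 16) (q := q + 15 / 16) (by linarith) (by linarith)
            (by linarith)
          intro w hw hw1 hw2
          rw [hX w (by linarith) (by linarith), hw]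
          have h5 := hup (w.im - 15 / 16) (by linarith) (by linarith)
          have h6 := spk_le 2 7 (w.im - 15 / 16)
          exact ⟨by linarith, by linarith⟩
    · left
      obtain ⟨p, q, hpq, hp, hp', hq', hq, hdn⟩ := spk_dn (c1 := 2) (c2 := 7) (by norm_num)
        (by norm_num) (by norm_num) (by norm_num) (R := 1 / 16) (u := z.im - 15 / 16)
        (v := 3 * M + 1 - z.re) (by norm_num) (by linarith) (by linarith) (by linarith)
      apply rectAt_of
      · apply hseg_of (p := z.re - 1 / 2) (q := z.re) (by linarith) (by linarith) le_rfl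
        intro w hw hw1 hw2
        rw [hX w (by rw [hw]; exact hhigh) (by rw [hw]; exact hy1), hw]
        exact ⟨by linarith, by linarith⟩
      · apply vseg_of (p := p + 15 / 16) (q := q + 15 / 16) (by linarith) (by linarith)
          (by linarith)
        intro w hw hw1 hw2
        rw [hX w (by linarith) (by linarith), hw]
        have h5 := hdn (w.im - 15 / 16) (by linarith) (by linarith)
        have h6 := spk_nonneg 2 7 (w.im - 15 / 16)
        exact ⟨by linarith, by linarith⟩
  · push Not at hhigh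
    have hX : ∀ w : ℂ, 3 / 32 ≤ w.im → w.im ≤ 29 / 32 → (w ∈ tile M .B ↔
        (M ≤ w.re ∧ w.re ≤ 3 * M + 1 ∧ 3 / 4 - muB w.re ≤ w.im) ∨
        (2 * M ≤ w.re ∧ w.re ≤ 2 * M + 1 ∧ 1 / 4 + muA w.re ≤ w.im)) := by
      intro w hw0 hw1
      rw [mem_B]
      unfold XX
      rw [LL_mid hw0 hw1, add_zero]
      constructor
      · rintro (h | h)
        · exact Or.inl ⟨h.1, h.2.1, h.2.2.1⟩
        · exact Or.inr ⟨h.1, h.2.1, h.2.2.1⟩
      · rintro (h | h)
        · exact Or.inl ⟨h.1, h.2.1, h.2.2, by linarith⟩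
        · exact Or.inr ⟨h.1, h.2.1, h.2.2, by linarith⟩
    have hy0 : 1 / 4 ≤ z.im := by
      rw [mem_B] at hz
      rcases hz with h | h
      · have := muB_le (XX z); linarith [h.2.2.1]
      · have := muA_nonneg (XX z); linarith [h.2.2.1]
    have hz' := (hX z (by linarith) (by linarith)).1 hz
    by_cases hcell : 2 * M ≤ z.re ∧ z.re ≤ 2 * M + 1
    · -- the pillar
      left
      have hyP : 1 / 4 + muA z.re ≤ z.im := by
        rcases hz' with h | h
        · have h1 := muA_le z.re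
          have h2 := muB_le z.re
          linarith [h.2.2]
        · exact h.2.2
      have hloc : ∀ x : ℝ, 2 * M ≤ x → x ≤ 2 * M + 1 → muA x = spk 3 6 (x - 2 * M - 1 / 2) := by
        intro x hx1 hx2
        have hx' : x = ((2 * M : ℤ) : ℝ) + 1 / 2 + (x - 2 * M - 1 / 2) := by push_cast; ring
        conv_lhs => rw [hx']
        exact muA_loc (2 * M) (by linarith) (by linarith)
      obtain ⟨p, q, hpq, hp, hp', hq', hq, hdn⟩ := spk_dn (c1 := 3) (c2 := 6) (by norm_num)
        (by norm_num) (by norm_num) (by norm_num) (R := 1 / 2) (u := z.re - 2 * M - 1 / 2)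
        (v := z.im - 1 / 4) (by norm_num) (by linarith [hcell.1]) (by linarith [hcell.2])
        (by rw [← hloc z.re hcell.1 hcell.2]; linarith)
      apply rectAt_of
      · apply hseg_of (p := p + 2 * M + 1 / 2) (q := q + 2 * M + 1 / 2) (by linarith) (by linarith)
          (by linarith)
        intro w hw hw1 hw2
        rw [hX w (by rw [hw]; linarith) (by rw [hw]; linarith)]
        right
        have h5 := hdn (w.re - 2 * M - 1 / 2) (by linarith) (by linarith)
        refine ⟨by linarith, by linarith, ?_⟩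
        rw [hloc w.re (by linarith) (by linarith), hw]; linarith
      · apply vseg_of (p := z.im) (q := z.im + 1 / 32) (by linarith) le_rfl (by linarith)
        intro w hw hw1 hw2
        rw [hX w (by linarith) (by linarith)]
        right
        rw [hw]
        exact ⟨hcell.1, hcell.2, by linarith⟩
    · have hz1 : M ≤ z.re ∧ z.re ≤ 3 * M + 1 ∧ 3 / 4 - muB z.re ≤ z.im := by
        rcases hz' with h | h
        · exact h
        · exact absurd ⟨h.1, h.2.1⟩ hcell
      obtain ⟨n, hn0, hn1, hn2, hn3⟩ := exists_cell (a := M) (b := 3 * (M : ℤ) + 1) (by omega)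
        (x := z.re) (by push_cast; exact hz1.1) (by push_cast; exact hz1.2.1)
      have hn1r : (n : ℝ) + 1 ≤ 3 * M + 1 := by
        have : n + 1 ≤ 3 * (M : ℤ) + 1 := by omega
        exact_mod_cast this
      have hn0r : (M : ℝ) ≤ n := by exact_mod_cast hn0
      have hmu : ∀ x : ℝ, (n : ℝ) ≤ x → x ≤ n + 1 → muB x = spk 4 5 (x - n - 1 / 2) := by
        intro x hx1 hx2
        have hx' : x = (n : ℝ) + 1 / 2 + (x - n - 1 / 2) := by ring
        conv_lhs => rw [hx']
        exact muB_loc n (by linarith) (by linarith)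
      by_cases hne : z.re - n - 1 / 2 = 0 ∧ 3 / 4 - z.im = 1 / 32
      · right
        have hzz : z = ⟨n + 1 / 2, 23 / 32⟩ := by
          apply Complex.ext
          · show z.re = n + 1 / 2; linarith [hne.1]
          · show z.im = 23 / 32; linarith [hne.2]
        refine ⟨.be, ⟨n, hn0, hn1, hzz⟩, 1 / 64, by norm_num, fun u hu hun => ?_⟩
        have hre := (abs_le.1 ((Complex.abs_re_le_norm u).trans hun.le))
        have him := (abs_le.1 ((Complex.abs_im_le_norm u).trans hun.le))
        rw [fr_be, hzz]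
        have e1 : ((⟨n + 1 / 2, 23 / 32⟩ : ℂ) + ⟨u.im, u.re⟩).re = n + 1 / 2 + u.im := by simp
        have e2 : ((⟨n + 1 / 2, 23 / 32⟩ : ℂ) + ⟨u.im, u.re⟩).im = 23 / 32 + u.re := by simp
        rw [hX _ (by rw [e2]; linarith) (by rw [e2]; linarith), e1, e2]
        left
        refine ⟨by linarith, by linarith, ?_⟩
        rw [muB_loc n (by linarith) (by linarith)]
        have h5 := (le_spk_iff (c1 := 4) (c2 := 5) (by norm_num) (by norm_num) hu.1
          (by linarith : u.re < 1 / 32)).2 ⟨hu.2.1, hu.2.2⟩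
        linarith
      · left
        obtain ⟨p, q, hpq, hp, hp', hq', hq, hup⟩ := spk_up (c1 := 4) (c2 := 5) (by norm_num)
          (by norm_num) (R := 1 / 2) (u := z.re - n - 1 / 2) (v := 3 / 4 - z.im) (by norm_num)
          (by linarith) (by linarith) (by rw [← hmu z.re hn2 hn3]; linarith [hz1.2.2]) hne
        apply rectAt_of
        · apply hseg_of (p := p + n + 1 / 2) (q := q + n + 1 / 2) (by linarith) (by linarith)
            (by linarith)
          intro w hw hw1 hw2
          rw [hX w (by rw [hw]; linarith) (by rw [hw]; linarith)]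
          left
          have h5 := hup (w.re - n - 1 / 2) (by linarith) (by linarith)
          refine ⟨by linarith, by linarith, ?_⟩
          rw [hmu w.re (by linarith) (by linarith), hw]; linarith
        · apply vseg_of (p := z.im) (q := z.im + 1 / 32) (by linarith) le_rfl (by linarith)
          intro w hw hw1 hw2
          rw [hX w (by linarith) (by linarith)]
          left
          rw [hw]
          exact ⟨hz1.1, hz1.2.1, by linarith [hz1.2.2]⟩

/-- every point of `V` has two segments -/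
theorem local_V {z : ℂ} (hz : z ∈ tile M .V) : RectAt (tile M .V) z := by
  have hX : ∀ w : ℂ, 3 / 32 ≤ w.im → w.im ≤ 29 / 32 → (w ∈ tile M .V ↔
      0 ≤ w.re ∧ w.re ≤ 1 ∧ 1 / 4 + muA w.re ≤ w.im ∧ w.im ≤ 3 / 4 - muB w.re) := by
    intro w hw0 hw1
    rw [mem_V]
    unfold XX
    rw [LL_mid hw0 hw1, add_zero]
  have hy : 1 / 4 ≤ z.im ∧ z.im ≤ 3 / 4 := by
    rw [mem_V] at hz
    have h1 := muA_nonneg (XX z)
    have h2 := muB_nonneg (XX z)
    exact ⟨by linarith [hz.2.2.1], by linarith [hz.2.2.2]⟩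
  obtain ⟨h1, h2, h3, h4⟩ := (hX z (by linarith [hy.1]) (by linarith [hy.2])).1 hz
  have hA : ∀ x : ℝ, 0 ≤ x → x ≤ 1 → muA x = spk 3 6 (x - 1 / 2) := by
    intro x hx1 hx2
    have hx' : x = ((0 : ℤ) : ℝ) + 1 / 2 + (x - 1 / 2) := by push_cast; ring
    conv_lhs => rw [hx']
    exact muA_loc 0 (by linarith) (by linarith)
  have hB : ∀ x : ℝ, 0 ≤ x → x ≤ 1 → muB x = spk 4 5 (x - 1 / 2) := by
    intro x hx1 hx2
    have hx' : x = ((0 : ℤ) : ℝ) + 1 / 2 + (x - 1 / 2) := by push_cast; ring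
    conv_lhs => rw [hx']
    exact muB_loc 0 (by linarith) (by linarith)
  have hAle := muA_le z.re
  have hBle := muB_le z.re
  rcases le_total z.im (1 / 2) with hm | hm
  · obtain ⟨p, q, hpq, hp, hp', hq', hq, hdn⟩ := spk_dn (c1 := 3) (c2 := 6) (by norm_num)
        (by norm_num) (by norm_num) (by norm_num) (R := 1 / 2) (u := z.re - 1 / 2)
        (v := z.im - 1 / 4) (by norm_num) (by linarith) (by linarith)
        (by rw [← hA z.re h1 h2]; linarith)
    apply rectAt_of
    · apply hseg_of (p := p + 1 / 2) (q := q + 1 / 2) (by linarith) (by linarith) (by linarith)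
      intro w hw hw1 hw2
      rw [hX w (by rw [hw]; linarith) (by rw [hw]; linarith)]
      have h5 := hdn (w.re - 1 / 2) (by linarith) (by linarith)
      have h6 := muB_le w.re
      refine ⟨by linarith, by linarith, ?_, by rw [hw]; linarith⟩
      rw [hA w.re (by linarith) (by linarith), hw]; linarith
    · apply vseg_of (p := z.im) (q := z.im + 1 / 32) (by linarith) le_rfl (by linarith)
      intro w hw hw1 hw2
      rw [hX w (by linarith) (by linarith), hw]
      exact ⟨h1, h2, by linarith, by linarith⟩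
  · obtain ⟨p, q, hpq, hp, hp', hq', hq, hdn⟩ := spk_dn (c1 := 4) (c2 := 5) (by norm_num)
        (by norm_num) (by norm_num) (by norm_num) (R := 1 / 2) (u := z.re - 1 / 2)
        (v := 3 / 4 - z.im) (by norm_num) (by linarith) (by linarith)
        (by rw [← hB z.re h1 h2]; linarith)
    apply rectAt_of
    · apply hseg_of (p := p + 1 / 2) (q := q + 1 / 2) (by linarith) (by linarith) (by linarith)
      intro w hw hw1 hw2
      rw [hX w (by rw [hw]; linarith) (by rw [hw]; linarith)]
      have h5 := hdn (w.re - 1 / 2) (by linarith) (by linarith)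
      have h6 := muA_le w.re
      refine ⟨by linarith, by linarith, by rw [hw]; linarith, ?_⟩
      rw [hB w.re (by linarith) (by linarith), hw]; linarith
    · apply vseg_of (p := z.im - 1 / 32) (q := z.im) (by linarith) (by linarith) le_rfl
      intro w hw hw1 hw2
      rw [hX w (by linarith) (by linarith), hw]
      exact ⟨h1, h2, by linarith, by linarith⟩

theorem local_tile (hM : 1 ≤ M) (K : Kd) {z : ℂ} (hz : z ∈ tile M K) :
    RectAt (tile M K) z ∨ ∃ τ, tipPos M K τ z ∧ HasTip (tile M K) z (fr τ) τ.c1 τ.c2 := by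
  cases K with
  | A => exact local_A hM hz
  | B => exact local_B hM hz
  | V => exact Or.inl (local_V hz)

/-! ### notches -/

theorem spk_lt_of_not_mem {c1 c2 : ℝ} (h1 : 0 < c1) (h2 : 0 < c2) {u : ℂ} (hu : u ∉ cst c1 c2)
    (hre : u.re < 1 / 32) : spk c1 c2 u.im ≤ 1 / 32 - u.re := by
  rcases lt_or_ge u.re 0 with h | h
  · have := spk_le c1 c2 u.im
    linarith
  · by_contra hcon
    push Not at hcon
    have h3 := (le_spk_iff h1 h2 h hre (u := u.im)).1 hcon.le
    exact hu ⟨h, h3.1, h3.2⟩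

/-- the notch of `A` of type `a` -/
theorem notch_A_a (hM : 1 ≤ M) :
    HasNotch (tile M .A) ⟨2 * M - 1 / 32, 1 / 16⟩ (fr .a) Ty.a.c1 Ty.a.c2 := by
  have hMr : (1 : ℝ) ≤ M := by exact_mod_cast hM
  refine ⟨1 / 64, by norm_num, fun u hun hu => ?_, fun s hs hs' => ?_⟩
  · have hre := (abs_le.1 ((Complex.abs_re_le_norm u).trans hun.le))
    have him := (abs_le.1 ((Complex.abs_im_le_norm u).trans hun.le))
    rw [fr_a, mem_A]
    have e1 : ((⟨2 * M - 1 / 32, 1 / 16⟩ : ℂ) + u).re = 2 * M - 1 / 32 + u.re := by simp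
    have e2 : ((⟨2 * M - 1 / 32, 1 / 16⟩ : ℂ) + u).im = 1 / 16 + u.im := by simp
    have e3 : XX ((⟨2 * M - 1 / 32, 1 / 16⟩ : ℂ) + u) = 2 * M - 1 / 32 + u.re + spk 1 8 u.im := by
      unfold XX
      rw [e1, e2, LL_low (by linarith) (by linarith)]
      congr 2; ring
    rw [e3, e2]
    left
    have h5 : spk 1 8 u.im ≤ 1 / 32 - u.re :=
      spk_lt_of_not_mem (by norm_num) (by norm_num) hu (by linarith)
    have h6 := spk_nonneg 1 8 u.im
    have h7 := muA_nonneg (2 * M - 1 / 32 + u.re + spk 1 8 u.im)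
    exact ⟨by linarith, by linarith, by linarith, by linarith⟩
  · rw [fr_a, mem_A]
    have e1 : ((⟨2 * M - 1 / 32, 1 / 16⟩ : ℂ) + (s : ℂ)).re = 2 * M - 1 / 32 + s := by simp
    have e2 : ((⟨2 * M - 1 / 32, 1 / 16⟩ : ℂ) + (s : ℂ)).im = 1 / 16 := by simp
    have e3 : XX ((⟨2 * M - 1 / 32, 1 / 16⟩ : ℂ) + (s : ℂ)) = 2 * M + s := by
      unfold XX
      rw [e1, e2, LL_low (by norm_num) (by norm_num), sub_self, spk_zero]; ring
    rw [e3]
    rintro (h | h)
    · linarith [h.2.1]
    · linarith [h.2.1]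

/-- the notch of `A` of type `β` -/
theorem notch_A_be (hM : 1 ≤ M) :
    HasNotch (tile M .A) ⟨M + 1 / 2, 23 / 32⟩ (fr .be) Ty.be.c1 Ty.be.c2 := by
  have hMr : (1 : ℝ) ≤ M := by exact_mod_cast hM
  refine ⟨1 / 64, by norm_num, fun u hun hu => ?_, fun s hs hs' => ?_⟩
  · have hre := (abs_le.1 ((Complex.abs_re_le_norm u).trans hun.le))
    have him := (abs_le.1 ((Complex.abs_im_le_norm u).trans hun.le))
    rw [fr_be, mem_A]
    have e1 : ((⟨M + 1 / 2, 23 / 32⟩ : ℂ) + ⟨u.im, u.re⟩).re = M + 1 / 2 + u.im := by simp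
    have e2 : ((⟨M + 1 / 2, 23 / 32⟩ : ℂ) + ⟨u.im, u.re⟩).im = 23 / 32 + u.re := by simp
    have e3 : XX ((⟨M + 1 / 2, 23 / 32⟩ : ℂ) + ⟨u.im, u.re⟩) = M + 1 / 2 + u.im := by
      unfold XX
      rw [e1, e2, LL_mid (by linarith) (by linarith), add_zero]
    rw [e3, e2]
    right
    have h5 : spk 4 5 u.im ≤ 1 / 32 - u.re :=
      spk_lt_of_not_mem (by norm_num) (by norm_num) hu (by linarith)
    have h6 : muB (M + 1 / 2 + u.im) = spk 4 5 u.im := by
      have := muB_loc M (u := u.im) (by linarith) (by linarith)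
      push_cast at this
      exact this
    rw [h6]
    exact ⟨by linarith, by linarith, by linarith, by linarith⟩
  · rw [fr_be, mem_A]
    have e1 : ((⟨M + 1 / 2, 23 / 32⟩ : ℂ) + ⟨(s : ℂ).im, (s : ℂ).re⟩).re = M + 1 / 2 := by simp
    have e2 : ((⟨M + 1 / 2, 23 / 32⟩ : ℂ) + ⟨(s : ℂ).im, (s : ℂ).re⟩).im = 23 / 32 + s := by simp
    have e3 : XX ((⟨M + 1 / 2, 23 / 32⟩ : ℂ) + ⟨(s : ℂ).im, (s : ℂ).re⟩) = M + 1 / 2 := by
      unfold XX
      rw [e1, e2, LL_mid (by linarith) (by linarith), add_zero]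
    rw [e3, e2]
    have h6 : muB (M + 1 / 2) = 1 / 32 := by
      have := muB_loc M (u := 0) (by norm_num) (by norm_num)
      rw [spk_zero] at this
      push_cast at this
      rw [add_zero] at this
      exact this
    have h7 := muA_le (M + 1 / 2)
    rintro (h | h)
    · linarith [h.2.2.2]
    · rw [h6] at h
      linarith [h.2.2.2]

/-- the notch of `B` of type `b` -/
theorem notch_B_b (hM : 1 ≤ M) :
    HasNotch (tile M .B) ⟨3 * M + 1 - 1 / 32, 15 / 16⟩ (fr .b) Ty.b.c1 Ty.b.c2 := by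
  have hMr : (1 : ℝ) ≤ M := by exact_mod_cast hM
  refine ⟨1 / 64, by norm_num, fun u hun hu => ?_, fun s hs hs' => ?_⟩
  · have hre := (abs_le.1 ((Complex.abs_re_le_norm u).trans hun.le))
    have him := (abs_le.1 ((Complex.abs_im_le_norm u).trans hun.le))
    rw [fr_b, mem_B]
    have e1 : ((⟨3 * M + 1 - 1 / 32, 15 / 16⟩ : ℂ) + u).re = 3 * M + 1 - 1 / 32 + u.re := by simp
    have e2 : ((⟨3 * M + 1 - 1 / 32, 15 / 16⟩ : ℂ) + u).im = 15 / 16 + u.im := by simp
    have e3 : XX ((⟨3 * M + 1 - 1 / 32, 15 / 16⟩ : ℂ) + u) =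
        3 * M + 1 - 1 / 32 + u.re + spk 2 7 u.im := by
      unfold XX
      rw [e1, e2, LL_high (by linarith) (by linarith)]
      congr 2; ring
    rw [e3, e2]
    left
    have h5 : spk 2 7 u.im ≤ 1 / 32 - u.re :=
      spk_lt_of_not_mem (by norm_num) (by norm_num) hu (by linarith)
    have h6 := spk_nonneg 2 7 u.im
    have h7 := muB_nonneg (3 * M + 1 - 1 / 32 + u.re + spk 2 7 u.im)
    exact ⟨by linarith, by linarith, by linarith, by linarith⟩
  · rw [fr_b, mem_B]
    have e1 : ((⟨3 * M + 1 - 1 / 32, 15 / 16⟩ : ℂ) + (s : ℂ)).re = 3 * M + 1 - 1 / 32 + s := by simp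
    have e2 : ((⟨3 * M + 1 - 1 / 32, 15 / 16⟩ : ℂ) + (s : ℂ)).im = 15 / 16 := by simp
    have e3 : XX ((⟨3 * M + 1 - 1 / 32, 15 / 16⟩ : ℂ) + (s : ℂ)) = 3 * M + 1 + s := by
      unfold XX
      rw [e1, e2, LL_high (by norm_num) (by norm_num), sub_self, spk_zero]; ring
    rw [e3]
    rintro (h | h)
    · linarith [h.2.1]
    · linarith [h.2.1]

/-- the notch of `B` of type `α` -/
theorem notch_B_al :
    HasNotch (tile M .B) ⟨2 * M + 1 / 2, 9 / 32⟩ (fr .al) Ty.al.c1 Ty.al.c2 := by
  refine ⟨1 / 64, by norm_num, fun u hun hu => ?_, fun s hs hs' => ?_⟩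
  · have hre := (abs_le.1 ((Complex.abs_re_le_norm u).trans hun.le))
    have him := (abs_le.1 ((Complex.abs_im_le_norm u).trans hun.le))
    rw [fr_al, mem_B]
    have e1 : ((⟨2 * M + 1 / 2, 9 / 32⟩ : ℂ) + ⟨u.im, -u.re⟩).re = 2 * M + 1 / 2 + u.im := by simp
    have e2 : ((⟨2 * M + 1 / 2, 9 / 32⟩ : ℂ) + ⟨u.im, -u.re⟩).im = 9 / 32 - u.re := by
      simp [sub_eq_add_neg]
    have e3 : XX ((⟨2 * M + 1 / 2, 9 / 32⟩ : ℂ) + ⟨u.im, -u.re⟩) = 2 * M + 1 / 2 + u.im := by
      unfold XX
      rw [e1, e2, LL_mid (by linarith) (by linarith), add_zero]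
    rw [e3, e2]
    right
    have h5 : spk 3 6 u.im ≤ 1 / 32 - u.re :=
      spk_lt_of_not_mem (by norm_num) (by norm_num) hu (by linarith)
    have h6 : muA (2 * M + 1 / 2 + u.im) = spk 3 6 u.im := by
      have := muA_loc (2 * M) (u := u.im) (by linarith) (by linarith)
      push_cast at this
      exact this
    rw [h6]
    exact ⟨by linarith, by linarith, by linarith, by linarith⟩
  · rw [fr_al, mem_B]
    have e1 : ((⟨2 * M + 1 / 2, 9 / 32⟩ : ℂ) + ⟨(s : ℂ).im, -(s : ℂ).re⟩).re = 2 * M + 1 / 2 := by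
      simp
    have e2 : ((⟨2 * M + 1 / 2, 9 / 32⟩ : ℂ) + ⟨(s : ℂ).im, -(s : ℂ).re⟩).im = 9 / 32 - s := by
      simp [sub_eq_add_neg]
    have e3 : XX ((⟨2 * M + 1 / 2, 9 / 32⟩ : ℂ) + ⟨(s : ℂ).im, -(s : ℂ).re⟩) = 2 * M + 1 / 2 := by
      unfold XX
      rw [e1, e2, LL_mid (by linarith) (by linarith), add_zero]
    rw [e3, e2]
    have h6 : muA (2 * M + 1 / 2) = 1 / 32 := by
      have := muA_loc (2 * M) (u := 0) (by norm_num) (by norm_num)
      rw [spk_zero] at this
      push_cast at this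
      rw [add_zero] at this
      exact this
    have h7 := muB_le (2 * M + 1 / 2)
    rintro (h | h)
    · linarith [h.2.2.1]
    · rw [h6] at h
      linarith [h.2.2.1]

/-- the notch of `V` of type `α` -/
theorem notch_V_al :
    HasNotch (tile M .V) ⟨1 / 2, 9 / 32⟩ (fr .al) Ty.al.c1 Ty.al.c2 := by
  refine ⟨1 / 64, by norm_num, fun u hun hu => ?_, fun s hs hs' => ?_⟩
  · have hre := (abs_le.1 ((Complex.abs_re_le_norm u).trans hun.le))
    have him := (abs_le.1 ((Complex.abs_im_le_norm u).trans hun.le))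
    rw [fr_al, mem_V]
    have e1 : ((⟨1 / 2, 9 / 32⟩ : ℂ) + ⟨u.im, -u.re⟩).re = 1 / 2 + u.im := by simp
    have e2 : ((⟨1 / 2, 9 / 32⟩ : ℂ) + ⟨u.im, -u.re⟩).im = 9 / 32 - u.re := by
      simp [sub_eq_add_neg]
    have e3 : XX ((⟨1 / 2, 9 / 32⟩ : ℂ) + ⟨u.im, -u.re⟩) = 1 / 2 + u.im := by
      unfold XX
      rw [e1, e2, LL_mid (by linarith) (by linarith), add_zero]
    rw [e3, e2]
    have h5 : spk 3 6 u.im ≤ 1 / 32 - u.re :=
      spk_lt_of_not_mem (by norm_num) (by norm_num) hu (by linarith)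
    have h6 : muA (1 / 2 + u.im) = spk 3 6 u.im := by
      have := muA_loc 0 (u := u.im) (by linarith) (by linarith)
      push_cast at this
      rw [zero_add] at this
      exact this
    have h7 := muB_le (1 / 2 + u.im)
    rw [h6]
    exact ⟨by linarith, by linarith, by linarith, by linarith⟩
  · rw [fr_al, mem_V]
    have e1 : ((⟨1 / 2, 9 / 32⟩ : ℂ) + ⟨(s : ℂ).im, -(s : ℂ).re⟩).re = 1 / 2 := by
      simp
    have e2 : ((⟨1 / 2, 9 / 32⟩ : ℂ) + ⟨(s : ℂ).im, -(s : ℂ).re⟩).im = 9 / 32 - s := by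
      simp [sub_eq_add_neg]
    have e3 : XX ((⟨1 / 2, 9 / 32⟩ : ℂ) + ⟨(s : ℂ).im, -(s : ℂ).re⟩) = 1 / 2 := by
      unfold XX
      rw [e1, e2, LL_mid (by linarith) (by linarith), add_zero]
    rw [e3, e2]
    have h6 : muA (1 / 2) = 1 / 32 := by
      have := muA_loc 0 (u := 0) (by norm_num) (by norm_num)
      rw [spk_zero] at this
      push_cast at this
      rw [zero_add, add_zero] at this
      exact this
    rw [h6]
    rintro h
    linarith [h.2.2.1]

end Pool.Agent.N118.SU
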